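import Pool.Agent.Helper27.QClass

set_option autoImplicit false

open SimpleGraph

namespace Pool.Agent.Helper27.CW

variable {V : Type} {G : SimpleGraph V}

/-- `a - b - c - d` is an induced path. -/
def P4 (G : SimpleGraph V) (a b c d : V) : Prop :=
  G.Adj a b ∧ G.Adj b c ∧ G.Adj c d ∧ ¬ G.Adj a c ∧ ¬ G.Adj a d ∧ ¬ G.Adj b d

theorem P4.ne {a b c d : V} (h : P4 G a b c d) :
    a ≠ b ∧ a ≠ c ∧ a ≠ d ∧ b ≠ c ∧ b ≠ d ∧ c ≠ d := by
  obtain ⟨h1, h2, h3, h4, h5, h6⟩ := h
  refine ⟨h1.ne, ?_, ?_, h2.ne, ?_, h3.ne⟩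
  · rintro rfl; exact h5 h3
  · rintro rfl; exact h4 h3.symm
  · rintro rfl; exact h5 h1

theorem P4.symm {a b c d : V} (h : P4 G a b c d) : P4 G d c b a := by
  obtain ⟨h1, h2, h3, h4, h5, h6⟩ := h
  exact ⟨h3.symm, h2.symm, h1.symm, fun h => h6 h.symm, fun h => h5 h.symm, fun h => h4 h.symm⟩

theorem P4.compl {a b c d : V} (h : P4 G a b c d) : P4 Gᶜ b d a c := by
  have hne := h.ne
  obtain ⟨h1, h2, h3, h4, h5, h6⟩ := h
  obtain ⟨n1, n2, n3, n4, n5, n6⟩ := hne
  simp only [P4, SimpleGraph.compl_adj]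
  refine ⟨⟨n5, h6⟩, ⟨n3.symm, fun h => h5 h.symm⟩, ⟨n2, h4⟩, ?_, ?_, ?_⟩
  · exact fun h => h.2 h1.symm
  · exact fun h => h.2 h2
  · exact fun h => h.2 h3.symm

section dec

variable [DecidableEq V]

theorem isP4_iff {A : Finset V} :
    IsP4 G A ↔ ∃ a b c d, P4 G a b c d ∧ A = {a, b, c, d} := by
  constructor
  · rintro ⟨hc, ⟨f⟩⟩
    let g : Fin 4 → V := fun i => (f.symm i : V)
    have hg : ∀ i j, G.Adj (g i) (g j) ↔ (SimpleGraph.pathGraph 4).Adj i j := by
      intro i j
      have := f.symm.map_adj_iff (v := i) (w := j)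
      rw [← this]
      rfl
    have hA : A = Finset.univ.image g := by
      ext x
      simp only [Finset.mem_image, Finset.mem_univ, true_and]
      constructor
      · intro hx
        refine ⟨f ⟨x, hx⟩, ?_⟩
        simp [g]
      · rintro ⟨i, rfl⟩
        exact (f.symm i).2
    refine ⟨g 0, g 1, g 2, g 3, ⟨?_, ?_, ?_, ?_, ?_, ?_⟩, ?_⟩
    · rw [hg]; rw [SimpleGraph.pathGraph_adj]; decide
    · rw [hg]; rw [SimpleGraph.pathGraph_adj]; decide
    · rw [hg]; rw [SimpleGraph.pathGraph_adj]; decide
    · rw [hg]; rw [SimpleGraph.pathGraph_adj]; decide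
    · rw [hg]; rw [SimpleGraph.pathGraph_adj]; decide
    · rw [hg]; rw [SimpleGraph.pathGraph_adj]; decide
    · rw [hA]
      ext x
      simp only [Finset.mem_image, Finset.mem_univ, true_and, Fin.exists_fin_succ, Finset.mem_insert,
        Finset.mem_singleton]
      simp
      constructor
      · rintro (h | h | h | h) <;> simp [← h]
      · rintro (h | h | h | h) <;> simp [← h]
  · rintro ⟨a, b, c, d, h, rfl⟩
    have hne := h.ne
    obtain ⟨n1, n2, n3, n4, n5, n6⟩ := hne
    have hcard : ({a, b, c, d} : Finset V).card = 4 := by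
      rw [Finset.card_eq_succ]
      refine ⟨a, {b, c, d}, by simp [n1, n2, n3], rfl, ?_⟩
      rw [Finset.card_eq_succ]
      refine ⟨b, {c, d}, by simp [n4, n5], rfl, ?_⟩
      rw [Finset.card_pair n6]
    refine ⟨hcard, ?_⟩
    let g : Fin 4 → V := ![a, b, c, d]
    have hginj : Function.Injective g := by
      intro i j hij
      fin_cases i <;> fin_cases j <;> simp_all [g]
    have hmem : ∀ i, g i ∈ (({a, b, c, d} : Finset V) : Set V) := by
      intro i
      fin_cases i <;> simp [g]
    let g' : Fin 4 → (({a, b, c, d} : Finset V) : Set V) := fun i => ⟨g i, hmem i⟩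
    have hg' : Function.Bijective g' := by
      constructor
      · intro i j hij
        exact hginj (congrArg Subtype.val hij)
      · rintro ⟨x, hx⟩
        simp only [Finset.coe_insert, Finset.coe_singleton, Set.mem_insert_iff,
          Set.mem_singleton_iff] at hx
        rcases hx with rfl | rfl | rfl | rfl
        · exact ⟨0, rfl⟩
        · exact ⟨1, rfl⟩
        · exact ⟨2, rfl⟩
        · exact ⟨3, rfl⟩
    refine ⟨RelIso.symm ⟨Equiv.ofBijective g' hg', ?_⟩⟩
    intro i j
    change G.Adj (g i) (g j) ↔ _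
    obtain ⟨h1, h2, h3, h4, h5, h6⟩ := h
    rw [SimpleGraph.pathGraph_adj]
    have h1' := h1.symm
    have h2' := h2.symm
    have h3' := h3.symm
    have h4' : ¬ G.Adj c a := fun h => h4 h.symm
    have h5' : ¬ G.Adj d a := fun h => h5 h.symm
    have h6' : ¬ G.Adj d b := fun h => h6 h.symm
    have hT : ∀ p q : Prop, p → q → (p ↔ q) := fun p q hp hq => ⟨fun _ => hq, fun _ => hp⟩
    have hF : ∀ p q : Prop, ¬ p → ¬ q → (p ↔ q) := fun p q hp hq =>
      ⟨fun h => absurd h hp, fun h => absurd h hq⟩
    fin_cases i <;> fin_cases j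
    · exact hF _ _ (G.loopless.irrefl a) (by decide)
    · exact hT _ _ h1 (by decide)
    · exact hF _ _ h4 (by decide)
    · exact hF _ _ h5 (by decide)
    · exact hT _ _ h1' (by decide)
    · exact hF _ _ (G.loopless.irrefl b) (by decide)
    · exact hT _ _ h2 (by decide)
    · exact hF _ _ h6 (by decide)
    · exact hF _ _ h4' (by decide)
    · exact hT _ _ h2' (by decide)
    · exact hF _ _ (G.loopless.irrefl c) (by decide)
    · exact hT _ _ h3 (by decide)
    · exact hF _ _ h5' (by decide)
    · exact hF _ _ h6' (by decide)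
    · exact hT _ _ h3' (by decide)
    · exact hF _ _ (G.loopless.irrefl d) (by decide)

theorem isP4_compl {A : Finset V} : IsP4 Gᶜ A ↔ IsP4 G A := by
  have key : ∀ (H : SimpleGraph V), IsP4 H A → IsP4 Hᶜ A := by
    intro H h
    rw [isP4_iff] at h ⊢
    obtain ⟨a, b, c, d, h, rfl⟩ := h
    refine ⟨b, d, a, c, h.compl, ?_⟩
    ext x; simp only [Finset.mem_insert, Finset.mem_singleton]; tauto
  constructor
  · intro h
    have := key _ h
    rwa [compl_compl] at this
  · exact key G

/-- `p`-connected sets: unions of connected families of induced paths on four vertices. -/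
inductive PC (G : SimpleGraph V) : Finset V → Prop
  | base {D : Finset V} : IsP4 G D → PC G D
  | step {A D : Finset V} : PC G A → IsP4 G D → (A ∩ D).Nonempty → PC G (A ∪ D)

theorem PC.compl {A : Finset V} (h : PC G A) : PC Gᶜ A := by
  induction h with
  | base h => exact PC.base (isP4_compl.2 h)
  | step _ h h' ih => exact PC.step ih (isP4_compl.2 h) h'

theorem PC.mem_P4 {A : Finset V} (h : PC G A) {v : V} (hv : v ∈ A) :
    ∃ D ⊆ A, IsP4 G D ∧ v ∈ D := by
  induction h with
  | base h => exact ⟨_, Finset.Subset.refl _, h, hv⟩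
  | step _ h h' ih =>
    rcases Finset.mem_union.1 hv with hv | hv
    · obtain ⟨D, h1, h2⟩ := ih hv
      exact ⟨D, h1.trans Finset.subset_union_left, h2⟩
    · exact ⟨_, Finset.subset_union_right, h, hv⟩

theorem PC.crossing {A : Finset V} (h : PC G A) (p : V → Prop) (h1 : ∃ v ∈ A, p v)
    (h2 : ∃ v ∈ A, ¬ p v) : ∃ D ⊆ A, IsP4 G D ∧ (∃ v ∈ D, p v) ∧ (∃ v ∈ D, ¬ p v) := by
  induction h with
  | base h => exact ⟨_, Finset.Subset.refl _, h, h1, h2⟩
  | @step A D _ h h' ih =>
    by_cases hA : (∃ v ∈ A, p v) ∧ (∃ v ∈ A, ¬ p v)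
    · obtain ⟨D', h3, h4⟩ := ih hA.1 hA.2
      exact ⟨D', h3.trans Finset.subset_union_left, h4⟩
    · by_cases hD : (∃ v ∈ D, p v) ∧ (∃ v ∈ D, ¬ p v)
      · exact ⟨D, Finset.subset_union_right, h, hD⟩
      · exfalso
        obtain ⟨w, hw⟩ := h'
        rw [Finset.mem_inter] at hw
        obtain ⟨v1, hv1, hp1⟩ := h1
        obtain ⟨v2, hv2, hp2⟩ := h2
        rw [Finset.mem_union] at hv1 hv2
        by_cases hpw : p w
        · rcases hv2 with hv2 | hv2
          · exact hA ⟨⟨w, hw.1, hpw⟩, ⟨v2, hv2, hp2⟩⟩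
          · exact hD ⟨⟨w, hw.2, hpw⟩, ⟨v2, hv2, hp2⟩⟩
        · rcases hv1 with hv1 | hv1
          · exact hA ⟨⟨v1, hv1, hp1⟩, ⟨w, hw.1, hpw⟩⟩
          · exact hD ⟨⟨v1, hv1, hp1⟩, ⟨w, hw.2, hpw⟩⟩

theorem PC.nonempty {A : Finset V} (h : PC G A) : A.Nonempty := by
  induction h with
  | base h => exact Finset.card_pos.1 (by rw [h.1]; norm_num)
  | step _ h h' ih => exact ih.mono Finset.subset_union_left

theorem PC.four_le {A : Finset V} (h : PC G A) : 4 ≤ A.card := by
  obtain ⟨v, hv⟩ := h.nonempty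
  obtain ⟨D, h1, h2, _⟩ := h.mem_P4 hv
  rw [← h2.1]
  exact Finset.card_le_card h1

end dec

/-- `x` is in no induced `P₄` with three vertices of `A`. -/
def NF (G : SimpleGraph V) (A : Finset V) (x : V) : Prop :=
  ∀ a ∈ A, ∀ b ∈ A, ∀ c ∈ A, ¬ P4 G x a b c ∧ ¬ P4 G a x b c

theorem NF.compl {A : Finset V} {x : V} (h : NF G A x) : NF Gᶜ A x := by
  intro a ha b hb c hc
  constructor
  · intro h'
    have h1 := h'.compl
    rw [compl_compl] at h1
    -- P4 G a c x b
    exact (h b hb c hc a ha).2 h1.symm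
  · intro h'
    have h1 := h'.compl
    rw [compl_compl] at h1
    -- P4 G x c a b
    exact (h c hc a ha b hb).1 h1

theorem tnm_prop (A B C D : Prop) (E1 : A → ¬ B → ¬ C → False) (E2 : B → ¬ C → ¬ D → False)
    (E3 : C → ¬ B → ¬ A → False) (E4 : D → ¬ C → ¬ B → False) (E5 : A → C → ¬ D → False)
    (E6 : D → B → ¬ A → False) (E7 : A → D → ¬ C → False) (E8 : D → A → ¬ B → False) :
    (A ↔ D) ∧ (B ↔ C) ∧ (A → B) := by
  by_cases hA : A
  · by_cases hB : B
    · by_cases hC : C
      · by_cases hD : D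
        · exact ⟨⟨fun _ => hD, fun _ => hA⟩, ⟨fun _ => hC, fun _ => hB⟩, fun _ => hB⟩
        · exact (E5 hA hC hD).elim
      · by_cases hD : D
        · exact (E7 hA hD hC).elim
        · exact (E2 hB hC hD).elim
    · by_cases hC : C
      · by_cases hD : D
        · exact (E8 hD hA hB).elim
        · exact (E5 hA hC hD).elim
      · exact (E1 hA hB hC).elim
  · by_cases hB : B
    · by_cases hC : C
      · by_cases hD : D
        · exact (E6 hD hB hA).elim
        · exact ⟨⟨fun h => absurd h hA, fun h => absurd h hD⟩, ⟨fun _ => hC, fun _ => hB⟩,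
            fun h => absurd h hA⟩
      · by_cases hD : D
        · exact (E6 hD hB hA).elim
        · exact (E2 hB hC hD).elim
    · by_cases hC : C
      · exact (E3 hC hB hA).elim
      · by_cases hD : D
        · exact (E4 hD hC hB).elim
        · exact ⟨⟨fun h => absurd h hA, fun h => absurd h hD⟩,
            ⟨fun h => absurd h hB, fun h => absurd h hC⟩, fun h => absurd h hA⟩

/-- The trace of a non-frontier vertex on an induced `P₄` is empty, everything or the two
midpoints. -/
theorem NF.tnm {A : Finset V} {x : V} (h : NF G A x) {a b c d : V} (hP : P4 G a b c d)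
    (ha : a ∈ A) (hb : b ∈ A) (hc : c ∈ A) (hd : d ∈ A) :
    (G.Adj x a ↔ G.Adj x d) ∧ (G.Adj x b ↔ G.Adj x c) ∧ (G.Adj x a → G.Adj x b) := by
  obtain ⟨h1, h2, h3, h4, h5, h6⟩ := hP
  have h1' := h1.symm
  have h2' := h2.symm
  have h3' := h3.symm
  have h4' : ¬ G.Adj c a := fun h => h4 h.symm
  have h5' : ¬ G.Adj d a := fun h => h5 h.symm
  have h6' : ¬ G.Adj d b := fun h => h6 h.symm
  have E1 : G.Adj x a → ¬ G.Adj x b → ¬ G.Adj x c → False := fun q1 q2 q3 =>
    (h a ha b hb c hc).1 ⟨q1, h1, h2, q2, q3, h4⟩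
  have E2 : G.Adj x b → ¬ G.Adj x c → ¬ G.Adj x d → False := fun q1 q2 q3 =>
    (h b hb c hc d hd).1 ⟨q1, h2, h3, q2, q3, h6⟩
  have E3 : G.Adj x c → ¬ G.Adj x b → ¬ G.Adj x a → False := fun q1 q2 q3 =>
    (h c hc b hb a ha).1 ⟨q1, h2', h1', q2, q3, h4'⟩
  have E4 : G.Adj x d → ¬ G.Adj x c → ¬ G.Adj x b → False := fun q1 q2 q3 =>
    (h d hd c hc b hb).1 ⟨q1, h3', h2', q2, q3, h6'⟩
  have E5 : G.Adj x a → G.Adj x c → ¬ G.Adj x d → False := fun q1 q2 q3 =>
    (h a ha c hc d hd).2 ⟨q1.symm, q2, h3, h4, h5, q3⟩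
  have E6 : G.Adj x d → G.Adj x b → ¬ G.Adj x a → False := fun q1 q2 q3 =>
    (h d hd b hb a ha).2 ⟨q1.symm, q2, h1', h6', h5', q3⟩
  have E7 : G.Adj x a → G.Adj x d → ¬ G.Adj x c → False := fun q1 q2 q3 =>
    (h a ha d hd c hc).2 ⟨q1.symm, q2, h3', h5, h4, q3⟩
  have E8 : G.Adj x d → G.Adj x a → ¬ G.Adj x b → False := fun q1 q2 q3 =>
    (h d hd a ha b hb).2 ⟨q1.symm, q2, h1, h5', h6', q3⟩
  exact tnm_prop _ _ _ _ E1 E2 E3 E4 E5 E6 E7 E8

/-- Non-frontier vertices are constant on modules of `G[A]` that are crossed by a `P₄`. -/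
theorem NF.uniform [DecidableEq V] {A : Finset V} {x : V} (h : NF G A x) {C : Set V}
    (hC : ∀ u ∈ A, u ∉ C → ∀ y ∈ A, y ∈ C → ∀ y' ∈ A, y' ∈ C → (G.Adj u y ↔ G.Adj u y'))
    {D : Finset V} (hD : IsP4 G D) (hDA : D ⊆ A) (h1 : ∃ v ∈ D, v ∈ C) (h2 : ∃ v ∈ D, v ∉ C)
    {y y' : V} (hy : y ∈ A) (hyC : y ∈ C) (hy' : y' ∈ A) (hyC' : y' ∈ C) :
    (G.Adj x y ↔ G.Adj x y') := by
  rw [isP4_iff] at hD
  obtain ⟨a, b, c, d, hP, rfl⟩ := hD
  have ha : a ∈ A := hDA (by simp)
  have hb : b ∈ A := hDA (by simp)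
  have hc : c ∈ A := hDA (by simp)
  have hd : d ∈ A := hDA (by simp)
  have hP' := hP
  obtain ⟨p1, p2, p3, p4, p5, p6⟩ := hP
  have p1' := p1.symm
  have p2' := p2.symm
  have p3' := p3.symm
  have p4' : ¬ G.Adj c a := fun h => p4 h.symm
  have p5' : ¬ G.Adj d a := fun h => p5 h.symm
  have p6' : ¬ G.Adj d b := fun h => p6 h.symm
  simp only [Finset.mem_insert, Finset.mem_singleton, exists_eq_or_imp, exists_eq_left] at h1 h2
  -- forbidden pairs: u outside distinguishing two members
  have key : ∀ u v w, u ∈ A → v ∈ A → w ∈ A → u ∉ C → v ∈ C → w ∈ C → G.Adj u v →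
      ¬ G.Adj u w → False := by
    intro u v w hu hv hw hu' hv' hw' h3 h4
    exact h4 ((hC u hu hu' v hv hv' w hw hw').1 h3)
  have kabc := key c b a hc hb ha
  have kbad := key b a d hb ha hd
  have kbcd := key b c d hb hc hd
  have kcba := key c d a hc hd ha
  have kabd := key a b d ha hb hd
  have kabc' := key a b c ha hb hc
  have kdca := key d c a hd hc ha
  have kdcb := key d c b hd hc hb
  by_cases Ca : a ∈ C
  · by_cases Cb : b ∈ C
    · by_cases Cc : c ∈ C
      · -- d outside
        have Cd : d ∉ C := by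
          rcases h2 with h' | h' | h' | h'
          exacts [absurd Ca h', absurd Cb h', absurd Cc h', h']
        exact (kdca Cd Cc Ca p3' p5').elim
      · exact (kabc Cc Cb Ca p2' p4').elim
    · by_cases Cc : c ∈ C
      · by_cases Cd : d ∈ C
        · exact (kbad Cb Ca Cd p1' p6).elim
        · exact (kdca Cd Cc Ca p3' p5').elim
      · by_cases Cd : d ∈ C
        · exact (kcba Cc Cd Ca p3 p4').elim
        · -- only a
          have q : ∀ z ∈ A, z ∈ C → P4 G z b c d := by
            intro z hz hzC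
            have r1 := (hC b hb Cb a ha Ca z hz hzC).1 p1'
            have r2 : ¬ G.Adj c z := fun h => p4' ((hC c hc Cc a ha Ca z hz hzC).2 h)
            have r3 : ¬ G.Adj d z := fun h => p5' ((hC d hd Cd a ha Ca z hz hzC).2 h)
            exact ⟨r1.symm, p2, p3, fun h => r2 h.symm, fun h => r3 h.symm, p6⟩
          exact (h.tnm (q y hy hyC) hy hb hc hd).1.trans
            (h.tnm (q y' hy' hyC') hy' hb hc hd).1.symm
  · by_cases Cb : b ∈ C
    · by_cases Cc : c ∈ C
      · exact (kabc' Ca Cb Cc p1 p4).elim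
      · by_cases Cd : d ∈ C
        · exact (kabd Ca Cb Cd p1 p5).elim
        · -- only b
          have q : ∀ z ∈ A, z ∈ C → P4 G a z c d := by
            intro z hz hzC
            have r1 := (hC a ha Ca b hb Cb z hz hzC).1 p1
            have r2 := (hC c hc Cc b hb Cb z hz hzC).1 p2'
            have r3 : ¬ G.Adj d z := fun h => p6' ((hC d hd Cd b hb Cb z hz hzC).2 h)
            exact ⟨r1, r2.symm, p3, p4, p5, fun h => r3 h.symm⟩
          exact (h.tnm (q y hy hyC) ha hy hc hd).2.1.trans
            (h.tnm (q y' hy' hyC') ha hy' hc hd).2.1.symm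
    · by_cases Cc : c ∈ C
      · by_cases Cd : d ∈ C
        · exact (kbcd Cb Cc Cd p2 p6).elim
        · have q : ∀ z ∈ A, z ∈ C → P4 G a b z d := by
            intro z hz hzC
            have r1 : ¬ G.Adj a z := fun h => p4 ((hC a ha Ca c hc Cc z hz hzC).2 h)
            have r2 := (hC b hb Cb c hc Cc z hz hzC).1 p2
            have r3 := (hC d hd Cd c hc Cc z hz hzC).1 p3'
            exact ⟨p1, r2, r3.symm, r1, p5, p6⟩
          exact (h.tnm (q y hy hyC) ha hb hy hd).2.1.symm.trans
            (h.tnm (q y' hy' hyC') ha hb hy' hd).2.1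
      · have Cd : d ∈ C := by
          rcases h1 with h' | h' | h' | h'
          exacts [absurd h' Ca, absurd h' Cb, absurd h' Cc, h']
        have q : ∀ z ∈ A, z ∈ C → P4 G a b c z := by
          intro z hz hzC
          have r1 : ¬ G.Adj a z := fun h => p5 ((hC a ha Ca d hd Cd z hz hzC).2 h)
          have r2 : ¬ G.Adj b z := fun h => p6 ((hC b hb Cb d hd Cd z hz hzC).2 h)
          have r3 := (hC c hc Cc d hd Cd z hz hzC).1 p3
          exact ⟨p1, p2, r3, p4, r1, r2⟩
        exact (h.tnm (q y hy hyC) ha hb hc hy).1.symm.trans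
          (h.tnm (q y' hy' hyC') ha hb hc hy').1


theorem IsModule.compl {M : Set V} (h : IsModule G M) : IsModule Gᶜ M := by
  intro x hx u hu v hv
  have h1 : x ≠ u := fun h => hx (h ▸ hu)
  have h2 : x ≠ v := fun h => hx (h ▸ hv)
  simp only [SimpleGraph.compl_adj, ne_eq, h1, h2, not_false_eq_true, true_and]
  exact not_congr (h x hx u hu v hv)

theorem IsPrime.compl (h : IsPrime G) : IsPrime Gᶜ := by
  intro M hM
  have := hM.compl
  rw [compl_compl] at this
  exact h M this

section stuck

variable [DecidableEq V]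

/-- In a prime graph, the non-neighbours (in a stuck `p`-connected set) of a partial vertex form
a stable set. -/
theorem stuck_stable (hp : IsPrime G) {A : Finset V} (hA : PC G A)
    (hnf : ∀ z, z ∉ A → NF G A z) {x q : V} (hx : x ∉ A) (hq : q ∈ A) (hxq : G.Adj x q)
    {y y' : V} (hy : y ∈ A) (hxy : ¬ G.Adj x y) (hy' : y' ∈ A) (hxy' : ¬ G.Adj x y') :
    ¬ G.Adj y y' := by
  intro hyy
  let r : V → V → Prop := fun a b => b ∈ A ∧ ¬ G.Adj x b ∧ G.Adj a b
  let C : Set V := {z | Relation.ReflTransGen r y z}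
  have hC1 : ∀ z ∈ C, z ∈ A ∧ ¬ G.Adj x z := by
    intro z hz
    rcases Relation.ReflTransGen.cases_tail hz with h | ⟨w, _, h⟩
    · rw [h]; exact ⟨hy, hxy⟩
    · exact ⟨h.1, h.2.1⟩
  have hyC : y ∈ C := Relation.ReflTransGen.refl
  have hyC' : y' ∈ C := Relation.ReflTransGen.single ⟨hy', hxy', hyy⟩
  -- neighbours of x are uniform on C
  have hU1 : ∀ u ∈ A, G.Adj x u → ∀ z ∈ C, (G.Adj u y ↔ G.Adj u z) := by
    intro u hu hxu z hz
    induction hz with
    | refl => exact Iff.rfl
    | @tail b c hb hbc ih =>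
      have hb' := hC1 b hb
      rw [ih]
      constructor
      · intro h
        by_contra h'
        exact (hnf x hx u hu b hb'.1 c hbc.1).1 ⟨hxu, h, hbc.2.2, hb'.2, hbc.2.1, h'⟩
      · intro h
        by_contra h'
        exact (hnf x hx u hu c hbc.1 b hb'.1).1 ⟨hxu, h, hbc.2.2.symm, hbc.2.1, hb'.2, h'⟩
  have hU2 : ∀ u ∈ A, ¬ G.Adj x u → u ∉ C → ∀ z ∈ C, ¬ G.Adj u z := by
    intro u hu hxu huC z hz h
    exact huC (Relation.ReflTransGen.tail hz ⟨hu, hxu, h.symm⟩)
  have hU : ∀ u ∈ A, u ∉ C → ∀ z ∈ A, z ∈ C → ∀ z' ∈ A, z' ∈ C → (G.Adj u z ↔ G.Adj u z') := by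
    intro u hu huC z _ hz z' _ hz'
    by_cases hxu : G.Adj x u
    · exact (hU1 u hu hxu z hz).symm.trans (hU1 u hu hxu z' hz')
    · exact ⟨fun h => absurd h (hU2 u hu hxu huC z hz), fun h => absurd h (hU2 u hu hxu huC z' hz')⟩
  have hqC : q ∉ C := fun h => (hC1 q h).2 hxq
  obtain ⟨D, hDA, hD, h1, h2⟩ := hA.crossing (fun v => v ∈ C) ⟨y, hy, hyC⟩ ⟨q, hq, hqC⟩
  have hmod : IsModule G C := by
    intro u hu z hz z' hz'
    by_cases huA : u ∈ A
    · exact hU u huA hu z (hC1 z hz).1 hz z' (hC1 z' hz').1 hz'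
    · exact (hnf u huA).uniform hU hD hDA h1 h2 (hC1 z hz).1 hz (hC1 z' hz').1 hz'
  rcases hp C hmod with h | h
  · have := h hyC hyC'
    exact hyy.ne this
  · have : q ∈ C := by rw [h]; trivial
    exact hqC this

/-- In a prime graph, the neighbours (in a stuck `p`-connected set) of a partial vertex form
a clique. -/
theorem stuck_clique (hp : IsPrime G) {A : Finset V} (hA : PC G A)
    (hnf : ∀ z, z ∉ A → NF G A z) {x q : V} (hx : x ∉ A) (hq : q ∈ A) (hxq : ¬ G.Adj x q)
    {y y' : V} (hy : y ∈ A) (hxy : G.Adj x y) (hy' : y' ∈ A) (hxy' : G.Adj x y')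
    (hne : y ≠ y') : G.Adj y y' := by
  have h := stuck_stable (G := Gᶜ) hp.compl hA.compl (fun z hz => (hnf z hz).compl) hx hq
    (by rw [SimpleGraph.compl_adj]; exact ⟨fun h => hx (h ▸ hq), hxq⟩) hy
    (by rw [SimpleGraph.compl_adj]; exact fun h => h.2 hxy) hy'
    (by rw [SimpleGraph.compl_adj]; exact fun h => h.2 hxy')
  rw [SimpleGraph.compl_adj] at h
  by_contra h'
  exact h ⟨hne, h'⟩

/-- The configuration in which a `p`-connected set can only be extended by two vertices. -/
structure Leg (G : SimpleGraph V) (A K S : Finset V) (r n : V) : Prop where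
  union : A = K ∪ S
  disj : Disjoint K S
  clique : ∀ u ∈ K, ∀ v ∈ K, u ≠ v → G.Adj u v
  stable : ∀ u ∈ S, ∀ v ∈ S, ¬ G.Adj u v
  hr : r ∉ A
  hn : n ∉ A
  rK : ∀ u ∈ K, G.Adj r u
  rS : ∀ u ∈ S, ¬ G.Adj r u
  nA : ∀ u ∈ A, ¬ G.Adj n u
  rn : G.Adj r n
  uK : ∀ z, z ∉ A → ∀ u ∈ K, ∀ v ∈ K, (G.Adj z u ↔ G.Adj z v)
  uS : ∀ z, z ∉ A → ∀ u ∈ S, ∀ v ∈ S, (G.Adj z u ↔ G.Adj z v)

theorem split_mids {K S : Finset V} {A : Finset V} (hU : A = K ∪ S)
    (hK : ∀ u ∈ K, ∀ v ∈ K, u ≠ v → G.Adj u v) (hS : ∀ u ∈ S, ∀ v ∈ S, ¬ G.Adj u v)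
    {a b c d : V} (hP : P4 G a b c d) (ha : a ∈ A) (hb : b ∈ A) (hc : c ∈ A) (hd : d ∈ A) :
    a ∈ S ∧ b ∈ K ∧ c ∈ K ∧ d ∈ S := by
  have hne := hP.ne
  obtain ⟨h1, h2, h3, h4, h5, h6⟩ := hP
  subst hU
  rw [Finset.mem_union] at ha hb hc hd
  have hbK : b ∈ K := by
    rcases hb with hb | hb
    · exact hb
    · exfalso
      have ha' : a ∈ K := ha.resolve_right (fun h => hS a h b hb h1)
      have hc' : c ∈ K := hc.resolve_right (fun h => hS b hb c h h2)
      exact h4 (hK a ha' c hc' hne.2.1)
  have hcK : c ∈ K := by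
    rcases hc with hc | hc
    · exact hc
    · exfalso
      have hd' : d ∈ K := hd.resolve_right (fun h => hS c hc d h h3)
      exact h6 (hK b hbK d hd' hne.2.2.2.2.1)
  have haS : a ∈ S := ha.resolve_left (fun h => h4 (hK a h c hcK hne.2.1))
  have hdS : d ∈ S := hd.resolve_left (fun h => h6 (hK b hbK d h hne.2.2.2.2.1))
  exact ⟨haS, hbK, hcK, hdS⟩

/-- Growth of `p`-connected sets in prime graphs: if nothing can be added by one vertex, there is
a leg (or a leg in the complement). -/
theorem growth (hp : IsPrime G) {A : Finset V} (hA : PC G A)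
    (hnf : ∀ z, z ∉ A → NF G A z) (h2 : ∃ z w, z ∉ A ∧ w ∉ A ∧ z ≠ w) :
    (∃ K S r n, Leg G A K S r n) ∨ (∃ K S r n, Leg Gᶜ A K S r n) := by
  classical
  have hfour := hA.four_le
  obtain ⟨z0, w0, hz0, hw0, hzw⟩ := h2
  -- A is not a module
  have hnm : ¬ IsModule G (A : Set V) := by
    intro hM
    rcases hp _ hM with h | h
    · have h1 : A.card ≤ 1 := Finset.card_le_one.2 (fun a ha b hb => h ha hb)
      omega
    · have : z0 ∈ (A : Set V) := by rw [h]; trivial
      exact hz0 this
  unfold IsModule at hnm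
  push Not at hnm
  obtain ⟨x, hx, u0, hu0, v0, hv0, hxuv⟩ := hnm
  have hpart : ∃ u ∈ A, ∃ v ∈ A, G.Adj x u ∧ ¬ G.Adj x v := by
    rcases hxuv with h | h
    · exact ⟨u0, hu0, v0, hv0, h.1, h.2⟩
    · exact ⟨v0, hv0, u0, hu0, h.2, h.1⟩
  obtain ⟨u1, hu1, v1, hv1, hxu1, hxv1⟩ := hpart
  have hx' : x ∉ A := hx
  -- any partial vertex gives a split partition
  have hsplit : ∀ z, z ∉ A → (∃ u ∈ A, G.Adj z u) → (∃ v ∈ A, ¬ G.Adj z v) →
      (∀ y ∈ A, ∀ y' ∈ A, ¬ G.Adj z y → ¬ G.Adj z y' → ¬ G.Adj y y') ∧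
      (∀ y ∈ A, ∀ y' ∈ A, G.Adj z y → G.Adj z y' → y ≠ y' → G.Adj y y') := by
    rintro z hz ⟨u, hu, hzu⟩ ⟨v, hv, hzv⟩
    refine ⟨fun y hy y' hy' h h' => stuck_stable hp hA hnf hz hu hzu hy h hy' h',
      fun y hy y' hy' h h' hne => stuck_clique hp hA hnf hz hv hzv hy h hy' h' hne⟩
  have hmids : ∀ z, z ∉ A → (∃ u ∈ A, G.Adj z u) → (∃ v ∈ A, ¬ G.Adj z v) →
      ∀ a b c d, P4 G a b c d → a ∈ A → b ∈ A → c ∈ A → d ∈ A →
      ¬ G.Adj z a ∧ G.Adj z b ∧ G.Adj z c ∧ ¬ G.Adj z d := by
    intro z hz h1 h2 a b c d hP ha hb hc hd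
    obtain ⟨hs1, hs2⟩ := hsplit z hz h1 h2
    have := split_mids (G := G) (A := A) (K := A.filter (fun v => G.Adj z v))
      (S := A.filter (fun v => ¬ G.Adj z v)) (Finset.filter_union_filter_not_eq _ _).symm
      (by
        intro u hu v hv hne
        rw [Finset.mem_filter] at hu hv
        exact hs2 u hu.1 v hv.1 hu.2 hv.2 hne)
      (by
        intro u hu v hv
        rw [Finset.mem_filter] at hu hv
        exact hs1 u hu.1 v hv.1 hu.2 hv.2) hP ha hb hc hd
    simp only [Finset.mem_filter] at this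
    exact ⟨this.1.2, this.2.1.2, this.2.2.1.2, this.2.2.2.2⟩
  -- all partial vertices have the same trace
  have hsame : ∀ z, z ∉ A → (∃ u ∈ A, G.Adj z u) → (∃ v ∈ A, ¬ G.Adj z v) →
      ∀ v ∈ A, (G.Adj z v ↔ G.Adj x v) := by
    intro z hz h1 h2 v hv
    obtain ⟨D, hDA, hD, hvD⟩ := hA.mem_P4 hv
    rw [isP4_iff] at hD
    obtain ⟨a, b, c, d, hP, rfl⟩ := hD
    have ha : a ∈ A := hDA (by simp)
    have hb : b ∈ A := hDA (by simp)
    have hc : c ∈ A := hDA (by simp)
    have hd : d ∈ A := hDA (by simp)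
    have m1 := hmids z hz h1 h2 a b c d hP ha hb hc hd
    have m2 := hmids x hx' ⟨u1, hu1, hxu1⟩ ⟨v1, hv1, hxv1⟩ a b c d hP ha hb hc hd
    simp only [Finset.mem_insert, Finset.mem_singleton] at hvD
    rcases hvD with rfl | rfl | rfl | rfl
    · exact ⟨fun h => absurd h m1.1, fun h => absurd h m2.1⟩
    · exact ⟨fun _ => m2.2.1, fun _ => m1.2.1⟩
    · exact ⟨fun _ => m2.2.2.1, fun _ => m1.2.2.1⟩
    · exact ⟨fun h => absurd h m1.2.2.2, fun h => absurd h m2.2.2.2⟩
  let K : Finset V := A.filter (fun v => G.Adj x v)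
  let S : Finset V := A.filter (fun v => ¬ G.Adj x v)
  have hKm : ∀ v, v ∈ K ↔ v ∈ A ∧ G.Adj x v := fun v => by simp [K]
  have hSm : ∀ v, v ∈ S ↔ v ∈ A ∧ ¬ G.Adj x v := fun v => by simp [S]
  have hKS : A = K ∪ S := (Finset.filter_union_filter_not_eq _ _).symm
  have hKSd : Disjoint K S := Finset.disjoint_filter_filter_not _ _ _
  obtain ⟨hs1, hs2⟩ := hsplit x hx' ⟨u1, hu1, hxu1⟩ ⟨v1, hv1, hxv1⟩
  have hKc : ∀ u ∈ K, ∀ v ∈ K, u ≠ v → G.Adj u v := by
    intro u hu v hv hne
    rw [hKm] at hu hv
    exact hs2 u hu.1 v hv.1 hu.2 hv.2 hne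
  have hSs : ∀ u ∈ S, ∀ v ∈ S, ¬ G.Adj u v := by
    intro u hu v hv
    rw [hSm] at hu hv
    exact hs1 u hu.1 v hv.1 hu.2 hv.2
  -- types of outside vertices
  have htype : ∀ z, z ∉ A → (∀ v ∈ A, G.Adj z v) ∨ (∀ v ∈ A, ¬ G.Adj z v) ∨
      (∀ v ∈ A, (G.Adj z v ↔ G.Adj x v)) := by
    intro z hz
    by_cases h1 : ∃ u ∈ A, G.Adj z u
    · by_cases h2 : ∃ u ∈ A, ¬ G.Adj z u
      · exact Or.inr (Or.inr (hsame z hz h1 h2))
      · push Not at h2
        exact Or.inl h2
    · push Not at h1
      exact Or.inr (Or.inl h1)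
  have huK : ∀ z, z ∉ A → ∀ u ∈ K, ∀ v ∈ K, (G.Adj z u ↔ G.Adj z v) := by
    intro z hz u hu v hv
    rw [hKm] at hu hv
    rcases htype z hz with h | h | h
    · exact ⟨fun _ => h v hv.1, fun _ => h u hu.1⟩
    · exact ⟨fun h' => absurd h' (h u hu.1), fun h' => absurd h' (h v hv.1)⟩
    · rw [h u hu.1, h v hv.1]
      exact ⟨fun _ => hv.2, fun _ => hu.2⟩
  have huS : ∀ z, z ∉ A → ∀ u ∈ S, ∀ v ∈ S, (G.Adj z u ↔ G.Adj z v) := by
    intro z hz u hu v hv
    rw [hSm] at hu hv
    rcases htype z hz with h | h | h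
    · exact ⟨fun _ => h v hv.1, fun _ => h u hu.1⟩
    · exact ⟨fun h' => absurd h' (h u hu.1), fun h' => absurd h' (h v hv.1)⟩
    · rw [h u hu.1, h v hv.1]
      exact ⟨fun h' => absurd h' hu.2, fun h' => absurd h' hv.2⟩
  -- the set of partial vertices
  let R : Set V := {z | z ∉ A ∧ ∀ v ∈ A, (G.Adj z v ↔ G.Adj x v)}
  by_cases hM : IsModule G ((A : Set V) ∪ R)
  · exfalso
    have hMu : ((A : Set V) ∪ R) = Set.univ := by
      rcases hp _ hM with h | h
      · exfalso
        have h1 : A.card ≤ 1 := Finset.card_le_one.2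
          (fun a ha b hb => h (Or.inl ha) (Or.inl hb))
        omega
      · exact h
    have hRm : IsModule G R := by
      intro w hw u hu v hv
      have hwA : w ∈ A := by
        have : w ∈ ((A : Set V) ∪ R) := by rw [hMu]; trivial
        rcases this with h | h
        · exact h
        · exact absurd h hw
      rw [G.adj_comm w u, G.adj_comm w v, hu.2 w hwA, hv.2 w hwA]
    rcases hp _ hRm with h | h
    · have h1 : z0 ∈ R := by
        have : z0 ∈ ((A : Set V) ∪ R) := by rw [hMu]; trivial
        exact this.resolve_left hz0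
      have h3 : w0 ∈ R := by
        have : w0 ∈ ((A : Set V) ∪ R) := by rw [hMu]; trivial
        exact this.resolve_left hw0
      exact hzw (h h1 h3)
    · have : u1 ∈ R := by rw [h]; trivial
      exact this.1 hu1
  · unfold IsModule at hM
    push Not at hM
    obtain ⟨z, hz, u, hu, v, hv, hzuv⟩ := hM
    have hzz : ∃ u ∈ (A : Set V) ∪ R, ∃ v ∈ (A : Set V) ∪ R, G.Adj z u ∧ ¬ G.Adj z v := by
      rcases hzuv with h | h
      · exact ⟨u, hu, v, hv, h.1, h.2⟩
      · exact ⟨v, hv, u, hu, h.2, h.1⟩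
    obtain ⟨u, hu, v, hv, hzu, hzv⟩ := hzz
    have hzA : z ∉ A := fun h => hz (Or.inl h)
    have hzR : z ∉ R := fun h => hz (Or.inr h)
    rcases htype z hzA with h | h | h
    · -- total: leg in the complement
      right
      have hvR : v ∈ R := hv.resolve_left (fun h' => hzv (h v h'))
      refine ⟨S, K, v, z, ?_⟩
      refine { union := by rw [Finset.union_comm]; exact hKS, disj := hKSd.symm, clique := ?_,
               stable := ?_, hr := hvR.1, hn := hzA, rK := ?_, rS := ?_, nA := ?_, rn := ?_,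
               uK := ?_, uS := ?_ }
      · intro a ha b hb hne
        rw [SimpleGraph.compl_adj]
        exact ⟨hne, hSs a ha b hb⟩
      · intro a ha b hb hab
        rw [SimpleGraph.compl_adj] at hab
        exact hab.2 (hKc a ha b hb hab.1)
      · intro a ha
        rw [SimpleGraph.compl_adj]
        rw [hSm] at ha
        exact ⟨fun h' => hvR.1 (h' ▸ ha.1), fun h' => ha.2 ((hvR.2 a ha.1).1 h')⟩
      · intro a ha hab
        rw [SimpleGraph.compl_adj] at hab
        rw [hKm] at ha
        exact hab.2 ((hvR.2 a ha.1).2 ha.2)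
      · intro a ha hab
        rw [SimpleGraph.compl_adj] at hab
        exact hab.2 (h a ha)
      · rw [SimpleGraph.compl_adj]
        exact ⟨fun h' => hzR (h' ▸ hvR), fun h' => hzv h'.symm⟩
      · intro w hw a ha b hb
        have h1 : w ≠ a := fun h' => hw (h' ▸ ((hSm a).1 ha).1)
        have h2 : w ≠ b := fun h' => hw (h' ▸ ((hSm b).1 hb).1)
        simp only [SimpleGraph.compl_adj, ne_eq, h1, h2, not_false_eq_true, true_and]
        exact not_congr (huS w hw a ha b hb)
      · intro w hw a ha b hb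
        have h1 : w ≠ a := fun h' => hw (h' ▸ ((hKm a).1 ha).1)
        have h2 : w ≠ b := fun h' => hw (h' ▸ ((hKm b).1 hb).1)
        simp only [SimpleGraph.compl_adj, ne_eq, h1, h2, not_false_eq_true, true_and]
        exact not_congr (huK w hw a ha b hb)
    · -- null
      left
      have huR : u ∈ R := hu.resolve_left (fun h' => h u h' hzu)
      exact ⟨K, S, u, z,
        { union := hKS, disj := hKSd, clique := hKc, stable := hSs, hr := huR.1, hn := hzA
          rK := fun a ha => (huR.2 a ((hKm a).1 ha).1).2 ((hKm a).1 ha).2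
          rS := fun a ha h' => ((hSm a).1 ha).2 ((huR.2 a ((hSm a).1 ha).1).1 h')
          nA := h, rn := hzu.symm, uK := huK, uS := huS }⟩
    · exact absurd ⟨hzA, h⟩ hzR

end stuck


section counting

variable [DecidableEq V]

open Classical in
/-- The induced `P₄`s inside `B`. -/
noncomputable def fp (G : SimpleGraph V) (B : Finset V) : Finset (Finset V) :=
  B.powerset.filter (fun D => IsP4 G D)

omit [DecidableEq V] in
theorem mem_fp {B D : Finset V} : D ∈ fp G B ↔ D ⊆ B ∧ IsP4 G D := by
  simp [fp]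

theorem fp_compl (B : Finset V) : fp Gᶜ B = fp G B := by
  ext D
  rw [mem_fp, mem_fp, isP4_compl]

omit [DecidableEq V] in
theorem fp_ncard (B : Finset V) :
    {A : Finset V | A ⊆ B ∧ A.card = 4 ∧
      Nonempty (G.induce (A : Set V) ≃g SimpleGraph.pathGraph 4)}.ncard = (fp G B).card := by
  rw [← Set.ncard_coe_finset]
  congr 1
  ext D
  simp only [Set.mem_ofPred_eq, Finset.mem_coe, mem_fp]
  exact Iff.rfl

theorem P4.isP4 {a b c d : V} (h : P4 G a b c d) : IsP4 G {a, b, c, d} :=
  isP4_iff.2 ⟨a, b, c, d, h, rfl⟩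

/-- The edges between `K` and `S` inside `B`. -/
def eb (G : SimpleGraph V) [DecidableRel G.Adj] (K S B : Finset V) : Finset (V × V) :=
  (K ×ˢ S).filter (fun p => G.Adj p.1 p.2 ∧ p.1 ∈ B ∧ p.2 ∈ B)

theorem Leg.isP4 {A K S : Finset V} {r n : V} (h : Leg G A K S r n) {k s : V} (hk : k ∈ K)
    (hs : s ∈ S) (hks : G.Adj k s) : IsP4 G {s, k, r, n} := by
  have hkA : k ∈ A := by rw [h.union]; exact Finset.mem_union_left _ hk
  have hsA : s ∈ A := by rw [h.union]; exact Finset.mem_union_right _ hs
  exact P4.isP4 ⟨hks.symm, (h.rK k hk).symm, h.rn, fun h' => h.rS s hs h'.symm,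
    fun h' => h.nA s hsA h'.symm, fun h' => h.nA k hkA h'.symm⟩

theorem Leg.count [DecidableRel G.Adj] {A K S : Finset V} {r n : V} (h : Leg G A K S r n)
    {B : Finset V} (hB : B ⊆ A) :
    (fp G B).card + (eb G K S B).card ≤ (fp G (insert r (insert n B))).card := by
  have hrn : r ≠ n := h.rn.ne
  have hKA : K ⊆ A := by rw [h.union]; exact Finset.subset_union_left
  have hSA : S ⊆ A := by rw [h.union]; exact Finset.subset_union_right
  have h1 : Disjoint (fp G B) ((eb G K S B).image (fun p => ({p.2, p.1, r, n} : Finset V))) := by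
    rw [Finset.disjoint_left]
    intro D hD hD'
    rw [Finset.mem_image] at hD'
    obtain ⟨p, _, rfl⟩ := hD'
    have := (mem_fp.1 hD).1 (show r ∈ ({p.2, p.1, r, n} : Finset V) by simp)
    exact h.hr (hB this)
  have h2 : ((eb G K S B).image (fun p => ({p.2, p.1, r, n} : Finset V))).card =
      (eb G K S B).card := by
    apply Finset.card_image_of_injOn
    rintro ⟨k, s⟩ hp ⟨k', s'⟩ hp' heq
    simp only [eb, Finset.coe_filter, Finset.mem_product, Set.mem_ofPred_eq] at hp hp'
    simp only at heq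
    have hk : k ∈ K := hp.1.1
    have hs : s ∈ S := hp.1.2
    have hk' : k' ∈ K := hp'.1.1
    have hs' : s' ∈ S := hp'.1.2
    have m1 : s ∈ ({s', k', r, n} : Finset V) := by rw [← heq]; simp
    have m2 : k ∈ ({s', k', r, n} : Finset V) := by rw [← heq]; simp
    simp only [Finset.mem_insert, Finset.mem_singleton] at m1 m2
    have e1 : s = s' := by
      rcases m1 with m | m | m | m
      · exact m
      · exact absurd hs (m ▸ fun h' => (Finset.disjoint_left.1 h.disj) hk' h')
      · exact absurd (m ▸ hSA hs) h.hr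
      · exact absurd (m ▸ hSA hs) h.hn
    have e2 : k = k' := by
      rcases m2 with m | m | m | m
      · exact absurd (m ▸ hk) (fun h' => (Finset.disjoint_left.1 h.disj) h' hs')
      · exact m
      · exact absurd (m ▸ hKA hk) h.hr
      · exact absurd (m ▸ hKA hk) h.hn
    rw [e1, e2]
  rw [← h2, ← Finset.card_union_of_disjoint h1]
  apply Finset.card_le_card
  intro D hD
  rw [Finset.mem_union] at hD
  rcases hD with hD | hD
  · rw [mem_fp] at hD ⊢
    exact ⟨hD.1.trans ((Finset.subset_insert _ _).trans (Finset.subset_insert _ _)), hD.2⟩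
  · rw [Finset.mem_image] at hD
    obtain ⟨p, hp, rfl⟩ := hD
    simp only [eb, Finset.mem_filter, Finset.mem_product] at hp
    rw [mem_fp]
    refine ⟨?_, h.isP4 hp.1.1 hp.1.2 hp.2.1⟩
    intro x hx
    simp only [Finset.mem_insert, Finset.mem_singleton] at hx ⊢
    rcases hx with rfl | rfl | rfl | rfl
    · exact Or.inr (Or.inr hp.2.2.2)
    · exact Or.inr (Or.inr hp.2.2.1)
    · exact Or.inl rfl
    · exact Or.inr (Or.inl rfl)

/-- Every midpoint has a neighbour among the ends, and conversely. -/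
theorem Leg.nbr {A K S : Finset V} {r n : V} (h : Leg G A K S r n) (hA : PC G A) :
    (∀ k ∈ K, ∃ s ∈ S, G.Adj k s) ∧ (∀ s ∈ S, ∃ k ∈ K, G.Adj k s) := by
  have hKA : K ⊆ A := by rw [h.union]; exact Finset.subset_union_left
  have hSA : S ⊆ A := by rw [h.union]; exact Finset.subset_union_right
  have key : ∀ v ∈ A, (v ∈ K ∧ ∃ s ∈ S, G.Adj v s) ∨ (v ∈ S ∧ ∃ k ∈ K, G.Adj k v) := by
    intro v hv
    obtain ⟨D, hDA, hD, hvD⟩ := hA.mem_P4 hv
    rw [isP4_iff] at hD
    obtain ⟨a, b, c, d, hP, rfl⟩ := hD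
    have hm := split_mids h.union h.clique h.stable hP (hDA (by simp)) (hDA (by simp))
      (hDA (by simp)) (hDA (by simp))
    simp only [Finset.mem_insert, Finset.mem_singleton] at hvD
    rcases hvD with rfl | rfl | rfl | rfl
    · exact Or.inr ⟨hm.1, b, hm.2.1, hP.1.symm⟩
    · exact Or.inl ⟨hm.2.1, a, hm.1, hP.1.symm⟩
    · exact Or.inl ⟨hm.2.2.1, d, hm.2.2.2, hP.2.2.1⟩
    · exact Or.inr ⟨hm.2.2.2, c, hm.2.2.1, hP.2.2.1⟩
  constructor
  · intro k hk
    rcases key k (hKA hk) with h' | h'
    · exact h'.2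
    · exact absurd h'.1 (Finset.disjoint_left.1 h.disj hk)
  · intro s hs
    rcases key s (hSA hs) with h' | h'
    · exact absurd hs (Finset.disjoint_left.1 h.disj h'.1)
    · exact h'.2

theorem Leg.e_ge [DecidableRel G.Adj] {A K S : Finset V} {r n : V} (h : Leg G A K S r n)
    (hA : PC G A) : K.card ≤ (eb G K S A).card ∧ S.card ≤ (eb G K S A).card := by
  obtain ⟨h1, h2⟩ := h.nbr hA
  have hKA : K ⊆ A := by rw [h.union]; exact Finset.subset_union_left
  have hSA : S ⊆ A := by rw [h.union]; exact Finset.subset_union_right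
  choose! f hf1 hf2 using h1
  choose! g hg1 hg2 using h2
  constructor
  · apply Finset.card_le_card_of_injOn (fun k => (k, f k))
    · intro k hk
      simp only [eb, Finset.coe_filter, Finset.mem_product, Set.mem_ofPred_eq]
      exact ⟨⟨hk, hf1 k hk⟩, hf2 k hk, hKA hk, hSA (hf1 k hk)⟩
    · intro a _ b _ hab
      exact (Prod.mk.inj hab).1
  · apply Finset.card_le_card_of_injOn (fun s => (g s, s))
    · intro s hs
      simp only [eb, Finset.coe_filter, Finset.mem_product, Set.mem_ofPred_eq]
      exact ⟨⟨hg1 s hs, hs⟩, hg2 s hs, hKA (hg1 s hs), hSA hs⟩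
    · intro a _ b _ hab
      exact (Prod.mk.inj hab).2

/-- The averaging step. -/
theorem sum_fp_erase (A : Finset V) :
    ∑ v ∈ A, (fp G (A.erase v)).card = (A.card - 4) * (fp G A).card := by
  classical
  have h1 : ∀ v ∈ A, (fp G (A.erase v)).card =
      ∑ D ∈ fp G A, if v ∈ D then 0 else 1 := by
    intro v _
    have : fp G (A.erase v) = (fp G A).filter (fun D => v ∉ D) := by
      ext D
      simp only [mem_fp, Finset.mem_filter, Finset.subset_erase]
      tauto
    rw [this, Finset.card_filter]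
    apply Finset.sum_congr rfl
    intro D _
    by_cases h : v ∈ D <;> simp [h]
  rw [Finset.sum_congr rfl h1, Finset.sum_comm]
  have h2 : ∀ D ∈ fp G A, (∑ v ∈ A, if v ∈ D then 0 else 1) = A.card - 4 := by
    intro D hD
    rw [mem_fp] at hD
    have h3 : (∑ v ∈ A, if v ∈ D then 0 else 1) = (A \ D).card := by
      rw [← Finset.filter_notMem_eq_sdiff, Finset.card_filter]
      apply Finset.sum_congr rfl
      intro v _
      by_cases h : v ∈ D <;> simp [h]
    rw [h3, Finset.card_sdiff_of_subset hD.1, hD.2.1]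
  rw [Finset.sum_congr rfl h2, Finset.sum_const, smul_eq_mul, mul_comm]

theorem sum_eb_erase [DecidableRel G.Adj] {A K S : Finset V}
    (hd : Disjoint K S) :
    ∑ v ∈ A, (eb G K S (A.erase v)).card = (A.card - 2) * (eb G K S A).card := by
  classical
  have h1 : ∀ v ∈ A, (eb G K S (A.erase v)).card =
      ∑ p ∈ eb G K S A, if (v = p.1 ∨ v = p.2) then 0 else 1 := by
    intro v _
    have : eb G K S (A.erase v) = (eb G K S A).filter (fun p => ¬ (v = p.1 ∨ v = p.2)) := by
      ext p
      simp only [eb, Finset.mem_filter, Finset.mem_erase, Finset.mem_product]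
      constructor
      · rintro ⟨h1, h2, h3, h4⟩
        exact ⟨⟨h1, h2, h3.2, h4.2⟩, fun h => h.elim (fun h => h3.1 h.symm) (fun h => h4.1 h.symm)⟩
      · rintro ⟨⟨h1, h2, h3, h4⟩, h5⟩
        exact ⟨h1, h2, ⟨fun h => h5 (Or.inl h.symm), h3⟩, ⟨fun h => h5 (Or.inr h.symm), h4⟩⟩
    rw [this, Finset.card_filter]
    apply Finset.sum_congr rfl
    intro p _
    by_cases h : v = p.1 ∨ v = p.2 <;> simp [h]
  rw [Finset.sum_congr rfl h1, Finset.sum_comm]
  have h2 : ∀ p ∈ eb G K S A, (∑ v ∈ A, if (v = p.1 ∨ v = p.2) then 0 else 1) = A.card - 2 := by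
    intro p hp
    simp only [eb, Finset.mem_filter, Finset.mem_product] at hp
    have hne : p.1 ≠ p.2 := fun h => (Finset.disjoint_left.1 hd) hp.1.1 (h ▸ hp.1.2)
    have h3 : (∑ v ∈ A, if (v = p.1 ∨ v = p.2) then 0 else 1) = (A \ {p.1, p.2}).card := by
      rw [← Finset.filter_notMem_eq_sdiff, Finset.card_filter]
      apply Finset.sum_congr rfl
      intro v _
      by_cases h : v = p.1 ∨ v = p.2 <;> simp [h]
    rw [h3, Finset.card_sdiff_of_subset, Finset.card_pair hne]
    intro x hx
    simp only [Finset.mem_insert, Finset.mem_singleton] at hx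
    rcases hx with rfl | rfl
    · exact hp.2.2.1
    · exact hp.2.2.2
  rw [Finset.sum_congr rfl h2, Finset.sum_const, smul_eq_mul, mul_comm]

end counting


section final

variable [DecidableEq V]

theorem Leg.uniqS [DecidableRel G.Adj] {A K S : Finset V} {r n : V} (h : Leg G A K S r n)
    (hA : PC G A) (he : (eb G K S A).card = S.card) :
    ∀ s ∈ S, ∀ k ∈ K, ∀ k' ∈ K, G.Adj k s → G.Adj k' s → k = k' := by
  have hKA : K ⊆ A := by rw [h.union]; exact Finset.subset_union_left
  have hSA : S ⊆ A := by rw [h.union]; exact Finset.subset_union_right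
  have himg : (eb G K S A).image Prod.snd = S := by
    ext s
    simp only [eb, Finset.mem_image, Finset.mem_filter, Finset.mem_product]
    constructor
    · rintro ⟨p, hp, rfl⟩
      exact hp.1.2
    · intro hs
      obtain ⟨k, hk, hks⟩ := (h.nbr hA).2 s hs
      exact ⟨(k, s), ⟨⟨hk, hs⟩, hks, hKA hk, hSA hs⟩, rfl⟩
  have hinj : Set.InjOn Prod.snd (eb G K S A : Set (V × V)) := by
    rw [← Finset.card_image_iff, himg, he]
  intro s hs k hk k' hk' h1 h2
  have := hinj (x₁ := (k, s)) (x₂ := (k', s))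
    (by simp only [eb, Finset.coe_filter, Finset.mem_product, Set.mem_ofPred_eq]
        exact ⟨⟨hk, hs⟩, h1, hKA hk, hSA hs⟩)
    (by simp only [eb, Finset.coe_filter, Finset.mem_product, Set.mem_ofPred_eq]
        exact ⟨⟨hk', hs⟩, h2, hKA hk', hSA hs⟩) rfl
  exact (Prod.mk.inj this).1

theorem Leg.uniqK [DecidableRel G.Adj] {A K S : Finset V} {r n : V} (h : Leg G A K S r n)
    (hA : PC G A) (he : (eb G K S A).card = K.card) :
    ∀ k ∈ K, ∀ s ∈ S, ∀ s' ∈ S, G.Adj k s → G.Adj k s' → s = s' := by
  have hKA : K ⊆ A := by rw [h.union]; exact Finset.subset_union_left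
  have hSA : S ⊆ A := by rw [h.union]; exact Finset.subset_union_right
  have himg : (eb G K S A).image Prod.fst = K := by
    ext k
    simp only [eb, Finset.mem_image, Finset.mem_filter, Finset.mem_product]
    constructor
    · rintro ⟨p, hp, rfl⟩
      exact hp.1.1
    · intro hk
      obtain ⟨s, hs, hks⟩ := (h.nbr hA).1 k hk
      exact ⟨(k, s), ⟨⟨hk, hs⟩, hks, hKA hk, hSA hs⟩, rfl⟩
  have hinj : Set.InjOn Prod.fst (eb G K S A : Set (V × V)) := by
    rw [← Finset.card_image_iff, himg, he]
  intro k hk s hs s' hs' h1 h2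
  have := hinj (x₁ := (k, s)) (x₂ := (k, s'))
    (by simp only [eb, Finset.coe_filter, Finset.mem_product, Set.mem_ofPred_eq]
        exact ⟨⟨hk, hs⟩, h1, hKA hk, hSA hs⟩)
    (by simp only [eb, Finset.coe_filter, Finset.mem_product, Set.mem_ofPred_eq]
        exact ⟨⟨hk, hs'⟩, h2, hKA hk, hSA hs'⟩) rfl
  exact (Prod.mk.inj this).2

omit [DecidableEq V] in
theorem pair_not_module (hp : IsPrime G) {a b c : V} (hab : a ≠ b) (hca : c ≠ a) (hcb : c ≠ b)
    (h : ∀ u, u ≠ a → u ≠ b → (G.Adj u a ↔ G.Adj u b)) : False := by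
  have hM : IsModule G ({a, b} : Set V) := by
    intro x hx u hu v hv
    simp only [Set.mem_insert_iff, Set.mem_singleton_iff, not_or] at hx hu hv
    have := h x hx.1 hx.2
    rcases hu with rfl | rfl <;> rcases hv with rfl | rfl
    · exact Iff.rfl
    · exact this
    · exact this.symm
    · exact Iff.rfl
  rcases hp _ hM with h' | h'
  · exact hab (h' (by simp) (by simp))
  · have : c ∈ ({a, b} : Set V) := by rw [h']; trivial
    simp only [Set.mem_insert_iff, Set.mem_singleton_iff] at this
    rcases this with h | h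
    · exact hca h
    · exact hcb h

theorem Leg.e_ge5 [DecidableRel G.Adj] (hp : IsPrime G) {A K S : Finset V} {r n : V}
    (h : Leg G A K S r n) (hA : PC G A) (h7 : 7 ≤ A.card) (hbad : A.card ≤ (fp G A).card + 1) :
    5 ≤ (eb G K S A).card := by
  by_contra hlt
  push Not at hlt
  have hKA : K ⊆ A := by rw [h.union]; exact Finset.subset_union_left
  have hSA : S ⊆ A := by rw [h.union]; exact Finset.subset_union_right
  obtain ⟨hK, hS⟩ := h.e_ge hA
  have hsum : K.card + S.card = A.card := by
    rw [h.union, Finset.card_union_of_disjoint h.disj]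
  obtain ⟨hn1, hn2⟩ := h.nbr hA
  choose! f hf1 hf2 using hn1
  choose! g hg1 hg2 using hn2
  have hKinj : (eb G K S A).card = K.card → K.card ≤ S.card := by
    intro he
    have huq := h.uniqK hA he
    apply Finset.card_le_card_of_injOn f (fun k hk => hf1 k hk)
    intro k hk k' hk' hff
    by_contra hne
    refine pair_not_module hp hne (c := r) (fun h' => h.hr (h' ▸ hKA hk))
      (fun h' => h.hr (h' ▸ hKA hk')) ?_
    intro u hu1 hu2
    by_cases huA : u ∈ A
    · rw [h.union, Finset.mem_union] at huA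
      rcases huA with huK | huS
      · exact ⟨fun _ => h.clique u huK k' hk' hu2, fun _ => h.clique u huK k hk hu1⟩
      · constructor
        · intro h1
          have : u = f k := huq k hk u huS (f k) (hf1 k hk) h1.symm (hf2 k hk)
          rw [this, hff]
          exact (hf2 k' hk').symm
        · intro h1
          have : u = f k' := huq k' hk' u huS (f k') (hf1 k' hk') h1.symm (hf2 k' hk')
          rw [this, ← hff]
          exact (hf2 k hk).symm
    · exact h.uK u huA k hk k' hk'
  have hSinj : (eb G K S A).card = S.card → S.card ≤ K.card := by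
    intro he
    have huq := h.uniqS hA he
    apply Finset.card_le_card_of_injOn g (fun s hs => hg1 s hs)
    intro k hk k' hk' hff
    by_contra hne
    refine pair_not_module hp hne (c := r) (fun h' => h.hr (h' ▸ hSA hk))
      (fun h' => h.hr (h' ▸ hSA hk')) ?_
    intro u hu1 hu2
    by_cases huA : u ∈ A
    · rw [h.union, Finset.mem_union] at huA
      rcases huA with huK | huS
      · constructor
        · intro h1
          have : u = g k := huq k hk u huK (g k) (hg1 k hk) h1 (hg2 k hk)
          rw [this, hff]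
          exact hg2 k' hk'
        · intro h1
          have : u = g k' := huq k' hk' u huK (g k') (hg1 k' hk') h1 (hg2 k' hk')
          rw [this, ← hff]
          exact hg2 k hk
      · exact ⟨fun h' => absurd h' (h.stable u huS k hk),
          fun h' => absurd h' (h.stable u huS k' hk')⟩
    · exact h.uS u huA k hk k' hk'
  have h4 : K.card = 4 ∧ S.card = 4 := by
    rcases Nat.lt_or_ge S.card 4 with hS3 | hS4
    · exfalso
      have hK4 : K.card = 4 := by omega
      have := hKinj (by omega)
      omega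
    · have hS4' : S.card = 4 := by omega
      have := hSinj (by omega)
      omega
  -- now the four-spider
  have huq := h.uniqK hA (by omega)
  have hfp : (fp G A).card ≤ (K.powersetCard 2).card := by
    apply Finset.card_le_card_of_injOn (fun D => D ∩ K)
    · intro D hD
      rw [Finset.mem_coe, mem_fp, isP4_iff] at hD
      obtain ⟨hDA, a, b, c, d, hP, rfl⟩ := hD
      have hm := split_mids h.union h.clique h.stable hP (hDA (by simp)) (hDA (by simp))
        (hDA (by simp)) (hDA (by simp))
      have haK : a ∉ K := fun h' => Finset.disjoint_left.1 h.disj h' hm.1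
      have hdK : d ∉ K := fun h' => Finset.disjoint_left.1 h.disj h' hm.2.2.2
      rw [Finset.mem_coe, Finset.mem_powersetCard]
      refine ⟨Finset.inter_subset_right, ?_⟩
      have : ({a, b, c, d} : Finset V) ∩ K = {b, c} := by
        ext x
        simp only [Finset.mem_inter, Finset.mem_insert, Finset.mem_singleton]
        constructor
        · rintro ⟨rfl | rfl | rfl | rfl, hx⟩
          · exact absurd hx haK
          · exact Or.inl rfl
          · exact Or.inr rfl
          · exact absurd hx hdK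
        · rintro (rfl | rfl)
          · exact ⟨by simp, hm.2.1⟩
          · exact ⟨by simp, hm.2.2.1⟩
      change (({a, b, c, d} : Finset V) ∩ K).card = 2
      rw [this, Finset.card_pair hP.ne.2.2.2.1]
    · have key : ∀ D ∈ fp G A, D = (D ∩ K) ∪ S.filter (fun s => ∃ k ∈ D ∩ K, G.Adj k s) := by
        intro D hD
        rw [mem_fp, isP4_iff] at hD
        obtain ⟨hDA, a, b, c, d, hP, rfl⟩ := hD
        have hm := split_mids h.union h.clique h.stable hP (hDA (by simp)) (hDA (by simp))
          (hDA (by simp)) (hDA (by simp))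
        have haK : a ∉ K := fun h' => Finset.disjoint_left.1 h.disj h' hm.1
        have hdK : d ∉ K := fun h' => Finset.disjoint_left.1 h.disj h' hm.2.2.2
        ext x
        simp only [Finset.mem_union, Finset.mem_inter, Finset.mem_insert, Finset.mem_singleton,
          Finset.mem_filter]
        constructor
        · rintro (rfl | rfl | rfl | rfl)
          · exact Or.inr ⟨hm.1, b, ⟨by simp, hm.2.1⟩, hP.1.symm⟩
          · exact Or.inl ⟨by simp, hm.2.1⟩
          · exact Or.inl ⟨by simp, hm.2.2.1⟩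
          · exact Or.inr ⟨hm.2.2.2, c, ⟨by simp, hm.2.2.1⟩, hP.2.2.1⟩
        · rintro (⟨hx, _⟩ | ⟨hxS, k, ⟨hk, hkK⟩, hkx⟩)
          · exact hx
          · rcases hk with rfl | rfl | rfl | rfl
            · exact absurd hkK haK
            · exact Or.inl (huq k hm.2.1 x hxS a hm.1 hkx hP.1.symm)
            · exact Or.inr (Or.inr (Or.inr (huq k hm.2.2.1 x hxS d hm.2.2.2 hkx hP.2.2.1)))
            · exact absurd hkK hdK
      intro D hD D' hD' heq
      simp only at heq
      rw [key D hD, key D' hD', heq]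
  rw [Finset.card_powersetCard, h4.1] at hfp
  have : Nat.choose 4 2 = 6 := by decide
  omega

/-- The local bound: in a prime `(q,q-2)`-graph with more than `q` vertices, every `p`-connected
set with at most `q` vertices has at most `|A| - 2` induced `P₄`s. -/
theorem local_bound [Finite V] {q : ℕ} (hq : 8 ≤ q) (hp : IsPrime G)
    (hQ : ∀ S : Finset V, S.card ≤ q → (fp G S).card ≤ q - 2) (hV : q + 1 ≤ Nat.card V) :
    ∀ A : Finset V, PC G A → A.card ≤ q → (fp G A).card + 2 ≤ A.card := by
  classical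
  have key : ∀ m : ℕ, ∀ A : Finset V, PC G A → A.card ≤ q → q - A.card = m →
      A.card ≤ (fp G A).card + 1 → False := by
    intro m
    induction m using Nat.strong_induction_on with
    | _ m ih =>
      intro A hA hAq hm hbad
      have hfour := hA.four_le
      by_cases hlt : A.card = q
      · have := hQ A hAq
        omega
      have hlt' : A.card < q := by omega
      by_cases hnf : ∀ z, z ∉ A → NF G A z
      · -- stuck
        have htwo : ∃ z w, z ∉ A ∧ w ∉ A ∧ z ≠ w := by
          have := Fintype.ofFinite V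
          have h1 : 1 < (Finset.univ \ A : Finset V).card := by
            rw [Finset.card_sdiff_of_subset (Finset.subset_univ _), Finset.card_univ,
              ← Nat.card_eq_fintype_card]
            omega
          obtain ⟨z, hz, w, hw, hne⟩ := Finset.one_lt_card.1 h1
          exact ⟨z, w, by simpa using hz, by simpa using hw, hne⟩
        -- a statement symmetric under complementation
        have hleg : ∀ H : SimpleGraph V, IsPrime H → PC H A → (∀ B, fp H B = fp G B) →
            (∀ B, PC H B → PC G B) → (∃ K S r n, Leg H A K S r n) → False := by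
          intro H hpH hAH hfpH hPC ⟨K, S, r, n, hL⟩
          have hKA : K ⊆ A := by rw [hL.union]; exact Finset.subset_union_left
          have hSA : S ⊆ A := by rw [hL.union]; exact Finset.subset_union_right
          have hrn : r ≠ n := hL.rn.ne
          have hsum : K.card + S.card = A.card := by
            rw [hL.union, Finset.card_union_of_disjoint hL.disj]
          obtain ⟨heK, heS⟩ := hL.e_ge hAH
          by_cases h2 : A.card + 2 ≤ q
          · -- add both vertices
            have hcard : (insert r (insert n A)).card = A.card + 2 := by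
              rw [Finset.card_insert_of_notMem, Finset.card_insert_of_notMem hL.hn]
              rw [Finset.mem_insert, not_or]
              exact ⟨hrn, hL.hr⟩
            have hPC' : PC H (insert r (insert n A)) := by
              have hne : (eb H K S A).Nonempty := by
                rw [← Finset.card_pos]; omega
              obtain ⟨⟨k, s⟩, hp⟩ := hne
              simp only [eb, Finset.mem_filter, Finset.mem_product] at hp
              have h3 := PC.step hAH (hL.isP4 hp.1.1 hp.1.2 hp.2.1)
                ⟨k, by simp [hp.2.2.1]⟩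
              have h4 : A ∪ {s, k, r, n} = insert r (insert n A) := by
                ext x
                simp only [Finset.mem_union, Finset.mem_insert, Finset.mem_singleton]
                constructor
                · rintro (h | rfl | rfl | rfl | rfl)
                  · exact Or.inr (Or.inr h)
                  · exact Or.inr (Or.inr hp.2.2.2)
                  · exact Or.inr (Or.inr hp.2.2.1)
                  · exact Or.inl rfl
                  · exact Or.inr (Or.inl rfl)
                · rintro (rfl | rfl | h)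
                  · exact Or.inr (Or.inr (Or.inr (Or.inl rfl)))
                  · exact Or.inr (Or.inr (Or.inr (Or.inr rfl)))
                  · exact Or.inl h
              rw [h4] at h3
              exact h3
            have hcount := hL.count (Finset.Subset.refl A)
            rw [hfpH, hfpH] at hcount
            refine ih (q - (A.card + 2)) (by omega) _ (hPC _ hPC') (by omega) (by omega) ?_
            rw [hcard]
            omega
          · -- overshoot
            have hAc : A.card = q - 1 := by omega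
            have h5 := hL.e_ge5 hpH hAH (by omega) (by rw [hfpH]; exact hbad)
            have hall : ∀ v ∈ A, (fp H (A.erase v)).card + (eb H K S (A.erase v)).card ≤
                A.card - 1 := by
              intro v hv
              refine le_trans (hL.count (Finset.erase_subset v A)) ?_
              rw [hfpH]
              refine le_trans (hQ _ ?_) (by omega)
              rw [Finset.card_insert_of_notMem, Finset.card_insert_of_notMem,
                Finset.card_erase_of_mem hv]
              · omega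
              · exact fun h => hL.hn (Finset.mem_of_mem_erase h)
              · rw [Finset.mem_insert, not_or]
                exact ⟨hrn, fun h => hL.hr (Finset.mem_of_mem_erase h)⟩
            have hs := Finset.sum_le_sum hall
            rw [Finset.sum_add_distrib, sum_fp_erase, sum_eb_erase hL.disj,
              Finset.sum_const, smul_eq_mul, hfpH] at hs
            obtain ⟨t, ht⟩ : ∃ t, A.card = t + 7 := ⟨A.card - 7, by omega⟩
            rw [ht] at hs hbad
            have e1 : t + 7 - 4 = t + 3 := by omega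
            have e2 : t + 7 - 2 = t + 5 := by omega
            have e3 : t + 7 - 1 = t + 6 := by omega
            rw [e1, e2, e3] at hs
            have h6 : t + 6 ≤ (fp G A).card := by omega
            have h7 := Nat.mul_le_mul_left (t + 3) h6
            have h8 := Nat.mul_le_mul_left (t + 5) h5
            nlinarith
        rcases growth hp hA hnf htwo with h | h
        · exact hleg G hp hA (fun _ => rfl) (fun _ h => h) h
        · exact hleg Gᶜ hp.compl hA.compl (fun B => fp_compl B)
            (fun B hB => by have := hB.compl; rwa [compl_compl] at this) h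
      · -- a frontier vertex
        push Not at hnf
        obtain ⟨x, hx, hnfx⟩ := hnf
        have hD : ∃ D, IsP4 G D ∧ x ∈ D ∧ D ⊆ insert x A ∧ (A ∩ D).Nonempty := by
          unfold NF at hnfx
          push Not at hnfx
          obtain ⟨a, ha, b, hb, c, hc, h⟩ := hnfx
          by_cases h1 : P4 G x a b c
          · refine ⟨_, h1.isP4, by simp, ?_, ⟨a, by simp [ha]⟩⟩
            intro y hy
            simp only [Finset.mem_insert, Finset.mem_singleton] at hy ⊢
            rcases hy with rfl | rfl | rfl | rfl <;> simp [ha, hb, hc]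
          · have h2 := h h1
            refine ⟨_, h2.isP4, by simp, ?_, ⟨a, by simp [ha]⟩⟩
            intro y hy
            simp only [Finset.mem_insert, Finset.mem_singleton] at hy ⊢
            rcases hy with rfl | rfl | rfl | rfl <;> simp [ha, hb, hc]
        obtain ⟨D, hD1, hxD, hDs, hne⟩ := hD
        have hU : A ∪ D = insert x A := by
          apply Finset.Subset.antisymm
          · exact Finset.union_subset (Finset.subset_insert _ _) hDs
          · intro y hy
            rw [Finset.mem_insert] at hy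
            rcases hy with rfl | hy
            · exact Finset.mem_union_right _ hxD
            · exact Finset.mem_union_left _ hy
        have hPC := PC.step hA hD1 hne
        rw [hU] at hPC
        have hcard : (insert x A).card = A.card + 1 := Finset.card_insert_of_notMem hx
        have hfp : (fp G A).card + 1 ≤ (fp G (insert x A)).card := by
          have h1 : D ∉ fp G A := fun h => hx ((mem_fp.1 h).1 hxD)
          rw [← Finset.card_insert_of_notMem h1]
          apply Finset.card_le_card
          intro E hE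
          rw [Finset.mem_insert] at hE
          rcases hE with rfl | hE
          · exact mem_fp.2 ⟨hDs, hD1⟩
          · rw [mem_fp] at hE ⊢
            exact ⟨hE.1.trans (Finset.subset_insert _ _), hE.2⟩
        exact ih (q - (A.card + 1)) (by omega) _ hPC (by omega) (by omega) (by omega)
  intro A hA hAq
  by_contra h
  have hfour := hA.four_le
  exact key _ A hA hAq rfl (by omega)

/-- The local bound from the hypothesis of the frozen statement. -/
theorem QC.local_bound [Finite V] {q : ℕ} (hq : 8 ≤ q) (hp : IsPrime G)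
    (hQ : QC q V G) (hV : q + 1 ≤ Nat.card V) :
    ∀ A : Finset V, PC G A → A.card ≤ q → (fp G A).card + 2 ≤ A.card := by
  refine CW.local_bound hq hp (fun S hS => ?_) hV
  rw [← fp_ncard]
  exact hQ S hS

end final

end Pool.Agent.Helper27.CW
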