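import Mathlib

set_option autoImplicit false

open SimpleGraph

namespace Pool.Agent.Helper27.CW

/-- The labelled graphs that can be built with labels from `ι`. -/
inductive Built (ι : Type) [DecidableEq ι] : (W : Type) → SimpleGraph W → (W → ι) → Prop
  | empty : Built ι PEmpty ⊥ PEmpty.elim
  | single (i : ι) : Built ι Unit ⊥ (fun _ => i)
  | union (W₁ W₂ : Type) (G₁ : SimpleGraph W₁) (G₂ : SimpleGraph W₂)
      (l₁ : W₁ → ι) (l₂ : W₂ → ι) : Built ι W₁ G₁ l₁ → Built ι W₂ G₂ l₂ →
      Built ι (W₁ ⊕ W₂) (G₁.map Function.Embedding.inl ⊔ G₂.map Function.Embedding.inr)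
        (Sum.elim l₁ l₂)
  | iso (W W' : Type) (H : SimpleGraph W) (l' : W → ι) (e : W ≃ W') :
      Built ι W H l' → Built ι W' (H.map e.toEmbedding) (l' ∘ e.symm)
  | relabel (W : Type) (H : SimpleGraph W) (l' : W → ι) (i j : ι) :
      Built ι W H l' → Built ι W H (fun x => if l' x = i then j else l' x)
  | join (W : Type) (H : SimpleGraph W) (l' : W → ι) (i j : ι) : i ≠ j →
      Built ι W H l' → Built ι W (H ⊔ SimpleGraph.fromRel (fun x y => l' x = i ∧ l' y = j)) l'

/-- Clique-width at most `k`. -/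
def HasCW (k : ℕ) (V : Type) (G : SimpleGraph V) : Prop :=
  ∃ l : V → Fin k, Built (Fin k) V G l

/-- The frozen form of the conclusion. -/
theorem HasCW.frozen {k : ℕ} {V : Type} {G : SimpleGraph V} (h : HasCW k V G) :
    ∃ l : V → Fin k, ∀ P : ∀ W : Type, SimpleGraph W → (W → Fin k) → Prop,
        P PEmpty ⊥ PEmpty.elim →
        (∀ i : Fin k, P Unit ⊥ (fun _ => i)) →
        (∀ (W₁ W₂ : Type) (G₁ : SimpleGraph W₁) (G₂ : SimpleGraph W₂)
            (l₁ : W₁ → Fin k) (l₂ : W₂ → Fin k),
            P W₁ G₁ l₁ → P W₂ G₂ l₂ →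
            P (W₁ ⊕ W₂)
              (G₁.map Function.Embedding.inl ⊔ G₂.map Function.Embedding.inr)
              (Sum.elim l₁ l₂)) →
        (∀ (W W' : Type) (H : SimpleGraph W) (l' : W → Fin k) (e : W ≃ W'),
            P W H l' → P W' (H.map e.toEmbedding) (l' ∘ e.symm)) →
        (∀ (W : Type) (H : SimpleGraph W) (l' : W → Fin k) (i j : Fin k),
            P W H l' → P W H (fun x => if l' x = i then j else l' x)) →
        (∀ (W : Type) (H : SimpleGraph W) (l' : W → Fin k) (i j : Fin k), i ≠ j →
            P W H l' →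
            P W (H ⊔ SimpleGraph.fromRel (fun x y => l' x = i ∧ l' y = j)) l') →
        P V G l := by
  obtain ⟨l, hl⟩ := h
  refine ⟨l, fun P h1 h2 h3 h4 h5 h6 => ?_⟩
  induction hl with
  | empty => exact h1
  | single i => exact h2 i
  | union W₁ W₂ G₁ G₂ l₁ l₂ _ _ ih₁ ih₂ => exact h3 _ _ _ _ _ _ ih₁ ih₂
  | iso W W' H l' e _ ih => exact h4 _ _ _ _ _ ih
  | relabel W H l' i j _ ih => exact h5 _ _ _ _ _ ih
  | join W H l' i j hij _ ih => exact h6 _ _ _ _ _ hij ih

variable {ι κ : Type} [DecidableEq ι] [DecidableEq κ]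

/-- A convenient form of the isomorphism rule. -/
theorem Built.iso' {W W' : Type} {H : SimpleGraph W} {H' : SimpleGraph W'} {l : W → ι}
    {l' : W' → ι} (h : Built ι W H l) (e : W ≃ W')
    (hadj : ∀ a b, H'.Adj (e a) (e b) ↔ H.Adj a b) (hl : ∀ a, l' (e a) = l a) :
    Built ι W' H' l' := by
  have h1 : H' = H.map e.toEmbedding := by
    ext a b
    rw [SimpleGraph.map_adj]
    constructor
    · intro hab
      refine ⟨e.symm a, e.symm b, ?_, by simp, by simp⟩
      rw [← hadj]; simpa using hab
    · rintro ⟨u, v, huv, rfl, rfl⟩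
      exact (hadj u v).2 huv
  have h2 : l' = l ∘ e.symm := by
    funext a
    have := hl (e.symm a)
    simpa using this
  rw [h1, h2]
  exact Built.iso _ _ _ _ e h

/-- Change of graph and labels up to equality. -/
theorem Built.congr {W : Type} {H H' : SimpleGraph W} {l l' : W → ι} (h : Built ι W H l)
    (hadj : ∀ a b, H'.Adj a b ↔ H.Adj a b) (hl : ∀ a, l' a = l a) : Built ι W H' l' :=
  h.iso' (Equiv.refl W) hadj hl

/-- Transfer along an injection of labels. -/
theorem Built.mapLabels {W : Type} {H : SimpleGraph W} {l : W → ι} (h : Built ι W H l)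
    (f : ι → κ) (hf : Function.Injective f) : Built κ W H (f ∘ l) := by
  induction h with
  | empty => 
    exact Built.congr Built.empty (fun a => a.elim) (fun a => a.elim)
  | single i => exact Built.single (f i)
  | union W₁ W₂ G₁ G₂ l₁ l₂ _ _ ih₁ ih₂ =>
    refine Built.congr (Built.union _ _ _ _ _ _ ih₁ ih₂) (fun _ _ => Iff.rfl) ?_
    rintro (a | a) <;> rfl
  | iso W W' H l' e _ ih => exact Built.iso _ _ _ _ e ih
  | relabel W H l' i j _ ih =>
    refine Built.congr (Built.relabel _ _ _ (f i) (f j) ih) (fun _ _ => Iff.rfl) ?_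
    intro a
    by_cases h : l' a = i
    · simp [h]
    · have : f (l' a) ≠ f i := fun h' => h (hf h')
      simp [h, this]
  | join W H l' i j hij _ ih =>
    refine Built.congr (Built.join _ _ _ (f i) (f j) (fun h => hij (hf h)) ih) ?_
      (fun _ => rfl)
    intro a b
    simp [SimpleGraph.sup_adj, SimpleGraph.fromRel_adj, hf.eq_iff]

/-- Relabelling a finite set of labels to labels outside this set. -/
theorem Built.relabelSet {W : Type} {H : SimpleGraph W} {l : W → ι} (h : Built ι W H l)
    (S : Finset ι) (φ : ι → ι) (hφ : ∀ i ∈ S, φ i ∉ S) :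
    Built ι W H (fun x => if l x ∈ S then φ (l x) else l x) := by
  induction S using Finset.induction_on with
  | empty => simpa using h
  | insert i S hi ih =>
    have h1 : ∀ j ∈ S, φ j ∉ S := fun j hj hS => by
      exact hφ j (Finset.mem_insert_of_mem hj) (Finset.mem_insert_of_mem hS)
    refine Built.congr (Built.relabel _ _ _ i (φ i) (ih h1)) (fun _ _ => Iff.rfl) ?_
    intro a
    by_cases ha : l a ∈ S
    · have h2 : φ (l a) ≠ i := by
        intro h'
        exact hφ (l a) (Finset.mem_insert_of_mem ha) (by rw [h']; exact Finset.mem_insert_self _ _)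
      simp [ha, h2]
    · by_cases hai : l a = i
      · simp [hai, hi]
      · simp [ha, hai]

/-- Joining along a finite set of pairs of distinct labels. -/
theorem Built.joinSet {W : Type} {H : SimpleGraph W} {l : W → ι} (h : Built ι W H l)
    (S : Finset (ι × ι)) (hS : ∀ p ∈ S, p.1 ≠ p.2) :
    Built ι W (H ⊔ SimpleGraph.fromRel (fun x y => (l x, l y) ∈ S)) l := by
  induction S using Finset.induction_on with
  | empty =>
    refine h.congr ?_ (fun _ => rfl)
    intro a b
    simp [SimpleGraph.sup_adj, SimpleGraph.fromRel_adj]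
  | insert p S hp ih =>
    have h1 : ∀ p ∈ S, p.1 ≠ p.2 := fun p hp => hS p (Finset.mem_insert_of_mem hp)
    refine Built.congr (Built.join _ _ _ p.1 p.2 (hS p (Finset.mem_insert_self _ _)) (ih h1)) ?_
      (fun _ => rfl)
    intro a b
    simp only [SimpleGraph.sup_adj, SimpleGraph.fromRel_adj, Finset.mem_insert, Prod.ext_iff]
    tauto

/-- The labelled graph obtained from two labelled graphs by putting edges between them according
to a relation on the labels. -/
def glue {W₁ W₂ : Type} (G₁ : SimpleGraph W₁) (G₂ : SimpleGraph W₂) (R : W₁ → W₂ → Prop) :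
    SimpleGraph (W₁ ⊕ W₂) where
  Adj x y := match x, y with
    | Sum.inl a, Sum.inl b => G₁.Adj a b
    | Sum.inr a, Sum.inr b => G₂.Adj a b
    | Sum.inl a, Sum.inr b => R a b
    | Sum.inr a, Sum.inl b => R b a
  symm := by
    constructor
    rintro (a | a) (b | b) h
    · exact G₁.adj_symm h
    · exact h
    · exact h
    · exact G₂.adj_symm h
  loopless := by
    constructor
    rintro (a | a) h
    · exact G₁.loopless.irrefl a h
    · exact G₂.loopless.irrefl a h


/-- Labels in the first of three copies of the label set. -/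
def NLC (κ : Type) [DecidableEq κ] (W : Type) (G : SimpleGraph W) (l : W → κ) : Prop :=
  Built (Fin 3 × κ) W G (fun w => ((0 : Fin 3), l w))

theorem NLC.congr {W : Type} {H H' : SimpleGraph W} {l l' : W → κ} (h : NLC κ W H l)
    (hadj : ∀ a b, H'.Adj a b ↔ H.Adj a b) (hl : ∀ a, l' a = l a) : NLC κ W H' l' :=
  Built.congr h hadj (fun a => by simp [hl a])

theorem NLC.iso' {W W' : Type} {H : SimpleGraph W} {H' : SimpleGraph W'} {l : W → κ}
    {l' : W' → κ} (h : NLC κ W H l) (e : W ≃ W')
    (hadj : ∀ a b, H'.Adj (e a) (e b) ↔ H.Adj a b) (hl : ∀ a, l' (e a) = l a) :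
    NLC κ W' H' l' :=
  Built.iso' h e hadj (fun a => by simp [hl a])

theorem NLC.single (i : κ) : NLC κ Unit ⊥ (fun _ => i) := Built.single _

theorem NLC.empty {W : Type} [IsEmpty W] (H : SimpleGraph W) (l : W → κ) : NLC κ W H l :=
  Built.iso' Built.empty (Equiv.equivOfIsEmpty PEmpty W) (fun a => a.elim) (fun a => a.elim)

/-- The composition of two labelled graphs: edges between them according to a relation on the
labels, then arbitrary relabelling on both sides. -/
theorem NLC.glue [Fintype κ] {W₁ W₂ : Type} {G₁ : SimpleGraph W₁} {G₂ : SimpleGraph W₂}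
    {l₁ : W₁ → κ} {l₂ : W₂ → κ} (h₁ : NLC κ W₁ G₁ l₁) (h₂ : NLC κ W₂ G₂ l₂)
    (R : κ → κ → Prop) (φ₁ φ₂ : κ → κ) :
    NLC κ (W₁ ⊕ W₂) (CW.glue G₁ G₂ (fun a b => R (l₁ a) (l₂ b)))
      (Sum.elim (φ₁ ∘ l₁) (φ₂ ∘ l₂)) := by
  classical
  -- move the second graph to copy 1
  have h2 : Built (Fin 3 × κ) W₂ G₂ (fun w => ((1 : Fin 3), l₂ w)) := by
    refine Built.congr (Built.relabelSet h₂ (Finset.univ.filter (fun p => p.1 = 0))
      (fun p => (1, p.2)) ?_) (fun _ _ => Iff.rfl) ?_
    · intro p _
      simp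
    · intro a
      simp
  have h3 := Built.union _ _ _ _ _ _ h₁ h2
  have h4 := Built.joinSet h3 (Finset.univ.filter
    (fun p : (Fin 3 × κ) × (Fin 3 × κ) => p.1.1 = 0 ∧ p.2.1 = 1 ∧ R p.1.2 p.2.2)) (by
      intro p hp h
      simp only [Finset.mem_filter, Finset.mem_univ, true_and] at hp
      rw [h] at hp
      have := hp.1.symm.trans hp.2.1
      exact absurd this (by decide))
  have h5 := Built.relabelSet h4 (Finset.univ.filter (fun p => p.1 ≠ 2))
    (fun p => (2, if p.1 = 0 then φ₁ p.2 else φ₂ p.2)) (by intro p _; simp)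
  have h6 := Built.relabelSet h5 (Finset.univ.filter (fun p => p.1 = 2))
    (fun p => (0, p.2)) (by intro p _; simp)
  refine Built.congr h6 ?_ ?_
  · rintro (a | a) (b | b)
    · simp [CW.glue, SimpleGraph.sup_adj, SimpleGraph.fromRel_adj, SimpleGraph.map_adj]
    · simp [CW.glue, SimpleGraph.sup_adj, SimpleGraph.fromRel_adj, SimpleGraph.map_adj]
    · simp [CW.glue, SimpleGraph.sup_adj, SimpleGraph.fromRel_adj, SimpleGraph.map_adj]
    · simp [CW.glue, SimpleGraph.sup_adj, SimpleGraph.fromRel_adj, SimpleGraph.map_adj]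
  · rintro (a | a) <;> simp

theorem NLC.hasCW [Fintype κ] {W : Type} {G : SimpleGraph W} {l : W → κ} (h : NLC κ W G l) :
    HasCW (3 * Fintype.card κ) W G := by
  have e : Fin 3 × κ ≃ Fin (3 * Fintype.card κ) :=
    (Equiv.prodCongr (Equiv.refl _) (Fintype.equivFin κ)).trans finProdFinEquiv
  exact ⟨_, Built.mapLabels h e e.injective⟩

section Decomposition

variable {V : Type} (G : SimpleGraph V)

/-- `A` has at most `|κ|` classes of vertices with respect to the adjacency to the outside. -/
def RowBound (κ : Type) (A : Set V) : Prop :=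
  ∃ μ : V → κ, ∀ u ∈ A, ∀ v ∈ A, μ u = μ v → ∀ x ∉ A, (G.Adj u x ↔ G.Adj v x)

/-- `G[A]` can be built such that vertices with the same label have the same neighbours
outside `A`. -/
def Good (κ : Type) [DecidableEq κ] (A : Set V) : Prop :=
  ∃ l : V → κ, NLC κ A (G.induce A) (fun a => l a) ∧
    ∀ u ∈ A, ∀ v ∈ A, l u = l v → ∀ x ∉ A, (G.Adj u x ↔ G.Adj v x)

variable {G}

/-- A row bound gives a labelling which is exactly the row classification. -/
theorem RowBound.exact {κ : Type} {A : Set V} (h : RowBound G κ A) :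
    ∃ μ : V → κ, ∀ u ∈ A, ∀ v ∈ A, (μ u = μ v ↔ ∀ x ∉ A, (G.Adj u x ↔ G.Adj v x)) := by
  classical
  obtain ⟨μ, hμ⟩ := h
  by_cases hA : A.Nonempty
  · obtain ⟨a₀, ha₀⟩ := hA
    -- representative of the row class
    let rep : Set V → V := fun r =>
      if h : ∃ v ∈ A, {x | x ∉ A ∧ G.Adj v x} = r then h.choose else a₀
    have hrep : ∀ u ∈ A, rep {x | x ∉ A ∧ G.Adj u x} ∈ A ∧
        {x | x ∉ A ∧ G.Adj (rep {x | x ∉ A ∧ G.Adj u x}) x} = {x | x ∉ A ∧ G.Adj u x} := by
      intro u hu
      have hex : ∃ v ∈ A, {x | x ∉ A ∧ G.Adj v x} = {x | x ∉ A ∧ G.Adj u x} := ⟨u, hu, rfl⟩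
      have h1 : rep {x | x ∉ A ∧ G.Adj u x} = hex.choose := by
        simp only [rep]
        rw [dif_pos hex]
      rw [h1]
      exact hex.choose_spec
    refine ⟨fun u => μ (rep {x | x ∉ A ∧ G.Adj u x}), fun u hu v hv => ⟨fun h x hx => ?_, ?_⟩⟩
    · have h1 := hμ _ (hrep u hu).1 _ (hrep v hv).1 h x hx
      have h2 : x ∈ {x | x ∉ A ∧ G.Adj (rep {x | x ∉ A ∧ G.Adj u x}) x} ↔
          x ∈ {x | x ∉ A ∧ G.Adj u x} := by rw [(hrep u hu).2]
      have h3 : x ∈ {x | x ∉ A ∧ G.Adj (rep {x | x ∉ A ∧ G.Adj v x}) x} ↔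
          x ∈ {x | x ∉ A ∧ G.Adj v x} := by rw [(hrep v hv).2]
      simp only [Set.mem_ofPred_eq, hx, not_false_eq_true, true_and] at h2 h3
      rw [← h2, ← h3]
      exact h1
    · intro h
      have : {x | x ∉ A ∧ G.Adj u x} = {x | x ∉ A ∧ G.Adj v x} := by
        ext x
        simp only [Set.mem_ofPred_eq]
        constructor
        · rintro ⟨hx, h'⟩; exact ⟨hx, (h x hx).1 h'⟩
        · rintro ⟨hx, h'⟩; exact ⟨hx, (h x hx).2 h'⟩
      simp only [this]
  · refine ⟨μ, fun u hu => absurd ⟨u, hu⟩ hA⟩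

theorem Good.empty [Nonempty κ] : Good G κ (∅ : Set V) := by
  have : IsEmpty ↥(∅ : Set V) := Set.isEmpty_coe_sort.2 rfl
  refine ⟨fun _ => Classical.arbitrary κ, NLC.empty _ _, fun u hu => absurd hu (by simp)⟩

theorem Good.singleton [Nonempty κ] (v : V) : Good G κ ({v} : Set V) := by
  refine ⟨fun _ => Classical.arbitrary κ, ?_, ?_⟩
  · refine NLC.iso' (NLC.single (Classical.arbitrary κ))
      (Equiv.ofUnique Unit ({v} : Set V)) ?_ (fun _ => rfl)
    intro a b
    have h : (Equiv.ofUnique Unit ({v} : Set V)) a = (Equiv.ofUnique Unit ({v} : Set V)) b :=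
      Subsingleton.elim _ _
    rw [h]
    simp
  · intro u hu w hw _ x _
    rw [Set.mem_singleton_iff] at hu hw
    rw [hu, hw]

theorem Good.union [Fintype κ] {A B : Set V} (hA : Good G κ A) (hB : Good G κ B)
    (hAB : Disjoint A B) (hr : RowBound G κ (A ∪ B)) : Good G κ (A ∪ B) := by
  classical
  obtain ⟨lA, hA1, hA2⟩ := hA
  obtain ⟨lB, hB1, hB2⟩ := hB
  obtain ⟨μ, hμ⟩ := hr.exact
  have hdis : ∀ x, x ∈ A → x ∉ B := fun x hx hx' => Set.disjoint_left.1 hAB hx hx'
  -- the relation and the relabellings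
  let R : κ → κ → Prop := fun i j => ∃ a ∈ A, ∃ b ∈ B, lA a = i ∧ lB b = j ∧ G.Adj a b
  let φA : κ → κ := fun i => if h : ∃ a ∈ A, lA a = i then μ h.choose else i
  let φB : κ → κ := fun i => if h : ∃ a ∈ B, lB a = i then μ h.choose else i
  have hφA : ∀ a ∈ A, φA (lA a) = μ a := by
    intro a ha
    have hex : ∃ a' ∈ A, lA a' = lA a := ⟨a, ha, rfl⟩
    have h1 : φA (lA a) = μ hex.choose := by simp only [φA]; rw [dif_pos hex]
    rw [h1, hμ _ (Or.inl hex.choose_spec.1) _ (Or.inl ha)]
    intro x hx
    exact hA2 _ hex.choose_spec.1 _ ha hex.choose_spec.2 x (fun h => hx (Or.inl h))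
  have hφB : ∀ a ∈ B, φB (lB a) = μ a := by
    intro a ha
    have hex : ∃ a' ∈ B, lB a' = lB a := ⟨a, ha, rfl⟩
    have h1 : φB (lB a) = μ hex.choose := by simp only [φB]; rw [dif_pos hex]
    rw [h1, hμ _ (Or.inr hex.choose_spec.1) _ (Or.inr ha)]
    intro x hx
    exact hB2 _ hex.choose_spec.1 _ ha hex.choose_spec.2 x (fun h => hx (Or.inr h))
  have hR : ∀ a ∈ A, ∀ b ∈ B, (R (lA a) (lB b) ↔ G.Adj a b) := by
    intro a ha b hb
    constructor
    · rintro ⟨a', ha', b', hb', h1, h2, h3⟩
      have h4 : G.Adj a b' := (hA2 a' ha' a ha h1 b' (fun h => hdis _ h hb')).1 h3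
      exact ((hB2 b' hb' b hb h2 a (hdis a ha)).1 h4.symm).symm
    · intro h
      exact ⟨a, ha, b, hb, rfl, rfl, h⟩
  refine ⟨μ, ?_, fun u hu v hv h => (hμ u hu v hv).1 h⟩
  have key := NLC.glue hA1 hB1 R φA φB
  let e : A ⊕ B ≃ ↥(A ∪ B) := (Equiv.Set.union hAB).symm
  have he1 : ∀ a : A, ((e (Sum.inl a) : ↥(A ∪ B)) : V) = a := fun a => by
    simp [e]
  have he2 : ∀ b : B, ((e (Sum.inr b) : ↥(A ∪ B)) : V) = b := fun b => by
    simp [e]
  refine NLC.iso' key e ?_ ?_
  · rintro (a | a) (b | b)
    · simp only [SimpleGraph.comap_adj, Function.Embedding.subtype_apply, he1]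
      rfl
    · simp only [SimpleGraph.comap_adj, Function.Embedding.subtype_apply, he1, he2]
      exact (hR a a.2 b b.2).symm
    · simp only [SimpleGraph.comap_adj, Function.Embedding.subtype_apply, he1, he2]
      rw [G.adj_comm]
      exact (hR b b.2 a a.2).symm
    · simp only [SimpleGraph.comap_adj, Function.Embedding.subtype_apply, he2]
      rfl
  · rintro (a | a)
    · rw [he1]
      exact (hφA a a.2).symm
    · rw [he2]
      exact (hφB a a.2).symm

theorem Good.hasCW [Fintype κ] (h : Good G κ Set.univ) : HasCW (3 * Fintype.card κ) V G := by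
  obtain ⟨l, h1, _⟩ := h
  refine NLC.hasCW (κ := κ) (l := l) (NLC.iso' h1 (Equiv.Set.univ V) ?_ ?_)
  · intro a b; rfl
  · intro a; rfl

theorem RowBound.compl {κ : Type} {A : Set V} (h : RowBound G κ A) : RowBound Gᶜ κ A := by
  obtain ⟨μ, hμ⟩ := h
  refine ⟨μ, fun u hu v hv huv x hx => ?_⟩
  have h1 : u ≠ x := fun h => hx (h ▸ hu)
  have h2 : v ≠ x := fun h => hx (h ▸ hv)
  simp only [SimpleGraph.compl_adj, ne_eq, h1, h2, not_false_eq_true, true_and]
  exact not_congr (hμ u hu v hv huv x hx)

theorem RowBound.map {κ κ' : Type} {A : Set V} (h : RowBound G κ A) (f : κ → κ')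
    (hf : Function.Injective f) : RowBound G κ' A := by
  obtain ⟨μ, hμ⟩ := h
  exact ⟨f ∘ μ, fun u hu v hv huv x hx => hμ u hu v hv (hf huv) x hx⟩

/-- Few distinct rows give a row bound. -/
theorem RowBound.of_ncard {A : Set V} {c : ℕ} [Finite V] (hc : 0 < c)
    (h : (Set.image (fun v => {x | x ∉ A ∧ G.Adj v x}) A).ncard ≤ c) : RowBound G (Fin c) A := by
  classical
  have hfin : (Set.image (fun v => {x | x ∉ A ∧ G.Adj v x}) A).Finite := Set.toFinite _
  set T := Set.image (fun v => {x | x ∉ A ∧ G.Adj v x}) A with hT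
  have : Fintype T := hfin.fintype
  have hcard : Fintype.card T ≤ c := by
    rw [← Nat.card_eq_fintype_card]
    exact h
  obtain ⟨g⟩ : Nonempty (T ↪ Fin c) := by
    rw [Function.Embedding.nonempty_iff_card_le]
    simpa using hcard
  refine ⟨fun v => if hv : v ∈ A then g ⟨_, ⟨v, hv, rfl⟩⟩ else ⟨0, hc⟩, ?_⟩
  intro u hu v hv huv x hx
  simp only [dif_pos hu, dif_pos hv] at huv
  have h1 := g.injective huv
  have h2 : {x | x ∉ A ∧ G.Adj u x} = {x | x ∉ A ∧ G.Adj v x} := congrArg Subtype.val h1
  have h3 : x ∈ {x | x ∉ A ∧ G.Adj u x} ↔ x ∈ {x | x ∉ A ∧ G.Adj v x} := by rw [h2]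
  simpa [hx] using h3

/-- A linear layout (not necessarily injective, but with small fibres) with few row classes for
each initial segment gives bounded clique-width. -/
theorem hasCW_of_layout [Finite V] (G : SimpleGraph V) (c w : ℕ) (f : V → ℕ)
    (hc : 0 < c + w)
    (hw : ∀ t, {v | f v = t}.ncard ≤ w) (h : ∀ t, RowBound G (Fin c) {v | f v < t}) :
    HasCW (3 * (c + w)) V G := by
  classical
  have : Nonempty (Fin c ⊕ Fin w) := by
    rcases Nat.eq_zero_or_pos c with h0 | h0
    · exact ⟨Sum.inr ⟨0, by omega⟩⟩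
    · exact ⟨Sum.inl ⟨0, h0⟩⟩
  -- initial segments are good
  have key : ∀ t, Good G (Fin c ⊕ Fin w) {v | f v < t} := by
    intro t
    induction t with
    | zero =>
      have : {v : V | f v < 0} = ∅ := by ext v; simp
      rw [this]
      exact Good.empty
    | succ t ih =>
      have hfin : {v : V | f v = t}.Finite := Set.toFinite _
      obtain ⟨μ, hμ⟩ := h t
      have : Fintype {v : V | f v = t} := hfin.fintype
      have hcard : Fintype.card {v : V | f v = t} ≤ w := by
        rw [← Nat.card_eq_fintype_card]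
        exact hw t
      obtain ⟨g⟩ : Nonempty ({v : V | f v = t} ↪ Fin w) := by
        rw [Function.Embedding.nonempty_iff_card_le]
        simpa using hcard
      have step : ∀ S : Finset V, (∀ v ∈ S, f v = t) →
          Good G (Fin c ⊕ Fin w) ({v | f v < t} ∪ (S : Set V)) := by
        intro S
        induction S using Finset.induction_on with
        | empty => intro _; simpa using ih
        | insert a S ha ihS =>
          intro hS
          have h1 := ihS (fun v hv => hS v (Finset.mem_insert_of_mem hv))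
          have h2 : ({v | f v < t} ∪ ((insert a S : Finset V) : Set V)) =
              ({v | f v < t} ∪ (S : Set V)) ∪ {a} := by
            ext v
            simp only [Finset.coe_insert, Set.mem_union, Set.mem_insert_iff, Set.mem_singleton_iff,
              Finset.mem_coe]
            tauto
          rw [h2]
          have hfa : f a = t := hS a (Finset.mem_insert_self _ _)
          refine Good.union h1 (Good.singleton a) ?_ ?_
          · rw [Set.disjoint_singleton_right]
            rintro (h' | h')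
            · simp only [Set.mem_ofPred_eq] at h'
              omega
            · exact ha h'
          · rw [← h2]
            refine ⟨fun v => if hv : f v = t then Sum.inr (g ⟨v, hv⟩) else
              Sum.inl (μ v), ?_⟩
            intro u hu v hv huv x hx
            by_cases h3 : f u = t
            · by_cases h4 : f v = t
              · simp only [dif_pos h3, dif_pos h4, Sum.inr.injEq] at huv
                have h5 := g.injective huv
                have h6 : u = v := congrArg Subtype.val h5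
                rw [h6]
              · simp [dif_pos h3, dif_neg h4] at huv
            · by_cases h4 : f v = t
              · simp [dif_neg h3, dif_pos h4] at huv
              · simp only [dif_neg h3, dif_neg h4, Sum.inl.injEq] at huv
                have h5 : u ∈ {v | f v < t} := by
                  rcases hu with hu | hu
                  · exact hu
                  · exact absurd (hS u hu) h3
                have h6 : v ∈ {v | f v < t} := by
                  rcases hv with hv | hv
                  · exact hv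
                  · exact absurd (hS v hv) h4
                exact hμ u h5 v h6 huv x (fun h => hx (Or.inl h))
      have h2 : {v : V | f v < t + 1} = {v | f v < t} ∪ (hfin.toFinset : Set V) := by
        ext v
        simp only [Set.mem_ofPred_eq, Set.Finite.coe_toFinset, Set.mem_union]
        omega
      rw [h2]
      exact step _ (fun v hv => by simpa using hv)
  obtain ⟨N, hN⟩ : ∃ N, ∀ v, f v < N := by
    obtain ⟨N, hN⟩ := (Set.toFinite (Set.range f)).bddAbove
    exact ⟨N + 1, fun v => Nat.lt_succ_of_le (hN ⟨v, rfl⟩)⟩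
  have h1 := key N
  have h2 : {v : V | f v < N} = Set.univ := by
    ext v; simp [hN v]
  rw [h2] at h1
  have := h1.hasCW
  simpa using this

/-- Small graphs. -/
theorem hasCW_of_card [Finite V] (G : SimpleGraph V) (c : ℕ) (h : Nat.card V ≤ c) :
    HasCW (3 * (1 + c)) V G := by
  refine hasCW_of_layout G 1 c (fun _ => 0) (by omega) ?_ ?_
  · intro t
    refine le_trans (Set.ncard_le_ncard (Set.subset_univ _) (Set.toFinite _)) ?_
    rw [Set.ncard_univ]
    exact h
  · intro t
    refine ⟨fun _ => 0, fun u hu v hv _ x hx => ?_⟩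
    simp only [Set.mem_ofPred_eq] at hu hx
    exact absurd hu hx

end Decomposition

/-- More labels do not hurt. -/
theorem HasCW.mono {k k' : ℕ} {V : Type} {G : SimpleGraph V} (h : HasCW k V G) (hk : k ≤ k') :
    HasCW k' V G := by
  obtain ⟨l, hl⟩ := h
  exact ⟨_, hl.mapLabels (Fin.castLE hk) (Fin.castLE_injective hk)⟩

theorem HasCW.iso {k : ℕ} {V W : Type} {G : SimpleGraph V} {H : SimpleGraph W}
    (h : HasCW k V G) (e : G ≃g H) : HasCW k W H := by
  obtain ⟨l, hl⟩ := h
  refine ⟨l ∘ e.symm, hl.iso' e.toEquiv ?_ ?_⟩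
  · intro a b
    exact e.map_adj_iff
  · intro a
    simp

section Modules

/-- Substitution of the graph `K` for the vertex `w` of `H`. -/
def sub {W M : Type} (H : SimpleGraph W) (w : W) (K : SimpleGraph M) :
    SimpleGraph ({x : W // x ≠ w} ⊕ M) :=
  glue (H.induce {x | x ≠ w}) K (fun a _ => H.Adj a w)

theorem sub_inl_inl {W M : Type} (H : SimpleGraph W) (w : W) (K : SimpleGraph M)
    (a b : {x : W // x ≠ w}) : (sub H w K).Adj (Sum.inl a) (Sum.inl b) ↔ H.Adj a b := Iff.rfl

theorem sub_inl_inr {W M : Type} (H : SimpleGraph W) (w : W) (K : SimpleGraph M)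
    (a : {x : W // x ≠ w}) (b : M) : (sub H w K).Adj (Sum.inl a) (Sum.inr b) ↔ H.Adj a w :=
  Iff.rfl

theorem sub_inr_inl {W M : Type} (H : SimpleGraph W) (w : W) (K : SimpleGraph M)
    (a : {x : W // x ≠ w}) (b : M) : (sub H w K).Adj (Sum.inr b) (Sum.inl a) ↔ H.Adj a w :=
  Iff.rfl

theorem sub_inr_inr {W M : Type} (H : SimpleGraph W) (w : W) (K : SimpleGraph M)
    (a b : M) : (sub H w K).Adj (Sum.inr a) (Sum.inr b) ↔ K.Adj a b := Iff.rfl

/-- Relabel everything to one label. -/
theorem Built.const [Fintype ι] {W : Type} {H : SimpleGraph W} {l : W → ι} (h : Built ι W H l)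
    (i : ι) : Built ι W H (fun _ => i) := by
  refine Built.congr (Built.relabelSet h (Finset.univ.erase i) (fun _ => i) (by simp))
    (fun _ _ => Iff.rfl) ?_
  intro a
  by_cases h : l a = i <;> simp [h]

theorem Built.sub [Fintype ι] {M : Type} {K : SimpleGraph M} {lK : M → ι}
    (hK : Built ι M K lK) {W : Type} {H : SimpleGraph W} {l : W → ι} (h : Built ι W H l) :
    ∀ w : W, Built ι ({x : W // x ≠ w} ⊕ M) (CW.sub H w K)
      (Sum.elim (fun a => l a) (fun _ => l w)) := by
  classical
  induction h with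
  | empty => intro w; exact w.elim
  | single i =>
    intro w
    have : IsEmpty {x : Unit // x ≠ w} := ⟨fun x => x.2 (Subsingleton.elim _ _)⟩
    refine Built.iso' (hK.const i) (Equiv.emptySum _ M).symm ?_ ?_
    · intro a b
      exact Iff.rfl
    · intro a
      rfl
  | union W₁ W₂ G₁ G₂ l₁ l₂ h₁ h₂ ih₁ ih₂ =>
    rintro (w | w)
    · have h := Built.union _ _ _ _ _ _ (ih₁ w) h₂
      let e : ({x : W₁ // x ≠ w} ⊕ M) ⊕ W₂ ≃ {x : W₁ ⊕ W₂ // x ≠ Sum.inl w} ⊕ M :=
        { toFun := fun x => match x with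
            | Sum.inl (Sum.inl a) => Sum.inl ⟨Sum.inl a.1, fun h => a.2 (Sum.inl.inj h)⟩
            | Sum.inl (Sum.inr m) => Sum.inr m
            | Sum.inr b => Sum.inl ⟨Sum.inr b, fun h => by cases h⟩
          invFun := fun x => match x with
            | Sum.inl ⟨Sum.inl a, ha⟩ => Sum.inl (Sum.inl ⟨a, fun h => ha (by rw [h])⟩)
            | Sum.inl ⟨Sum.inr b, _⟩ => Sum.inr b
            | Sum.inr m => Sum.inl (Sum.inr m)
          left_inv := by rintro ((a | m) | b) <;> rfl
          right_inv := by rintro (⟨a | b, ha⟩ | m) <;> rfl }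
      refine Built.iso' h e ?_ ?_
      · rintro ((a | m) | b) ((a' | m') | b') <;>
          simp [e, SimpleGraph.sup_adj, SimpleGraph.map_adj, CW.sub, CW.glue]
      · rintro ((a | m) | b) <;> rfl
    · have h := Built.union _ _ _ _ _ _ h₁ (ih₂ w)
      let e : W₁ ⊕ ({x : W₂ // x ≠ w} ⊕ M) ≃ {x : W₁ ⊕ W₂ // x ≠ Sum.inr w} ⊕ M :=
        { toFun := fun x => match x with
            | Sum.inr (Sum.inl a) => Sum.inl ⟨Sum.inr a.1, fun h => a.2 (Sum.inr.inj h)⟩
            | Sum.inr (Sum.inr m) => Sum.inr m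
            | Sum.inl b => Sum.inl ⟨Sum.inl b, fun h => by cases h⟩
          invFun := fun x => match x with
            | Sum.inl ⟨Sum.inr a, ha⟩ => Sum.inr (Sum.inl ⟨a, fun h => ha (by rw [h])⟩)
            | Sum.inl ⟨Sum.inl b, _⟩ => Sum.inl b
            | Sum.inr m => Sum.inr (Sum.inr m)
          left_inv := by rintro (b | (a | m)) <;> rfl
          right_inv := by rintro (⟨a | b, ha⟩ | m) <;> rfl }
      refine Built.iso' h e ?_ ?_
      · rintro (b | (a | m)) (b' | (a' | m')) <;>
          simp [e, SimpleGraph.sup_adj, SimpleGraph.map_adj, CW.sub, CW.glue]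
      · rintro (b | (a | m)) <;> rfl
  | iso W W' H l' e h ih =>
    intro w
    let e' : {x : W // x ≠ e.symm w} ⊕ M ≃ {x : W' // x ≠ w} ⊕ M :=
      Equiv.sumCongr (e.subtypeEquiv (fun a => by
        rw [not_iff_not]
        exact ⟨fun h => by rw [h]; simp, fun h => by rw [← h]; simp⟩)) (Equiv.refl M)
    refine Built.iso' (ih (e.symm w)) e' ?_ ?_
    · rintro (a | m) (a' | m')
      · simp only [e', CW.sub, CW.glue, Equiv.sumCongr_apply, Sum.map_inl]
        change (H.map e.toEmbedding).Adj (e a) (e a') ↔ H.Adj a a'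
        rw [SimpleGraph.map_adj]
        constructor
        · rintro ⟨u, v, huv, h1, h2⟩
          simp at h1 h2
          rw [← h1, ← h2]
          exact huv
        · intro h1
          exact ⟨a, a', h1, by simp, by simp⟩
      · simp only [e', CW.sub, CW.glue, Equiv.sumCongr_apply, Sum.map_inl, Sum.map_inr]
        rw [SimpleGraph.map_adj]
        constructor
        · rintro ⟨u, v, huv, h1, h2⟩
          simp at h1 h2
          rw [← h1, ← h2]
          simpa using huv
        · intro h1
          exact ⟨a, e.symm w, h1, by simp, by simp⟩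
      · simp only [e', CW.sub, CW.glue, Equiv.sumCongr_apply, Sum.map_inl, Sum.map_inr]
        rw [SimpleGraph.map_adj]
        constructor
        · rintro ⟨u, v, huv, h1, h2⟩
          simp at h1 h2
          rw [← h1, ← h2]
          simpa using huv
        · intro h1
          exact ⟨a', e.symm w, h1, by simp, by simp⟩
      · simp [e', CW.sub, CW.glue]
    · rintro (a | m)
      · simp [e']
      · simp [e']
  | relabel W H l' i j h ih =>
    intro w
    refine Built.congr (Built.relabel _ _ _ i j (ih w)) (fun _ _ => Iff.rfl) ?_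
    rintro (a | m) <;> rfl
  | join W H l' i j hij h ih =>
    intro w
    refine Built.congr (Built.join _ _ _ i j hij (ih w)) ?_ (fun _ => rfl)
    rintro (a | m) (a' | m')
    · simp [CW.sub, CW.glue, SimpleGraph.sup_adj, SimpleGraph.fromRel_adj, Subtype.ext_iff]
    · have := a.2
      simp [CW.sub, CW.glue, SimpleGraph.sup_adj, SimpleGraph.fromRel_adj, this]
    · have := a'.2
      simp [CW.sub, CW.glue, SimpleGraph.sup_adj, SimpleGraph.fromRel_adj, this]
      tauto
    · simp only [CW.sub, CW.glue, SimpleGraph.sup_adj, SimpleGraph.fromRel_adj, Sum.elim_inr]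
      constructor
      · exact fun h => Or.inl h
      · rintro (h | ⟨_, ⟨h1, h2⟩ | ⟨h1, h2⟩⟩)
        · exact h
        · exact absurd (h1.symm.trans h2) hij
        · exact absurd (h1.symm.trans h2) hij

/-- `M` is a module (homogeneous set). -/
def IsModule {V : Type} (G : SimpleGraph V) (M : Set V) : Prop :=
  ∀ x ∉ M, ∀ u ∈ M, ∀ v ∈ M, (G.Adj x u ↔ G.Adj x v)

/-- All modules are trivial. -/
def IsPrime {V : Type} (G : SimpleGraph V) : Prop :=
  ∀ M : Set V, IsModule G M → M.Subsingleton ∨ M = Set.univ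

/-- Clique-width and modules: the graph is the substitution of `G[M]` for a vertex. -/
theorem hasCW_of_module {k : ℕ} {V : Type} {G : SimpleGraph V} {M : Set V} {m : V}
    (hM : IsModule G M) (hm : m ∈ M) (h1 : HasCW k M (G.induce M))
    (h2 : HasCW k ↥(Mᶜ ∪ {m}) (G.induce (Mᶜ ∪ {m}))) : HasCW k V G := by
  classical
  obtain ⟨lK, hK⟩ := h1
  obtain ⟨l, hl⟩ := h2
  have hw : m ∈ Mᶜ ∪ {m} := Or.inr rfl
  have key := Built.sub hK hl ⟨m, hw⟩
  let e : {x : ↥(Mᶜ ∪ {m}) // x ≠ ⟨m, hw⟩} ⊕ M ≃ V :=
    { toFun := fun x => match x with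
        | Sum.inl a => a.1.1
        | Sum.inr b => b.1
      invFun := fun v => if hv : v ∈ M then Sum.inr ⟨v, hv⟩ else
        Sum.inl ⟨⟨v, Or.inl hv⟩, fun h => hv (by
          have := congrArg Subtype.val h
          simp only at this
          rw [this]; exact hm)⟩
      left_inv := by
        rintro (⟨⟨a, ha⟩, ha'⟩ | ⟨b, hb⟩)
        · have : a ∉ M := by
            rcases ha with ha | ha
            · exact ha
            · exfalso
              rw [Set.mem_singleton_iff] at ha
              subst ha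
              exact ha' rfl
          simp [this]
        · simp [hb]
      right_inv := by
        intro v
        by_cases hv : v ∈ M <;> simp [hv] }
  refine ⟨fun v => (Sum.elim (fun a => l a.1) (fun _ => l ⟨m, hw⟩) :
    {x : ↥(Mᶜ ∪ {m}) // x ≠ ⟨m, hw⟩} ⊕ M → Fin k) (e.symm v),
    Built.iso' key e ?_ (fun a => by simp only [Equiv.symm_apply_apply])⟩
  rintro (⟨⟨a, ha⟩, ha'⟩ | ⟨b, hb⟩) (⟨⟨c, hc⟩, hc'⟩ | ⟨d, hd⟩)
  · exact Iff.rfl
  · have : a ∉ M := by
      rcases ha with ha | ha
      · exact ha
      · exfalso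
        rw [Set.mem_singleton_iff] at ha
        subst ha
        exact ha' rfl
    exact hM a this d hd m hm
  · have : c ∉ M := by
      rcases hc with hc | hc
      · exact hc
      · exfalso
        rw [Set.mem_singleton_iff] at hc
        subst hc
        exact hc' rfl
    change G.Adj b c ↔ G.Adj c m
    rw [G.adj_comm]
    exact hM c this b hb m hm
  · exact Iff.rfl

/-- For a hereditary class, it is enough to bound the clique-width of the prime members. -/
theorem hasCW_of_prime {k : ℕ} (C : ∀ V : Type, SimpleGraph V → Prop)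
    (hher : ∀ (V : Type) (G : SimpleGraph V) (S : Set V), C V G → C S (G.induce S))
    (hprime : ∀ (V : Type) [Finite V] (G : SimpleGraph V), C V G → IsPrime G → HasCW k V G) :
    ∀ (V : Type) [Finite V] (G : SimpleGraph V), C V G → HasCW k V G := by
  classical
  have key : ∀ n : ℕ, ∀ (V : Type) [Finite V] (G : SimpleGraph V), Nat.card V = n → C V G →
      HasCW k V G := by
    intro n
    induction n using Nat.strong_induction_on with
    | _ n ih =>
      intro V _ G hn hC
      by_cases hp : IsPrime G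
      · exact hprime V G hC hp
      · unfold IsPrime at hp
        push Not at hp
        obtain ⟨M, hM, hM1, hM2⟩ := hp
        obtain ⟨m, hm, m', hm', hne⟩ := hM1
        obtain ⟨z, hz⟩ := (Set.ne_univ_iff_exists_notMem M).1 hM2
        refine hasCW_of_module hM hm (ih _ ?_ M _ rfl (hher V G M hC))
          (ih _ ?_ ↥(Mᶜ ∪ {m}) _ rfl (hher V G _ hC))
        · rw [← hn]
          rw [← Set.ncard_univ V]
          exact Set.ncard_lt_ncard ((Set.ssubset_univ_iff).2 hM2) (Set.toFinite _)
        · rw [← hn]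
          rw [← Set.ncard_univ V]
          refine Set.ncard_lt_ncard ((Set.ssubset_univ_iff).2 ?_) (Set.toFinite _)
          intro h
          have : m' ∈ (Mᶜ ∪ {m} : Set V) := by rw [h]; trivial
          rcases this with h' | h'
          · exact h' hm'
          · exact hne (Set.mem_singleton_iff.1 h').symm
  intro V _ G hC
  exact key _ V G rfl hC

end Modules

section Tree

variable {V : Type} {G : SimpleGraph V}

/-- Disjoint unions of at most `m` sets with at most `R` rows each. -/
theorem Good.sUnion {R m : ℕ} {κ : Type} [Fintype κ] [DecidableEq κ] [Nonempty κ]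
    (hR : 0 < R) (hκ : m * R ≤ Fintype.card κ) (I : Finset (Set V)) (hI : I.card ≤ m)
    (hdis : (I : Set (Set V)).PairwiseDisjoint id)
    (hrow : ∀ A ∈ I, RowBound G (Fin R) A) (hgood : ∀ A ∈ I, Good G κ A) :
    Good G κ (⋃ A ∈ I, A) := by
  classical
  induction I using Finset.induction_on with
  | empty => simpa using Good.empty
  | insert A I hA ih =>
    have hu : (⋃ B ∈ insert A I, B) = (⋃ B ∈ I, B) ∪ A := by
      rw [Finset.set_biUnion_insert, Set.union_comm]
    rw [hu]
    refine Good.union (ih ?_ ?_ ?_ ?_) (hgood A (Finset.mem_insert_self _ _)) ?_ ?_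
    · exact le_trans (Finset.card_le_card (Finset.subset_insert _ _)) hI
    · exact hdis.subset (by simp)
    · exact fun B hB => hrow B (Finset.mem_insert_of_mem hB)
    · exact fun B hB => hgood B (Finset.mem_insert_of_mem hB)
    · rw [Set.disjoint_iUnion₂_left]
      intro B hB
      exact hdis (by simp [hB]) (by simp) (fun h => hA (h ▸ hB))
    · rw [← hu]
      -- labels: index of the member, and its row label
      have hrow' : ∀ B ∈ insert A I, ∃ μ : V → Fin R, ∀ u ∈ B, ∀ v ∈ B, μ u = μ v →
          ∀ x ∉ B, (G.Adj u x ↔ G.Adj v x) := hrow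
      have hRn : Nonempty (Fin R) := ⟨⟨0, hR⟩⟩
      have hRn' : Nonempty (V → Fin R) := ⟨fun _ => ⟨0, hR⟩⟩
      choose! μ hμ using hrow'
      obtain ⟨g⟩ : Nonempty (↥(insert A I) ↪ Fin m) := by
        rw [Function.Embedding.nonempty_iff_card_le]
        simpa using hI
      obtain ⟨g'⟩ : Nonempty (Fin m × Fin R ↪ κ) := by
        rw [Function.Embedding.nonempty_iff_card_le]
        simpa using hκ
      refine RowBound.map (κ := Fin m × Fin R) ?_ g' g'.injective
      by_cases hne : ∃ x : V, x ∈ ⋃ B ∈ insert A I, B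
      · obtain ⟨x0, hx0⟩ := hne
        have hmem : ∀ v, v ∈ ⋃ B ∈ insert A I, B → ∃ B ∈ insert A I, v ∈ B := by
          intro v hv
          simpa using hv
        choose! Bf hB1 hB2 using hmem
        refine ⟨fun v => if hv : v ∈ ⋃ B ∈ insert A I, B then
          (g ⟨Bf v, hB1 v hv⟩, μ (Bf v) v) else (g ⟨Bf x0, hB1 x0 hx0⟩, μ (Bf x0) x0), ?_⟩
        intro u hu v hv huv x hx
        simp only [dif_pos hu, dif_pos hv, Prod.mk.injEq] at huv
        have h1 : Bf u = Bf v := congrArg Subtype.val (g.injective huv.1)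
        have h2 : μ (Bf u) u = μ (Bf u) v := by rw [huv.2, h1]
        refine hμ (Bf u) (hB1 u hu) u (hB2 u hu) v (h1 ▸ hB2 v hv) h2 x ?_
        intro hxB
        exact hx (Set.mem_biUnion (hB1 u hu) hxB)
      · -- the union is empty
        by_cases hm : ∃ p : Fin m × Fin R, True
        · obtain ⟨p, _⟩ := hm
          exact ⟨fun _ => p, fun u hu => absurd ⟨u, hu⟩ hne⟩
        · by_cases hV : ∃ v : V, True
          · obtain ⟨v, _⟩ := hV
            exact absurd ⟨(g ⟨A, Finset.mem_insert_self _ _⟩, μ A v), trivial⟩ hm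
          · exact ⟨fun v => absurd ⟨v, trivial⟩ hV, fun u hu => absurd ⟨u, hu⟩ hne⟩

/-- Tree-like decompositions: each set is a disjoint union of at most `m` smaller ones, with at
most `R` rows each. -/
inductive Dec (G : SimpleGraph V) (R m : ℕ) : Set V → Prop
  | single (v : V) : Dec G R m {v}
  | node (I : Finset (Set V)) (hI : I.card ≤ m) (hdis : (I : Set (Set V)).PairwiseDisjoint id)
      (hrow : RowBound G (Fin R) (⋃ A ∈ I, A)) (h : ∀ A ∈ I, Dec G R m A) :
      Dec G R m (⋃ A ∈ I, A)

theorem Dec.good {R m : ℕ} (hR : 0 < R) (hm : 0 < m) {A : Set V} (h : Dec G R m A) :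
    Good G (Fin (m * R)) A ∧ RowBound G (Fin R) A := by
  have hne : Nonempty (Fin (m * R)) := ⟨⟨0, Nat.mul_pos hm hR⟩⟩
  induction h with
  | single v =>
    refine ⟨Good.singleton v, ⟨fun _ => ⟨0, hR⟩, fun u hu w hw _ x _ => ?_⟩⟩
    rw [Set.mem_singleton_iff] at hu hw
    rw [hu, hw]
  | node I hI hdis hrow h ih =>
    exact ⟨Good.sUnion (R := R) (m := m) hR (by simp) I hI hdis (fun A hA => (ih A hA).2)
      (fun A hA => (ih A hA).1), hrow⟩

theorem Dec.hasCW {R m : ℕ} (hR : 0 < R) (hm : 0 < m) (h : Dec G R m Set.univ) :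
    HasCW (3 * (m * R)) V G := by
  have := (h.good hR hm).1.hasCW
  simpa using this

end Tree

end Pool.Agent.Helper27.CW
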