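import Pool.Agent.Helper27.CW

set_option autoImplicit false

open SimpleGraph

namespace Pool.Agent.Helper27.CW

/-- The vertex set `A` induces a path on four vertices. -/
def IsP4 {V : Type} (G : SimpleGraph V) (A : Finset V) : Prop :=
  A.card = 4 ∧ Nonempty (G.induce (A : Set V) ≃g SimpleGraph.pathGraph 4)

/-- The class of `(q, q-2)`-graphs, as in the frozen statement. -/
def QC (q : ℕ) (V : Type) (G : SimpleGraph V) : Prop :=
  ∀ S : Finset V, S.card ≤ q →
    {A : Finset V | A ⊆ S ∧ A.card = 4 ∧
      Nonempty (G.induce (A : Set V) ≃g SimpleGraph.pathGraph 4)}.ncard ≤ q - 2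

/-- Induced paths of induced subgraphs. -/
theorem isP4_map {V : Type} (G : SimpleGraph V) (S : Set V) (A : Finset S) :
    (A.map (Function.Embedding.subtype _)).card = 4 ∧
      Nonempty (G.induce ((A.map (Function.Embedding.subtype _) : Finset V) : Set V) ≃g
        SimpleGraph.pathGraph 4) ↔
    A.card = 4 ∧ Nonempty ((G.induce S).induce (A : Set S) ≃g SimpleGraph.pathGraph 4) := by
  classical
  rw [Finset.card_map]
  refine and_congr_right fun _ => ?_
  have e : (G.induce S).induce (A : Set S) ≃g
      G.induce ((A.map (Function.Embedding.subtype _) : Finset V) : Set V) :=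
    { toFun := fun a => ⟨a.1.1, by
        simp only [Finset.coe_map, Set.mem_image, Finset.mem_coe]
        exact ⟨a.1, a.2, rfl⟩⟩
      invFun := fun a => ⟨⟨a.1, by
        have h := a.2
        simp only [Finset.coe_map, Set.mem_image, Finset.mem_coe] at h
        obtain ⟨x, _, hx⟩ := h
        rw [← hx]
        exact x.2⟩, by
        have h := a.2
        simp only [Finset.coe_map, Set.mem_image, Finset.mem_coe] at h
        obtain ⟨x, hxA, hx⟩ := h
        have : x = ⟨a.1, by rw [← hx]; exact x.2⟩ := Subtype.ext hx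
        rw [← this]
        exact hxA⟩
      left_inv := fun a => rfl
      right_inv := fun a => rfl
      map_rel_iff' := by intro a b; exact Iff.rfl }
  constructor
  · rintro ⟨f⟩
    exact ⟨e.trans f⟩
  · rintro ⟨f⟩
    exact ⟨e.symm.trans f⟩

theorem QC.induce {q : ℕ} {V : Type} {G : SimpleGraph V} (h : QC q V G) (S : Set V) :
    QC q S (G.induce S) := by
  classical
  intro T hT
  have h1 := h (T.map (Function.Embedding.subtype _)) (by rwa [Finset.card_map])
  refine le_trans ?_ h1
  refine Set.ncard_le_ncard_of_injOn (fun A => A.map (Function.Embedding.subtype _)) ?_ ?_ ?_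
  · rintro A ⟨hA1, hA2⟩
    exact ⟨Finset.map_subset_map.2 hA1, (isP4_map G S A).2 hA2⟩
  · intro A _ B _ hAB
    exact Finset.map_injective _ hAB
  · refine Set.Finite.subset (Finset.finite_toSet (T.map (Function.Embedding.subtype _)).powerset)
      ?_
    intro A hA
    rw [Finset.mem_coe, Finset.mem_powerset]
    exact hA.1

/-- The frozen statement follows from the bound for prime graphs. -/
theorem frozen_of_prime
    (h : ∀ q : ℕ, 8 ≤ q → ∃ k : ℕ, ∀ (V : Type) [Finite V] (G : SimpleGraph V),
      QC q V G → IsPrime G → HasCW k V G) :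
    ∀ q : ℕ, 8 ≤ q → ∃ k : ℕ, ∀ (V : Type) [Fintype V] (G : SimpleGraph V),
      (∀ S : Finset V, S.card ≤ q →
        {A : Finset V | A ⊆ S ∧ A.card = 4 ∧
            Nonempty (G.induce (A : Set V) ≃g SimpleGraph.pathGraph 4)}.ncard ≤ q - 2) →
      ∃ l : V → Fin k, ∀ P : ∀ W : Type, SimpleGraph W → (W → Fin k) → Prop,
        P PEmpty ⊥ PEmpty.elim →
        (∀ i : Fin k, P Unit ⊥ (fun _ => i)) →
        (∀ (W₁ W₂ : Type) (G₁ : SimpleGraph W₁) (G₂ : SimpleGraph W₂)
            (l₁ : W₁ → Fin k) (l₂ : W₂ → Fin k),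
            P W₁ G₁ l₁ → P W₂ G₂ l₂ →
            P (W₁ ⊕ W₂)
              (G₁.map Function.Embedding.inl ⊔ G₂.map Function.Embedding.inr)
              (Sum.elim l₁ l₂)) →
        (∀ (W W' : Type) (H : SimpleGraph W) (l' : W → Fin k) (e : W ≃ W'),
            P W H l' → P W' (H.map e.toEmbedding) (l' ∘ e.symm)) →
        (∀ (W : Type) (H : SimpleGraph W) (l' : W → Fin k) (i j : Fin k),
            P W H l' → P W H (fun x => if l' x = i then j else l' x)) →
        (∀ (W : Type) (H : SimpleGraph W) (l' : W → Fin k) (i j : Fin k), i ≠ j →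
            P W H l' →
            P W (H ⊔ SimpleGraph.fromRel (fun x y => l' x = i ∧ l' y = j)) l') →
        P V G l := by
  intro q hq
  obtain ⟨k, hk⟩ := h q hq
  refine ⟨k, fun V _ G hG => ?_⟩
  refine HasCW.frozen (hasCW_of_prime (QC q) (fun V G S h => h.induce S)
    (fun V _ G hC hP => hk V G hC hP) V G hG)

end Pool.Agent.Helper27.CW
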