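import Pool.Agent.Helper30.SatB.Defs

/-!
# Countable saturated models of theories with computable types

If all types of a theory `T` in a countable language are computable and `T` has an infinite model,
then `T` has a countable infinite saturated model: an ultrapower over the natural numbers realizes
every countable finitely satisfiable set of formulas over a finite tuple, only countably many types
occur in it, and a countable subset closed under realizing types is an elementary saturated
substructure.
-/

set_option autoImplicit false

namespace Pool.Agent.Helper27.Sat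

open FirstOrder FirstOrder.Language Filter Pool.Agent.Helper30.SatB

/-! ### The Gödel numbering is injective -/

theorem termCode_injective {F R : ℕ → ℕ → Prop} {n : ℕ} :
    Function.Injective (termCode (F := F) (R := R) (n := n)) := by
  intro t
  induction t with
  | var x =>
    intro s h
    cases s with
    | var y =>
      rcases x with x | x
      · exact x.elim
      rcases y with y | y
      · exact y.elim
      simp only [termCode, Sum.elim_inr, Nat.pair_eq_pair, true_and] at h
      rw [Fin.ext h]
    | func f ts =>
      simp only [termCode, Nat.pair_eq_pair] at h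
      omega
  | func f ts ih =>
    intro s h
    cases s with
    | var y =>
      simp only [termCode, Nat.pair_eq_pair] at h
      omega
    | func f' ts' =>
      simp only [termCode, Nat.pair_eq_pair, Nat.add_right_cancel_iff] at h
      obtain ⟨⟨hl, hf⟩, hts⟩ := h
      subst hl
      have hf' : f = f' := Subtype.ext hf
      subst hf'
      have hts' := List.ofFn_injective (Encodable.encode_injective hts)
      congr 1
      funext i
      exact ih i (congrFun hts' i)

theorem formulaCode_injective {F R : ℕ → ℕ → Prop} {n : ℕ} :
    Function.Injective (formulaCode (F := F) (R := R) (n := n)) := by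
  intro φ
  induction φ with
  | falsum =>
    intro ψ h
    cases ψ with
    | falsum => rfl
    | equal _ _ => simp only [formulaCode, Nat.pair_eq_pair] at h; omega
    | rel _ _ => simp only [formulaCode, Nat.pair_eq_pair] at h; omega
    | imp _ _ => simp only [formulaCode, Nat.pair_eq_pair] at h; omega
    | all _ => simp only [formulaCode, Nat.pair_eq_pair] at h; omega
  | equal t s =>
    intro ψ h
    cases ψ with
    | falsum => simp only [formulaCode, Nat.pair_eq_pair] at h; omega
    | equal t' s' =>
      simp only [formulaCode, Nat.pair_eq_pair] at h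
      rw [termCode_injective h.2.1, termCode_injective h.2.2]
    | rel _ _ => simp only [formulaCode, Nat.pair_eq_pair] at h; omega
    | imp _ _ => simp only [formulaCode, Nat.pair_eq_pair] at h; omega
    | all _ => simp only [formulaCode, Nat.pair_eq_pair] at h; omega
  | rel r ts =>
    intro ψ h
    cases ψ with
    | falsum => simp only [formulaCode, Nat.pair_eq_pair] at h; omega
    | equal _ _ => simp only [formulaCode, Nat.pair_eq_pair] at h; omega
    | rel r' ts' =>
      simp only [formulaCode, Nat.pair_eq_pair, true_and] at h
      obtain ⟨⟨hl, hf⟩, hts⟩ := h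
      subst hl
      have hf' : r = r' := Subtype.ext hf
      subst hf'
      have hts' := List.ofFn_injective (Encodable.encode_injective hts)
      congr 1
      funext i
      exact termCode_injective (congrFun hts' i)
    | imp _ _ => simp only [formulaCode, Nat.pair_eq_pair] at h; omega
    | all _ => simp only [formulaCode, Nat.pair_eq_pair] at h; omega
  | imp φ₁ φ₂ ih₁ ih₂ =>
    intro ψ h
    cases ψ with
    | falsum => simp only [formulaCode, Nat.pair_eq_pair] at h; omega
    | equal _ _ => simp only [formulaCode, Nat.pair_eq_pair] at h; omega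
    | rel _ _ => simp only [formulaCode, Nat.pair_eq_pair] at h; omega
    | imp ψ₁ ψ₂ =>
      simp only [formulaCode, Nat.pair_eq_pair, true_and] at h
      rw [ih₁ h.1, ih₂ h.2]
    | all _ => simp only [formulaCode, Nat.pair_eq_pair] at h; omega
  | all φ ih =>
    intro ψ h
    cases ψ with
    | falsum => simp only [formulaCode, Nat.pair_eq_pair] at h; omega
    | equal _ _ => simp only [formulaCode, Nat.pair_eq_pair] at h; omega
    | rel _ _ => simp only [formulaCode, Nat.pair_eq_pair] at h; omega
    | imp _ _ => simp only [formulaCode, Nat.pair_eq_pair] at h; omega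
    | all ψ =>
      simp only [formulaCode, Nat.pair_eq_pair, true_and] at h
      rw [ih h]

/-! ### Ultrapowers over `ℕ` realize countable types -/

section Ultra

variable {L : FirstOrder.Language.{0, 0}} {M : Type} [L.Structure M]

/-- The ultrapower of `M` over an ultrafilter on `ℕ`. -/
abbrev UP (u : Ultrafilter ℕ) (M : Type) : Type := (u : Filter ℕ).Product fun _ => M

/-- The class of a sequence in the ultrapower. -/
def cls (u : Ultrafilter ℕ) (f : ℕ → M) : UP u M := (f : (u : Filter ℕ).Product fun _ => M)

theorem cast_append {u : Ultrafilter ℕ} {m n : ℕ} (a : Fin m → ℕ → M) (d : Fin n → ℕ → M) :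
    (fun i => cls u (Fin.append a d i)) =
      Fin.append (fun i => cls u (a i)) (fun i => cls u (d i)) := by
  funext i
  refine Fin.addCases (fun j => ?_) (fun j => ?_) i
  · simp
  · simp

theorem eval_append {m n : ℕ} (a : Fin m → ℕ → M) (d : Fin n → ℕ → M) (x : ℕ) :
    (fun i => Fin.append a d i x) = Fin.append (fun i => a i x) (fun i => d i x) := by
  funext i
  refine Fin.addCases (fun j => ?_) (fun j => ?_) i
  · simp
  · simp

theorem los [Nonempty M] {u : Ultrafilter ℕ} {m n : ℕ} (φ : L.BoundedFormula Empty (m + n))
    (a : Fin m → ℕ → M) (d : Fin n → ℕ → M) :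
    φ.Realize (M := UP u M) default (Fin.append
        (fun i => cls u (a i)) (fun i => cls u (d i))) ↔
      ∀ᶠ x in (u : Filter ℕ),
        φ.Realize default (Fin.append (fun i => a i x) (fun i => d i x)) := by
  have h : φ.Realize (M := UP u M) (fun e : Empty => cls u (e.elim : ℕ → M))
      (fun i => cls u (Fin.append a d i)) ↔ ∀ᶠ x in (u : Filter ℕ),
        φ.Realize (fun e : Empty => (e.elim : ℕ → M) x) (fun i => Fin.append a d i x) :=
    Ultraproduct.boundedFormula_realize_cast (M := fun _ : ℕ => M) (u := u) φ
    (fun e => e.elim) (Fin.append a d)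
  rw [cast_append] at h
  have h1 : (fun e : Empty => cls u (e.elim : ℕ → M)) = default :=
    Subsingleton.elim _ _
  rw [h1] at h
  rw [h]
  refine eventually_congr (Eventually.of_forall fun x => ?_)
  have h2 : (fun i : Empty => (i.elim : ℕ → M) x) = default := Subsingleton.elim _ _
  rw [h2, eval_append]

theorem exists_rep_tuple {u : Ultrafilter ℕ} {m : ℕ} (a : Fin m → UP u M) :
    ∃ a' : Fin m → ℕ → M, a = fun i => cls u (a' i) := by
  have h : ∀ i, ∃ b : ℕ → M, cls u b = a i :=
    fun i => Quotient.exists_rep (a i)
  choose b hb using h
  exact ⟨b, funext fun i => (hb i).symm⟩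

theorem ultra_realize [Nonempty M] (u : Ultrafilter ℕ)
    (hu : ∀ k : ℕ, ∀ᶠ i in (u : Filter ℕ), k ≤ i)
    {m n : ℕ} (a : Fin m → UP u M)
    (p : ℕ → L.BoundedFormula Empty (m + n))
    (hp : ∀ k : ℕ, ∃ c : Fin n → UP u M,
      ∀ j < k, (p j).Realize default (Fin.append a c)) :
    ∃ c : Fin n → UP u M, ∀ j, (p j).Realize default (Fin.append a c) := by
  classical
  obtain ⟨a', rfl⟩ := exists_rep_tuple a
  let good : ℕ → ℕ → Prop := fun i k => ∃ c : Fin n → M,
    ∀ j < k, (p j).Realize default (Fin.append (fun t => a' t i) c)
  have hgood0 : ∀ i, good i 0 := fun i => ⟨fun _ => Classical.arbitrary M, fun j hj => by omega⟩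
  have hk : ∀ i, good i (Nat.findGreatest (good i) i) := fun i =>
    Nat.findGreatest_spec (P := good i) (Nat.zero_le i) (hgood0 i)
  choose c hc using hk
  refine ⟨fun t => cls u (fun i => c i t), fun j => ?_⟩
  rw [los]
  obtain ⟨d, hd⟩ := hp (j + 1)
  obtain ⟨d', rfl⟩ := exists_rep_tuple d
  have h1 : ∀ᶠ i in (u : Filter ℕ), ∀ j' ∈ Finset.range (j + 1),
      (p j').Realize default (Fin.append (fun t => a' t i) (fun t => d' t i)) := by
    rw [Filter.eventually_all_finset]
    intro j' hj'
    exact (los _ _ _).1 (hd j' (Finset.mem_range.1 hj'))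
  filter_upwards [h1, hu (j + 1)] with i hi1 hi2
  have h3 : j + 1 ≤ Nat.findGreatest (good i) i :=
    Nat.le_findGreatest hi2 ⟨fun t => d' t i, fun j' hj' => hi1 j' (Finset.mem_range.2 hj')⟩
  exact hc i j (by omega)

end Ultra

/-! ### Types as sets of formulas -/

section Types

variable {L : FirstOrder.Language.{0, 0}} {M : Type} [L.Structure M]

/-- The set of formulas true of a tuple. -/
def tp {n : ℕ} (v : Fin n → M) : Set (L.BoundedFormula Empty n) := {φ | φ.Realize default v}

open Classical in
/-- A countable set closed under realizing types over finite tuples. -/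
theorem exists_countable_closed [Nonempty M]
    (hc : ∀ n : ℕ, (Set.range fun v : Fin n → M => tp (L := L) v).Countable) :
    ∃ N : Set M, N.Countable ∧ ∀ (m : ℕ) (a : Fin m → M), (∀ i, a i ∈ N) →
      ∀ (n : ℕ) (c : Fin n → M), ∃ c' : Fin n → M, (∀ j, c' j ∈ N) ∧
        tp (L := L) (Fin.append a c') = tp (L := L) (Fin.append a c) := by
  let L' : FirstOrder.Language.{0, 0} :=
    { Functions := fun m => Σ n : ℕ,
        (Set.range fun v : Fin (m + n) → M => tp (L := L) v) × Fin n
      Relations := fun _ => Empty }
  have hcount : Countable (Σ l, L'.Functions l) := by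
    have h : ∀ n : ℕ, Countable (Set.range fun v : Fin n → M => tp (L := L) v) :=
      fun n => (hc n).to_subtype
    show Countable (Σ m : ℕ, Σ n : ℕ,
        (Set.range fun v : Fin (m + n) → M => tp (L := L) v) × Fin n)
    infer_instance
  let S' : L'.Structure M :=
    { funMap := fun {m} f a =>
        if h : ∃ c : Fin f.1 → M, tp (L := L) (Fin.append a c) = f.2.1.1 then
          Classical.choose h f.2.2
        else Classical.arbitrary M
      RelMap := fun {m} r => r.elim }
  let N : L'.Substructure M := Substructure.closure L' (∅ : Set M)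
  refine ⟨N, ?_, ?_⟩
  · have := Set.Countable.substructure_closure L' (M := M) (s := (∅ : Set M)) Set.countable_empty
    exact this
  · intro m a ha n c
    have h : ∃ c' : Fin n → M, tp (L := L) (Fin.append a c') = tp (L := L) (Fin.append a c) :=
      ⟨c, rfl⟩
    refine ⟨Classical.choose h, fun j => ?_, Classical.choose_spec h⟩
    have h2 := N.fun_mem (n := m)
      (⟨n, ⟨tp (L := L) (Fin.append a c), ⟨Fin.append a c, rfl⟩⟩, j⟩ : L'.Functions m) a ha
    have h3 : Structure.funMap (L := L')
        (⟨n, ⟨tp (L := L) (Fin.append a c), ⟨Fin.append a c, rfl⟩⟩, j⟩ : L'.Functions m) a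
        = Classical.choose h j := by
      show (if h : ∃ c' : Fin n → M, tp (L := L) (Fin.append a c') = tp (L := L) (Fin.append a c)
        then Classical.choose h j else Classical.arbitrary M) = _
      rw [dif_pos h]
    rw [h3] at h2
    exact h2

end Types

/-! ### Countability of the set of types -/

theorem countable_computable_sets : {S : Set ℕ | ComputablePred fun c : ℕ => c ∈ S}.Countable := by
  classical
  have h : ∀ S : {S : Set ℕ | ComputablePred fun c : ℕ => c ∈ S},
      Computable (fun c : ℕ => if c ∈ S.1 then 1 else 0 : ℕ → ℕ) := by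
    rintro ⟨S, hS⟩
    obtain ⟨D, hD⟩ := hS
    have h1 : Computable (fun c : ℕ => cond (decide (c ∈ S)) 1 0 : ℕ → ℕ) :=
      Computable.cond hD (Computable.const 1) (Computable.const 0)
    refine h1.of_eq fun c => ?_
    by_cases hc : c ∈ S
    · simp [hc]
    · simp [hc]
  have hinj : Function.Injective (fun S : {S : Set ℕ | ComputablePred fun c : ℕ => c ∈ S} =>
      (⟨_, h S⟩ : {f : ℕ → ℕ // Computable f})) := by
    rintro ⟨S, hS⟩ ⟨S', hS'⟩ heq
    simp only [Subtype.mk.injEq] at heq
    refine Subtype.ext (Set.ext fun c => ?_)
    have := congrFun heq c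
    by_cases h1 : c ∈ S <;> by_cases h2 : c ∈ S' <;> simp_all
  exact Set.countable_coe_iff.1 hinj.countable

theorem countable_types {F R : ℕ → ℕ → Prop} {T : (presLang F R).Theory}
    (htypes : TypesComputable T) {M : Type} [(presLang F R).Structure M] [Nonempty M]
    (hM : M ⊨ T) (n : ℕ) :
    (Set.range fun v : Fin n → M => tp (L := presLang F R) v).Countable := by
  have hinj : Function.Injective fun p : Set ((presLang F R).BoundedFormula Empty n) =>
      formulaCode '' p := Set.image_injective.2 formulaCode_injective
  refine Set.countable_of_injective_of_countable_image hinj.injOn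
    (countable_computable_sets.mono ?_)
  rintro _ ⟨_, ⟨v, rfl⟩, rfl⟩
  have h := htypes M hM n v
  have h2 : formulaCode '' tp (L := presLang F R) v = typeOf F R v := by
    ext c
    rfl
  show ComputablePred fun c : ℕ => c ∈ formulaCode '' tp (L := presLang F R) v
  rw [h2]
  exact h

/-! ### The countable saturated model -/

instance countable_functions (F R : ℕ → ℕ → Prop) :
    Countable (presLang F R).Symbols := by
  have h1 : ∀ n, Countable ((presLang F R).Functions n) := fun n =>
    inferInstanceAs (Countable {i : ℕ // F n i})
  have h2 : ∀ n, Countable ((presLang F R).Relations n) := fun n =>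
    inferInstanceAs (Countable {i : ℕ // R n i})
  show Countable ((Σ l, (presLang F R).Functions l) ⊕ (Σ l, (presLang F R).Relations l))
  infer_instance

theorem exists_countable_saturated {F R : ℕ → ℕ → Prop} (T : (presLang F R).Theory)
    (htypes : TypesComputable T)
    (hinf : ∃ (M : Type) (_ : (presLang F R).Structure M), Infinite M ∧ M ⊨ T) :
    ∃ (N : Type) (_ : (presLang F R).Structure N), Countable N ∧ Infinite N ∧ N ⊨ T ∧
      Saturated (L := presLang F R) N := by
  classical
  obtain ⟨M₀, S₀, hinf₀, hM₀⟩ := hinf
  have hne₀ : Nonempty M₀ := inferInstance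
  let u : Ultrafilter ℕ := Filter.hyperfilter ℕ
  have hu : ∀ k : ℕ, ∀ᶠ i in (u : Filter ℕ), k ≤ i := by
    intro k
    have h1 : (u : Filter ℕ) ≤ Filter.cofinite := Filter.hyperfilter_le_cofinite
    refine h1 ?_
    rw [Nat.cofinite_eq_atTop]
    exact Filter.eventually_ge_atTop k
  -- the ultrapower
  have heq : M₀ ≅[presLang F R] (UP u M₀) := by
    rw [elementarilyEquivalent_iff]
    intro φ
    have h := Ultraproduct.sentence_realize (M := fun _ : ℕ => M₀) (u := u) φ
    rw [h]
    simp
  have hinfU : Infinite (UP u M₀) := heq.infinite
  have hU : UP u M₀ ⊨ T := heq.theory_model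
  have hneU : Nonempty (UP u M₀) := inferInstance
  obtain ⟨N, hNc, hN⟩ := exists_countable_closed (L := presLang F R) (M := UP u M₀)
    (fun n => countable_types htypes hU n)
  -- `N` is the underlying set of a substructure
  have hNfun : ∀ (k : ℕ) (f : (presLang F R).Functions k) (a : Fin k → UP u M₀),
      (∀ i, a i ∈ N) → Structure.funMap f a ∈ N := by
    intro k f a ha
    obtain ⟨c', hc', htp⟩ := hN k a ha 1 (fun _ => Structure.funMap f a)
    let φ : (presLang F R).BoundedFormula Empty (k + 1) :=
      BoundedFormula.equal
        (Term.func f fun i => Term.var (Sum.inr (Fin.castAdd 1 i)))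
        (Term.var (Sum.inr (Fin.natAdd k 0)))
    have hφ : ∀ b : Fin 1 → UP u M₀, φ.Realize default (Fin.append a b) ↔
        Structure.funMap f a = b 0 := by
      intro b
      simp only [φ, BoundedFormula.Realize, Term.realize, Sum.elim_inr, Fin.append_left,
        Fin.append_right]
    have h1 : φ ∈ tp (L := presLang F R) (Fin.append a fun _ => Structure.funMap f a) :=
      (hφ _).2 rfl
    rw [← htp] at h1
    rw [(hφ c').1 h1]
    exact hc' 0
  let S : (presLang F R).Substructure (UP u M₀) :=
    { carrier := N
      fun_mem := fun {n} f a ha => hNfun n f a ha }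
  have hSmem : ∀ x, x ∈ S ↔ x ∈ N := fun x => Iff.rfl
  let E : (presLang F R).ElementarySubstructure (UP u M₀) :=
    S.toElementarySubstructure (by
      intro n φ x a h
      obtain ⟨c', hc', htp⟩ := hN n (fun i => (x i : UP u M₀)) (fun i => (x i).2) 1 (fun _ => a)
      refine ⟨⟨c' 0, hc' 0⟩, ?_⟩
      have h1 : φ ∈ tp (L := presLang F R) (Fin.append (fun i => (x i : UP u M₀)) fun _ => a) := by
        show φ.Realize default _
        rw [Fin.append_right_eq_snoc]
        exact h
      rw [← htp] at h1
      have h2 : φ.Realize default (Fin.append (fun i => (x i : UP u M₀)) c') := h1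
      rw [Fin.append_right_eq_snoc] at h2
      exact h2)
  refine ⟨E, inferInstance, ?_, ?_, ?_, ?_⟩
  · exact hNc.to_subtype
  · exact E.elementarilyEquivalent.symm.infinite
  · exact (E.theory_model_iff T).2 hU
  · intro m a n p hp
    -- realized in the ultrapower
    have hcp : Countable p := by
      have : Countable ((presLang F R).BoundedFormula Empty (m + n)) := by
        have h1 : Function.Injective (fun φ : (presLang F R).BoundedFormula Empty (m + n) =>
            formulaCode φ) := formulaCode_injective
        exact h1.countable
      infer_instance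
    have hreal : ∀ (φ : (presLang F R).BoundedFormula Empty (m + n)) (c : Fin n → E),
        φ.Realize default (Fin.append a c) ↔
          φ.Realize default (Fin.append (fun i => (a i : UP u M₀)) (fun i => (c i : UP u M₀))) := by
      intro φ c
      have h1 := E.subtype.map_boundedFormula φ default (Fin.append a c)
      have h2 : (E.subtype ∘ (default : Empty → E)) = default := Subsingleton.elim _ _
      have h3 : E.subtype ∘ Fin.append a c =
          Fin.append (fun i => (a i : UP u M₀)) (fun i => (c i : UP u M₀)) := by
        funext i
        refine Fin.addCases (fun j => ?_) (fun j => ?_) i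
        · simp
        · simp
      rw [h2, h3] at h1
      exact h1.symm
    have hfind : ∃ c : Fin n → UP u M₀, ∀ φ ∈ p,
        φ.Realize default (Fin.append (fun i => (a i : UP u M₀)) c) := by
      rcases p.eq_empty_or_nonempty with rfl | hpne
      · exact ⟨fun _ => Classical.arbitrary _, fun φ hφ => absurd hφ (Set.notMem_empty φ)⟩
      · obtain ⟨e, he⟩ := (Set.countable_coe_iff.1 hcp).exists_eq_range hpne
        have hek : ∀ k : ℕ, ∃ c : Fin n → UP u M₀,
            ∀ j < k, (e j).Realize default (Fin.append (fun i => (a i : UP u M₀)) c) := by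
          intro k
          obtain ⟨c, hc⟩ := hp ((Finset.range k).image e) (by
            intro φ hφ
            simp only [Finset.coe_image, Set.mem_image] at hφ
            obtain ⟨j, _, rfl⟩ := hφ
            rw [he]
            exact ⟨j, rfl⟩)
          refine ⟨fun i => (c i : UP u M₀), fun j hj => ?_⟩
          rw [← hreal]
          exact hc _ (Finset.mem_image_of_mem e (Finset.mem_range.2 hj))
        obtain ⟨c, hc⟩ := ultra_realize u hu (fun i => (a i : UP u M₀)) e hek
        refine ⟨c, fun φ hφ => ?_⟩
        rw [he] at hφ
        obtain ⟨j, rfl⟩ := hφ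
        exact hc j
    obtain ⟨c, hc⟩ := hfind
    obtain ⟨c', hc', htp⟩ := hN m (fun i => (a i : UP u M₀)) (fun i => (a i).2) n c
    refine ⟨fun j => ⟨c' j, hc' j⟩, fun φ hφ => ?_⟩
    rw [hreal]
    have h1 : φ ∈ tp (L := presLang F R) (Fin.append (fun i => (a i : UP u M₀)) c) := hc φ hφ
    rw [← htp] at h1
    exact h1

end Pool.Agent.Helper27.Sat
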