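import Mathlib

set_option autoImplicit false

/-! Closure properties of regular languages. -/

namespace Pool.Agent.Helper27

open Computability

variable {α β : Type*}

theorem reg_comap (f : α → Option β) {L : Language β} (h : L.IsRegular) :
    Language.IsRegular (T := α) {w | w.filterMap f ∈ L} := by
  obtain ⟨σ, _, M, hM⟩ := h
  let M' : DFA α σ :=
    ⟨fun s a => (f a).elim s (fun b => M.step s b), M.start, M.accept⟩
  refine ⟨σ, inferInstance, M', ?_⟩
  have key : ∀ (w : List α) (s : σ), M'.evalFrom s w = M.evalFrom s (w.filterMap f) := by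
    intro w
    induction w with
    | nil => intro s; rfl
    | cons a w ih =>
      intro s
      rw [DFA.evalFrom_cons, ih]
      cases hfa : f a with
      | none => simp [M', hfa]
      | some b => simp [M', hfa]
  ext w
  rw [DFA.mem_accepts, DFA.eval, key]
  change _ ↔ w.filterMap f ∈ L
  rw [← hM]
  rfl

theorem reg_mul {L1 L2 : Language α} (h1 : L1.IsRegular) (h2 : L2.IsRegular) :
    (L1 * L2).IsRegular := by
  obtain ⟨σ1, _, M1, hM1⟩ := h1
  obtain ⟨σ2, _, M2, hM2⟩ := h2
  classical
  let M : DFA α (σ1 × Set σ2) :=
    { step := fun s a => (M1.step s.1 a,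
        {t | (∃ t' ∈ s.2, t = M2.step t' a) ∨ (M1.step s.1 a ∈ M1.accept ∧ t = M2.start)}),
      start := (M1.start, {t | M1.start ∈ M1.accept ∧ t = M2.start}),
      accept := {s | ∃ t ∈ s.2, t ∈ M2.accept} }
  have key : ∀ x, M.eval x = (M1.eval x, {t | ∃ y z, x = y ++ z ∧ y ∈ L1 ∧ t = M2.eval z}) := by
    intro x
    induction x using List.reverseRecOn with
    | nil =>
      rw [DFA.eval_nil, DFA.eval_nil]
      refine Prod.ext rfl ?_
      ext t
      simp only [M, Set.mem_ofPred_eq]
      constructor
      · rintro ⟨ha, rfl⟩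
        exact ⟨[], [], rfl, by rw [← hM1]; exact ha, rfl⟩
      · rintro ⟨y, z, hyz, hy, rfl⟩
        obtain ⟨rfl, rfl⟩ := List.append_eq_nil_iff.1 hyz.symm
        rw [← hM1] at hy
        exact ⟨hy, rfl⟩
    | append_singleton x a ih =>
      rw [DFA.eval_append_singleton, DFA.eval_append_singleton, ih]
      refine Prod.ext rfl ?_
      ext t
      simp only [M, Set.mem_ofPred_eq]
      constructor
      · rintro (⟨t', ⟨y, z, rfl, hy, rfl⟩, rfl⟩ | ⟨ha, rfl⟩)
        · exact ⟨y, z ++ [a], by simp, hy, by simp⟩
        · refine ⟨x ++ [a], [], by simp, ?_, rfl⟩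
          rw [← hM1, DFA.mem_accepts, DFA.eval_append_singleton]
          exact ha
      · rintro ⟨y, z, hyz, hy, rfl⟩
        rcases List.eq_nil_or_concat z with rfl | ⟨z', b, rfl⟩
        · right
          rw [List.append_nil] at hyz
          subst hyz
          rw [← hM1, DFA.mem_accepts, DFA.eval_append_singleton] at hy
          exact ⟨hy, rfl⟩
        · left
          rw [List.concat_eq_append, ← List.append_assoc] at hyz
          obtain ⟨h3, h4⟩ := List.append_inj' hyz rfl
          have : a = b := by simpa using h4
          subst this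
          exact ⟨M2.eval z', ⟨y, z', h3, hy, rfl⟩, by simp⟩
  refine ⟨σ1 × Set σ2, inferInstance, M, ?_⟩
  ext x
  rw [DFA.mem_accepts, key, Language.mem_mul]
  constructor
  · rintro ⟨t, ⟨y, z, rfl, hy, rfl⟩, ht⟩
    exact ⟨y, hy, z, by rw [← hM2]; exact ht, rfl⟩
  · rintro ⟨y, hy, z, hz, rfl⟩
    exact ⟨M2.eval z, ⟨y, z, rfl, hy, rfl⟩, by rw [← hM2] at hz; exact hz⟩

theorem reg_iUnion {ι : Type*} [Finite ι] {L : ι → Language α} (h : ∀ i, (L i).IsRegular) :
    Language.IsRegular (T := α) {w | ∃ i, w ∈ L i} := by
  classical
  have := Fintype.ofFinite ι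
  choose σ hσ M hM using h
  let M' : DFA α (∀ i, σ i) :=
    { step := fun s a i => (M i).step (s i) a
      start := fun i => (M i).start
      accept := {s | ∃ i, s i ∈ (M i).accept} }
  have key : ∀ x, M'.eval x = fun i => (M i).eval x := by
    intro x
    induction x using List.reverseRecOn with
    | nil => rfl
    | append_singleton x a ih =>
      rw [DFA.eval_append_singleton, ih]
      funext i
      rw [DFA.eval_append_singleton]
  refine Language.isRegular_iff.2 ⟨∀ i, σ i, inferInstance, M', ?_⟩
  ext x
  rw [DFA.mem_accepts, key]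
  change (∃ i, (M i).eval x ∈ (M i).accept) ↔ ∃ i, x ∈ L i
  apply exists_congr
  intro i
  rw [← hM i]
  rfl

theorem reg_kstar {L : Language α} (h : L.IsRegular) : (L∗).IsRegular := by
  obtain ⟨σ, _, M, hM⟩ := h
  classical
  let M' : DFA α (Set σ × Bool) :=
    { step := fun s a => ({t | (∃ t' ∈ s.1, t = M.step t' a) ∨
          (t = M.start ∧ ∃ t' ∈ s.1, M.step t' a ∈ M.accept)}, false),
      start := ({M.start}, true),
      accept := {s | s.2 = true ∨ ∃ t ∈ s.1, t ∈ M.accept} }
  have star_append : ∀ {y z : List α}, y ∈ L∗ → z ∈ L → y ++ z ∈ L∗ := by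
    intro y z hy hz
    rw [Language.mem_kstar] at hy ⊢
    obtain ⟨S, rfl, hS⟩ := hy
    refine ⟨S ++ [z], by simp, ?_⟩
    intro w hw
    rcases List.mem_append.1 hw with hw | hw
    · exact hS w hw
    · rw [List.mem_singleton] at hw; subst hw; exact hz
  have star_split : ∀ {x : List α}, x ∈ L∗ → x ≠ [] → ∃ y z, x = y ++ z ∧ y ∈ L∗ ∧ z ∈ L ∧ z ≠ [] := by
    intro x hx hx0
    rw [Language.mem_kstar_iff_exists_nonempty] at hx
    obtain ⟨S, rfl, hS⟩ := hx
    rcases List.eq_nil_or_concat S with rfl | ⟨S', z, rfl⟩
    · simp at hx0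
    · refine ⟨S'.flatten, z, by simp, ?_, (hS z (by simp)).1, (hS z (by simp)).2⟩
      rw [Language.mem_kstar]
      exact ⟨S', rfl, fun y hy => (hS y (by simp [hy])).1⟩
  have key : ∀ x, M'.eval x =
      ({t | ∃ y z, x = y ++ z ∧ y ∈ L∗ ∧ t = M.eval z ∧ (x ≠ [] → z = [] → x ∈ L∗)},
        decide (x = [])) := by
    intro x
    induction x using List.reverseRecOn with
    | nil =>
      rw [DFA.eval_nil]
      refine Prod.ext ?_ (by simp [M'])
      ext t
      simp only [M', Set.mem_singleton_iff, Set.mem_ofPred_eq]
      constructor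
      · rintro rfl
        exact ⟨[], [], rfl, Language.nil_mem_kstar L, rfl, fun h => absurd rfl h⟩
      · rintro ⟨y, z, hyz, -, rfl, -⟩
        obtain ⟨rfl, rfl⟩ := List.append_eq_nil_iff.1 hyz.symm
        rfl
    | append_singleton x a ih =>
      rw [DFA.eval_append_singleton, ih]
      refine Prod.ext ?_ (by simp [M'])
      ext t
      simp only [M', Set.mem_ofPred_eq]
      constructor
      · rintro (⟨t', ⟨y, z, hyz, hy, rfl, -⟩, rfl⟩ | ⟨rfl, t', ⟨y, z, hyz, hy, rfl, -⟩, ht⟩)
        · refine ⟨y, z ++ [a], by simp [hyz], hy, by simp, ?_⟩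
          intro _ h; simp at h
        · have hmem : x ++ [a] ∈ L∗ := by
            rw [hyz, List.append_assoc]
            apply star_append hy
            rw [← hM, DFA.mem_accepts, DFA.eval_append_singleton]
            exact ht
          exact ⟨x ++ [a], [], by simp, hmem, rfl, fun _ _ => hmem⟩
      · rintro ⟨y, z, hyz, hy, rfl, hh⟩
        rcases List.eq_nil_or_concat z with rfl | ⟨z', b, rfl⟩
        · right
          refine ⟨rfl, ?_⟩
          have hx : x ++ [a] ∈ L∗ := hh (by simp) rfl
          obtain ⟨y', z', h5, h6, h7, h8⟩ := star_split hx (by simp)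
          rcases List.eq_nil_or_concat z' with rfl | ⟨z'', b, rfl⟩
          · exact absurd rfl h8
          · rw [List.concat_eq_append, ← List.append_assoc] at h5
            obtain ⟨h3, h4⟩ := List.append_inj' h5 rfl
            have : a = b := by simpa using h4
            subst this
            refine ⟨M.eval z'', ⟨y', z'', h3, h6, rfl, ?_⟩, ?_⟩
            · intro _ hz; subst hz; rw [h3]; simpa using h6
            · rw [← hM, List.concat_eq_append, DFA.mem_accepts, DFA.eval_append_singleton] at h7
              exact h7
        · left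
          rw [List.concat_eq_append, ← List.append_assoc] at hyz
          obtain ⟨h3, h4⟩ := List.append_inj' hyz rfl
          have : a = b := by simpa using h4
          subst this
          refine ⟨M.eval z', ⟨y, z', h3, hy, rfl, ?_⟩, by simp⟩
          intro _ hz; subst hz; rw [h3]; simpa using hy
  refine ⟨Set σ × Bool, inferInstance, M', ?_⟩
  ext x
  rw [DFA.mem_accepts, key]
  constructor
  · rintro (h | ⟨t, ⟨y, z, rfl, hy, rfl, -⟩, ht⟩)
    · have : x = [] := by simpa using h
      subst this
      exact Language.nil_mem_kstar L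
    · exact star_append hy (by rw [← hM]; exact ht)
  · intro hx
    by_cases h0 : x = []
    · left; simp [h0]
    · right
      obtain ⟨y, z, rfl, hy, hz, hz0⟩ := star_split hx h0
      refine ⟨M.eval z, ⟨y, z, rfl, hy, rfl, fun _ h => absurd h hz0⟩, ?_⟩
      rw [← hM] at hz
      exact hz

theorem reg_one : (1 : Language α).IsRegular := by
  refine ⟨Bool, inferInstance, ⟨fun _ _ => false, true, {true}⟩, ?_⟩
  ext x
  rw [DFA.mem_accepts, Language.mem_one]
  rcases List.eq_nil_or_concat x with rfl | ⟨y, a, rfl⟩
  · simp
  · rw [List.concat_eq_append, DFA.eval_append_singleton]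
    simp

theorem reg_letter (a : α) : ({[a]} : Language α).IsRegular := by
  classical
  refine ⟨Option Bool, inferInstance,
    ⟨fun s b => if s = some false ∧ b = a then some true else none, some false, {some true}⟩, ?_⟩
  ext x
  rw [DFA.mem_accepts]
  rcases List.eq_nil_or_concat x with rfl | ⟨y, b, rfl⟩
  · simp; intro h; cases h
  · rw [List.concat_eq_append, DFA.eval_append_singleton]
    rcases List.eq_nil_or_concat y with rfl | ⟨z, c, rfl⟩
    · simp only [DFA.eval_nil, true_and]
      constructor
      · intro h
        by_cases hb : b = a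
        · subst hb; exact Set.mem_singleton_iff.2 rfl
        · simp [hb] at h
      · intro h
        have : b = a := by
          have := Set.mem_singleton_iff.1 h
          simpa using this
        simp [this]
    · rw [List.concat_eq_append, DFA.eval_append_singleton]
      constructor
      · intro h
        exfalso
        simp only [Set.mem_singleton_iff] at h
        split_ifs at h with h1 h2 h3 <;> simp_all
      · intro h
        have := congrArg List.length (Set.mem_singleton_iff.1 h)
        simp at this

theorem reg_word (w : List α) : ({w} : Language α).IsRegular := by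
  induction w with
  | nil => exact reg_one
  | cons a w ih =>
    have := reg_mul (reg_letter a) ih
    convert this using 1
    ext x
    rw [Language.mem_mul]
    constructor
    · intro h
      have := Set.mem_singleton_iff.1 h
      exact ⟨[a], rfl, w, rfl, by simp [this]⟩
    · rintro ⟨u, hu, v, hv, rfl⟩
      have h1 := Set.mem_singleton_iff.1 hu
      have h2 := Set.mem_singleton_iff.1 hv
      subst h1; subst h2
      rfl

theorem reg_congr {L L' : Language α} (h : L.IsRegular) (e : ∀ w, w ∈ L ↔ w ∈ L') :
    L'.IsRegular := by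
  have : L = L' := by ext w; exact e w
  rwa [← this]

/-- Words all of whose letters satisfy a predicate. -/
theorem reg_all (p : α → Prop) : Language.IsRegular (T := α) {w | ∀ a ∈ w, p a} := by
  classical
  refine ⟨Bool, inferInstance, ⟨fun s a => s && decide (p a), true, {true}⟩, ?_⟩
  ext x
  rw [DFA.mem_accepts]
  change _ ↔ ∀ a ∈ x, p a
  induction x using List.reverseRecOn with
  | nil => simp
  | append_singleton y b ih =>
    rw [DFA.eval_append_singleton]
    simp only [Set.mem_singleton_iff] at ih ⊢
    simp [ih, or_imp, forall_and]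

end Pool.Agent.Helper27
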