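import Mathlib

set_option autoImplicit false

namespace Pool.Agent.Helper27

/-- `Shuf u v w`: the word `w` is an interleaving of the words `u` and `v`. -/
inductive Shuf {α : Type*} : List α → List α → List α → Prop
  | nil : Shuf [] [] []
  | left (a : α) {u v w : List α} : Shuf u v w → Shuf (a :: u) v (a :: w)
  | right (a : α) {u v w : List α} : Shuf u v w → Shuf u (a :: v) (a :: w)

section basic
variable {α β : Type*}

theorem Shuf.symm {u v w : List α} (h : Shuf u v w) : Shuf v u w := by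
  induction h with
  | nil => exact .nil
  | left a _ ih => exact .right a ih
  | right a _ ih => exact .left a ih

theorem shuf_nil_left {v w : List α} : Shuf [] v w ↔ w = v := by
  constructor
  · intro h
    generalize hu : ([] : List α) = u at h
    induction h with
    | nil => rfl
    | left a _ ih => cases hu
    | right a _ ih => rw [ih hu]
  · rintro rfl
    induction w with
    | nil => exact .nil
    | cons a w ih => exact .right a ih

theorem shuf_nil_right {u w : List α} : Shuf u [] w ↔ w = u :=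
  ⟨fun h => shuf_nil_left.1 h.symm, fun h => (shuf_nil_left.2 h).symm⟩

theorem shuf_nil_iff {u v : List α} : Shuf u v [] ↔ u = [] ∧ v = [] := by
  constructor
  · intro h; cases h; exact ⟨rfl, rfl⟩
  · rintro ⟨rfl, rfl⟩; exact .nil

theorem shuf_append (u v : List α) : Shuf u v (u ++ v) := by
  induction u with
  | nil => exact shuf_nil_left.2 rfl
  | cons a u ih => exact .left a ih

theorem Shuf.filterMap (f : α → Option β) {u v w : List α} (h : Shuf u v w) :
    Shuf (u.filterMap f) (v.filterMap f) (w.filterMap f) := by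
  induction h with
  | nil => exact .nil
  | left a _ ih =>
    simp only [List.filterMap_cons]
    split
    · exact ih
    · exact .left _ ih
  | right a _ ih =>
    simp only [List.filterMap_cons]
    split
    · exact ih
    · exact .right _ ih

theorem Shuf.filter (p : α → Bool) {u v w : List α} (h : Shuf u v w) :
    Shuf (u.filter p) (v.filter p) (w.filter p) := by
  induction h with
  | nil => exact .nil
  | left a _ ih =>
    simp only [List.filter_cons]
    split
    · exact .left _ ih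
    · exact ih
  | right a _ ih =>
    simp only [List.filter_cons]
    split
    · exact .right _ ih
    · exact ih

theorem Shuf.length {u v w : List α} (h : Shuf u v w) : w.length = u.length + v.length := by
  induction h with
  | nil => rfl
  | left a _ ih => simp [ih]; omega
  | right a _ ih => simp [ih]; omega

theorem Shuf.map (f : α → β) {u v w : List α} (h : Shuf u v w) :
    Shuf (u.map f) (v.map f) (w.map f) := by
  induction h with
  | nil => exact .nil
  | left a _ ih => exact .left _ ih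
  | right a _ ih => exact .right _ ih

theorem Shuf.mem {u v w : List α} (h : Shuf u v w) (a : α) : a ∈ w ↔ a ∈ u ∨ a ∈ v := by
  induction h with
  | nil => simp
  | left b _ ih => simp [ih, or_assoc]
  | right b _ ih => simp [ih]; tauto

theorem shuf_filter (p : α → Bool) (w : List α) :
    Shuf (w.filter p) (w.filter (fun a => !p a)) w := by
  induction w with
  | nil => exact .nil
  | cons a w ih =>
    cases h : p a
    · simp only [List.filter_cons, h]
      exact .right _ ih
    · simp only [List.filter_cons, h]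
      exact .left _ ih

theorem shuf_map_inv (f : α → β) {u v : List β} {z : List α} (h : Shuf u v (z.map f)) :
    ∃ u' v' : List α, Shuf u' v' z ∧ u = u'.map f ∧ v = v'.map f := by
  induction z generalizing u v with
  | nil =>
    obtain ⟨rfl, rfl⟩ := shuf_nil_iff.1 h
    exact ⟨[], [], .nil, rfl, rfl⟩
  | cons a z ih =>
    rw [List.map_cons] at h
    cases h with
    | left _ h' =>
      obtain ⟨u', v', h1, rfl, rfl⟩ := ih h'
      exact ⟨a :: u', v', .left a h1, rfl, rfl⟩
    | right _ h' =>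
      obtain ⟨u', v', h1, rfl, rfl⟩ := ih h'
      exact ⟨u', a :: v', .right a h1, rfl, rfl⟩

/-- The interleaving relation in the form used by the frozen statement. -/
theorem shuf_iff_mask {u v w : List α} :
    Shuf u v w ↔ ∃ m : List Bool, m.length = w.length ∧
      ((w.zip m).filter (fun x => x.2)).map Prod.fst = u ∧
      ((w.zip m).filter (fun x => !x.2)).map Prod.fst = v := by
  constructor
  · intro h
    induction h with
    | nil => exact ⟨[], rfl, rfl, rfl⟩
    | left a _ ih =>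
      obtain ⟨m, h1, h2, h3⟩ := ih
      exact ⟨true :: m, by simp [h1], by simp [h2], by simp [h3]⟩
    | right a _ ih =>
      obtain ⟨m, h1, h2, h3⟩ := ih
      exact ⟨false :: m, by simp [h1], by simp [h2], by simp [h3]⟩
  · rintro ⟨m, h1, h2, h3⟩
    induction w generalizing u v m with
    | nil =>
      simp at h2 h3
      subst h2; subst h3
      exact .nil
    | cons a w ih =>
      cases m with
      | nil => simp at h1
      | cons b m =>
        cases b
        · simp at h1 h2 h3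
          subst h2; subst h3
          exact .right a (ih m h1 (by simp) (by simp))
        · simp at h1 h2 h3
          subst h2; subst h3
          exact .left a (ih m h1 (by simp) (by simp))

end basic

/-- The letters of the big alphabet: two `P` letters, two `Q` letters, and the base letters. -/
inductive Lt (β : Type*)
  | P (b : Bool)
  | Q (b : Bool)
  | N (x : β)

namespace Lt
variable {β : Type*}

/-- The `P` content of a letter. -/
def pl : Lt β → Option Bool
  | P b => some b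
  | Q _ => none
  | N _ => none

/-- The `Q` content of a letter. -/
def ql : Lt β → Option Bool
  | P _ => none
  | Q b => some b
  | N _ => none

/-- The base content of a letter. -/
def nl : Lt β → Option β
  | P _ => none
  | Q _ => none
  | N x => some x

@[simp] theorem pl_P (b : Bool) : pl (P b : Lt β) = some b := rfl
@[simp] theorem pl_Q (b : Bool) : pl (Q b : Lt β) = none := rfl
@[simp] theorem pl_N (x : β) : pl (N x : Lt β) = none := rfl
@[simp] theorem ql_P (b : Bool) : ql (P b : Lt β) = none := rfl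
@[simp] theorem ql_Q (b : Bool) : ql (Q b : Lt β) = some b := rfl
@[simp] theorem ql_N (x : β) : ql (N x : Lt β) = none := rfl
@[simp] theorem nl_P (b : Bool) : nl (P b : Lt β) = none := rfl
@[simp] theorem nl_Q (b : Bool) : nl (Q b : Lt β) = none := rfl
@[simp] theorem nl_N (x : β) : nl (N x : Lt β) = some x := rfl

theorem cpP (b : Bool) (w : List (Lt β)) : (P b :: w).filterMap pl = b :: w.filterMap pl := rfl
theorem cpQ (b : Bool) (w : List (Lt β)) : (Q b :: w).filterMap pl = w.filterMap pl := rfl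
theorem cpN (b : β) (w : List (Lt β)) : (N b :: w).filterMap pl = w.filterMap pl := rfl
theorem cqP (b : Bool) (w : List (Lt β)) : (P b :: w).filterMap ql = w.filterMap ql := rfl
theorem cqQ (b : Bool) (w : List (Lt β)) : (Q b :: w).filterMap ql = b :: w.filterMap ql := rfl
theorem cqN (b : β) (w : List (Lt β)) : (N b :: w).filterMap ql = w.filterMap ql := rfl
theorem cnP (b : Bool) (w : List (Lt β)) : (P b :: w).filterMap nl = w.filterMap nl := rfl
theorem cnQ (b : Bool) (w : List (Lt β)) : (Q b :: w).filterMap nl = w.filterMap nl := rfl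
theorem cnN (b : β) (w : List (Lt β)) : (N b :: w).filterMap nl = b :: w.filterMap nl := rfl

theorem pl_map_N (z : List β) : (z.map N).filterMap pl = [] := by
  induction z with
  | nil => rfl
  | cons a z ih => rw [List.map_cons, cpN, ih]

theorem ql_map_N (z : List β) : (z.map N).filterMap ql = [] := by
  induction z with
  | nil => rfl
  | cons a z ih => rw [List.map_cons, cqN, ih]

theorem nl_map_N (z : List β) : (z.map N).filterMap nl = z := by
  induction z with
  | nil => rfl
  | cons a z ih => rw [List.map_cons, cnN, ih]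

theorem eq_nil_of {w : List (Lt β)} (h1 : w.filterMap pl = []) (h2 : w.filterMap ql = [])
    (h3 : w.filterMap nl = []) : w = [] := by
  cases w with
  | nil => rfl
  | cons a w =>
    cases a with
    | P b => simp [cpP] at h1
    | Q b => simp [cqQ] at h2
    | N b => simp [cnN] at h3

theorem lift {w : List (Lt β)} {u' v' : List β} (h : Shuf u' v' (w.filterMap nl)) :
    ∃ u v : List (Lt β), Shuf u v w ∧ u.filterMap nl = u' ∧ v.filterMap nl = v' ∧
      u.filterMap pl = w.filterMap pl ∧ u.filterMap ql = [] ∧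
      v.filterMap pl = [] ∧ v.filterMap ql = w.filterMap ql := by
  induction w generalizing u' v' with
  | nil =>
    obtain ⟨rfl, rfl⟩ := shuf_nil_iff.1 h
    exact ⟨[], [], .nil, rfl, rfl, rfl, rfl, rfl, rfl⟩
  | cons a w ih =>
    cases a with
    | P b =>
      rw [cnP] at h
      obtain ⟨u, v, h1, h2, h3, h4, h5, h6, h7⟩ := ih h
      exact ⟨P b :: u, v, .left _ h1, by rw [cnP, h2], h3, by rw [cpP, cpP, h4],
        by rw [cqP, h5], h6, by rw [cqP, h7]⟩
    | Q b =>
      rw [cnQ] at h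
      obtain ⟨u, v, h1, h2, h3, h4, h5, h6, h7⟩ := ih h
      exact ⟨u, Q b :: v, .right _ h1, h2, by rw [cnQ, h3], by rw [cpQ, h4], h5,
        by rw [cpQ, h6], by rw [cqQ, cqQ, h7]⟩
    | N x =>
      rw [cnN] at h
      cases h with
      | left _ h'' =>
        obtain ⟨u, v, h1, h2, h3, h4, h5, h6, h7⟩ := ih h''
        exact ⟨N x :: u, v, .left _ h1, by rw [cnN, h2], h3, by rw [cpN, cpN, h4],
          by rw [cqN, h5], h6, by rw [cqN, h7]⟩
      | right _ h'' =>
        obtain ⟨u, v, h1, h2, h3, h4, h5, h6, h7⟩ := ih h''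
        exact ⟨u, N x :: v, .right _ h1, h2, by rw [cnN, h3], by rw [cpN, h4], h5,
          by rw [cpN, h6], by rw [cqN, cqN, h7]⟩

end Lt

/-- The data of the construction: markers, the letter `e`, two hub markers, the vertex words
and the forbidden words. -/
structure Core (β : Type*) where
  mark : β → Bool
  e : β
  m1 : β
  m2 : β
  V : Set (List β)
  Bad : Set (List β)
  he : mark e = false
  hm1 : mark m1 = true
  hm2 : mark m2 = true
  hne : m1 ≠ m2
  hV1 : ∀ v ∈ V, (v.filter mark).length = 1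
  hVm : ∀ m, mark m = true → [m] ∈ V
  hV1e : [m1, e] ∈ V
  hV2e : [m2, e] ∈ V
  hVe : ∀ v ∈ V, v.filter (fun a => !mark a) = [e] → v = [m1, e] ∨ v = [m2, e]
  hBad0 : ∀ b ∈ Bad, b.filter (fun a => !mark a) ≠ []
  hBade : ∀ b ∈ Bad, b.filter (fun a => !mark a) ≠ [e]
  hBadm : ∀ m, mark m = true → ∀ v ∈ V, ∀ b ∈ Bad, ¬ Shuf [m] v b

namespace Core
variable {β : Type*} (D : Core β)

/-- Number of markers. -/
def cnt (z : List β) : ℕ := (z.filter D.mark).length

/-- The non-marker letters of a word. -/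
def nm (z : List β) : List β := z.filter (fun a => !D.mark a)

theorem cnt_shuf {u v w : List β} (h : Shuf u v w) : D.cnt w = D.cnt u + D.cnt v :=
  (h.filter D.mark).length

theorem nm_shuf {u v w : List β} (h : Shuf u v w) : Shuf (D.nm u) (D.nm v) (D.nm w) :=
  h.filter _

theorem cnt_nil : D.cnt [] = 0 := rfl

theorem cnt_V {v : List β} (h : v ∈ D.V) : D.cnt v = 1 := D.hV1 v h

/-- The main language. -/
def Z : Set (List β) :=
  {z | z = [] ∨ z ∈ D.V ∨ (D.cnt z = 2 ∧ z ∉ D.Bad) ∨ 3 ≤ D.cnt z}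

/-- Words without markers, other than `e`. -/
def Y : Set (List β) := {z | D.cnt z = 0 ∧ z ≠ [D.e]}

/-- The four component languages. -/
def Zf : Bool → Bool → Set (List β)
  | true, true => D.Z
  | true, false => {z | D.nm z ≠ [D.e] ∨ z = [D.m1, D.e] ∨ (D.nm z = [D.e] ∧ 2 ≤ D.cnt z)}
  | false, true => {z | D.nm z ≠ [D.e] ∨ z = [D.m2, D.e] ∨ (D.nm z = [D.e] ∧ 2 ≤ D.cnt z)}
  | false, false => D.Y

/-- The language whose decompositions are analysed. -/
def R : Set (List (Lt β)) :=
  {w | ∃ b c, w.filterMap Lt.pl = [b] ∧ w.filterMap Lt.ql = [c] ∧ w.filterMap Lt.nl ∈ D.Zf b c}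

theorem mem_R {w : List (Lt β)} {b c : Bool} (hb : w.filterMap Lt.pl = [b])
    (hc : w.filterMap Lt.ql = [c]) : w ∈ D.R ↔ w.filterMap Lt.nl ∈ D.Zf b c := by
  constructor
  · rintro ⟨b', c', hb', hc', h⟩
    rw [hb] at hb'; rw [hc] at hc'
    cases hb'; cases hc'
    exact h
  · intro h
    exact ⟨b, c, hb, hc, h⟩

theorem nil_mem_Z : [] ∈ D.Z := Or.inl rfl

theorem nil_mem_Y : [] ∈ D.Y := ⟨rfl, by simp⟩

theorem eq_nil_of_Z {z : List β} (h : z ∈ D.Z) (h0 : D.cnt z = 0) : z = [] := by
  rcases h with h | h | h | h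
  · exact h
  · have := D.cnt_V h; omega
  · omega
  · omega

theorem bad_not_Z {u v b : List β} (hu : u ∈ D.V) (hv : v ∈ D.V) (hb : b ∈ D.Bad)
    (h : Shuf u v b) : b ∉ D.Z := by
  have hc : D.cnt b = 2 := by
    rw [D.cnt_shuf h, D.cnt_V hu, D.cnt_V hv]
  rintro (h' | h' | h' | h')
  · rw [h', D.cnt_nil] at hc; omega
  · rw [D.cnt_V h'] at hc; omega
  · exact h'.2 hb
  · omega

/-- A set of vertex words closed under edges and separating the two hubs. -/
def Sep (C : Set (List β)) : Prop :=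
  (∀ u ∈ D.V, ∀ v ∈ D.V, ∀ b ∈ D.Bad, Shuf u v b → (u ∈ C ↔ v ∈ C)) ∧
    [D.m1, D.e] ∉ C ∧ [D.m2, D.e] ∈ C

/-- `L1` and `L2` decompose the language `R`. -/
def Dec (L1 L2 : Set (List (Lt β))) : Prop :=
  ∀ w, w ∈ D.R ↔ ∃ u ∈ L1, ∃ v ∈ L2, Shuf u v w

theorem Dec.symm {L1 L2 : Set (List (Lt β))} (h : D.Dec L1 L2) : D.Dec L2 L1 := by
  intro w
  rw [h w]
  constructor
  · rintro ⟨u, hu, v, hv, hs⟩; exact ⟨v, hv, u, hu, hs.symm⟩
  · rintro ⟨u, hu, v, hv, hs⟩; exact ⟨v, hv, u, hu, hs.symm⟩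

theorem PQ_mem : [Lt.P true, Lt.Q true] ∈ D.R :=
  ⟨true, true, rfl, rfl, D.nil_mem_Z⟩

theorem PQ_mem' : [Lt.P false, Lt.Q false] ∈ D.R :=
  ⟨false, false, rfl, rfl, D.nil_mem_Y⟩

theorem shuf_pair {α : Type*} {u v : List α} {a b : α} (h : Shuf u v [a, b]) :
    (u = [a, b] ∧ v = []) ∨ (u = [a] ∧ v = [b]) ∨ (u = [b] ∧ v = [a]) ∨ (u = [] ∧ v = [a, b]) := by
  cases h with
  | left _ h =>
    cases h with
    | left _ h => obtain ⟨rfl, rfl⟩ := shuf_nil_iff.1 h; simp
    | right _ h => obtain ⟨rfl, rfl⟩ := shuf_nil_iff.1 h; simp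
  | right _ h =>
    cases h with
    | left _ h => obtain ⟨rfl, rfl⟩ := shuf_nil_iff.1 h; simp
    | right _ h => obtain ⟨rfl, rfl⟩ := shuf_nil_iff.1 h; simp

theorem Dec.mem {L1 L2 : Set (List (Lt β))} (h : D.Dec L1 L2) {u v w : List (Lt β)}
    (hu : u ∈ L1) (hv : v ∈ L2) (hs : Shuf u v w) : w ∈ D.R :=
  (h w).2 ⟨u, hu, v, hv, hs⟩

theorem triv {L1 L2 : Set (List (Lt β))} (h : D.Dec L1 L2)
    (h1 : [Lt.P true, Lt.Q true] ∈ L1) (h2 : [] ∈ L2) : L2 = {[]} := by
  have key : ∀ v ∈ L2, v.filterMap Lt.pl = [] ∧ v.filterMap Lt.ql = [] := by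
    intro v hv
    obtain ⟨b, c, hb, hc, -⟩ := h.mem D h1 hv (shuf_append _ _)
    constructor
    · rw [List.cons_append, List.cons_append, List.nil_append, Lt.cpP, Lt.cpQ] at hb
      exact (List.cons.inj hb).2
    · rw [List.cons_append, List.cons_append, List.nil_append, Lt.cqP, Lt.cqQ] at hc
      exact (List.cons.inj hc).2
  have h3 : [Lt.P false, Lt.Q false] ∈ L1 := by
    obtain ⟨u, hu, v, hv, hs⟩ := (h _).1 D.PQ_mem'
    obtain ⟨k1, k2⟩ := key v hv
    rcases shuf_pair hs with ⟨rfl, rfl⟩ | ⟨rfl, rfl⟩ | ⟨rfl, rfl⟩ | ⟨rfl, rfl⟩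
    · exact hu
    · simp [Lt.cqQ] at k2
    · simp [Lt.cpP] at k1
    · simp [Lt.cpP] at k1
  apply Set.eq_singleton_iff_unique_mem.2 ⟨h2, ?_⟩
  intro v hv
  obtain ⟨k1, k2⟩ := key v hv
  have e1 : v.filterMap Lt.nl ∈ D.Z := by
    have := h.mem D h1 hv (shuf_append _ _)
    rw [List.cons_append, List.cons_append, List.nil_append,
      D.mem_R (b := true) (c := true) (by rw [Lt.cpP, Lt.cpQ, k1]) (by rw [Lt.cqP, Lt.cqQ, k2]),
      Lt.cnP, Lt.cnQ] at this
    exact this
  have e2 : v.filterMap Lt.nl ∈ D.Y := by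
    have := h.mem D h3 hv (shuf_append _ _)
    rw [List.cons_append, List.cons_append, List.nil_append,
      D.mem_R (b := false) (c := false) (by rw [Lt.cpP, Lt.cpQ, k1]) (by rw [Lt.cqP, Lt.cqQ, k2]),
      Lt.cnP, Lt.cnQ] at this
    exact this
  exact Lt.eq_nil_of k1 k2 (D.eq_nil_of_Z e1 e2.1)

theorem main_case {L1 L2 : Set (List (Lt β))} (h : D.Dec L1 L2)
    (h1 : [Lt.P true] ∈ L1) (h2 : [Lt.Q true] ∈ L2) : ∃ C, D.Sep C := by
  have key1 : ∀ u ∈ L1, (u.filterMap Lt.pl).length = 1 ∧ u.filterMap Lt.ql = [] := by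
    intro u hu
    obtain ⟨b, c, hb, hc, -⟩ := h.mem D hu h2 (shuf_append _ _)
    rw [List.filterMap_append] at hb hc
    constructor
    · rw [Lt.cpQ, List.filterMap_nil, List.append_nil] at hb
      rw [hb]; rfl
    · rw [Lt.cqQ, List.filterMap_nil] at hc
      have := congrArg List.length hc
      rw [List.length_append] at this
      simp only [List.length_cons, List.length_nil] at this
      exact List.length_eq_zero_iff.1 (by omega)
  have key2 : ∀ v ∈ L2, v.filterMap Lt.pl = [] ∧ (v.filterMap Lt.ql).length = 1 := by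
    intro u hu
    obtain ⟨b, c, hb, hc, -⟩ := h.mem D h1 hu (shuf_append _ _)
    rw [List.cons_append, List.nil_append] at hb hc
    constructor
    · rw [Lt.cpP] at hb
      exact (List.cons.inj hb).2
    · rw [Lt.cqP] at hc
      rw [hc]; rfl
  have h3 : [Lt.P false] ∈ L1 ∧ [Lt.Q false] ∈ L2 := by
    obtain ⟨u, hu, v, hv, hs⟩ := (h _).1 D.PQ_mem'
    obtain ⟨k1, k2⟩ := key1 u hu
    rcases shuf_pair hs with ⟨rfl, rfl⟩ | ⟨rfl, rfl⟩ | ⟨rfl, rfl⟩ | ⟨rfl, rfl⟩
    · simp [Lt.cqQ, Lt.cqP] at k2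
    · exact ⟨hu, hv⟩
    · simp [Lt.cpQ] at k1
    · simp at k1
  -- splitting a word that starts with a `P` letter and a `Q` letter
  have split : ∀ (b c : Bool) (z : List β), z ∈ D.Zf b c →
      ∃ u v : List β, Lt.P b :: u.map Lt.N ∈ L1 ∧ Lt.Q c :: v.map Lt.N ∈ L2 ∧ Shuf u v z := by
    intro b c z hz
    have hw : Lt.P b :: Lt.Q c :: z.map Lt.N ∈ D.R := by
      refine ⟨b, c, by rw [Lt.cpP, Lt.cpQ, Lt.pl_map_N], by rw [Lt.cqP, Lt.cqQ, Lt.ql_map_N], ?_⟩
      rw [Lt.cnP, Lt.cnQ, Lt.nl_map_N]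
      exact hz
    obtain ⟨u, hu, v, hv, hs⟩ := (h _).1 hw
    cases hs with
    | right _ hs =>
      have := (key2 _ hv).1
      simp [Lt.cpP] at this
    | left _ hs =>
      cases hs with
      | left _ hs =>
        have := (key1 _ hu).2
        simp [Lt.cqQ, Lt.cqP] at this
      | right _ hs =>
        obtain ⟨u', v', h5, rfl, rfl⟩ := shuf_map_inv _ hs
        exact ⟨u', v', hu, hv, h5⟩
  have join : ∀ (b c : Bool) (u v z : List β), Lt.P b :: u.map Lt.N ∈ L1 →
      Lt.Q c :: v.map Lt.N ∈ L2 → Shuf u v z → z ∈ D.Zf b c := by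
    intro b c u v z hu hv hs
    have : Lt.P b :: Lt.Q c :: z.map Lt.N ∈ D.R :=
      h.mem D hu hv (.left _ (.right _ (hs.map _)))
    rw [D.mem_R (b := b) (c := c) (by rw [Lt.cpP, Lt.cpQ, Lt.pl_map_N])
      (by rw [Lt.cqP, Lt.cqQ, Lt.ql_map_N]), Lt.cnP, Lt.cnQ, Lt.nl_map_N] at this
    exact this
  -- the two factor languages of `Z`
  have nil1 : Lt.P true :: ([] : List β).map Lt.N ∈ L1 := by simpa using h1
  have nil2 : Lt.Q true :: ([] : List β).map Lt.N ∈ L2 := by simpa using h2
  have nil3 : Lt.P false :: ([] : List β).map Lt.N ∈ L1 := by simpa using h3.1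
  have nil4 : Lt.Q false :: ([] : List β).map Lt.N ∈ L2 := by simpa using h3.2
  have sub1 : ∀ u : List β, Lt.P true :: u.map Lt.N ∈ L1 → u ∈ D.Z := fun u hu =>
    join true true u [] u hu nil2 (shuf_nil_right.2 rfl)
  have sub2 : ∀ u : List β, Lt.Q true :: u.map Lt.N ∈ L2 → u ∈ D.Z := fun u hu =>
    join true true [] u u nil1 hu (shuf_nil_left.2 rfl)
  have cover : ∀ v ∈ D.V, Lt.P true :: v.map Lt.N ∈ L1 ∨ Lt.Q true :: v.map Lt.N ∈ L2 := by
    intro v hv
    obtain ⟨a, b, ha, hb, hs⟩ := split true true v (Or.inr (Or.inl hv))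
    have hc := D.cnt_shuf hs
    rw [D.cnt_V hv] at hc
    rcases Nat.eq_zero_or_pos (D.cnt a) with h0 | h0
    · have := D.eq_nil_of_Z (sub1 a ha) h0
      subst this
      right
      rwa [shuf_nil_left.1 hs]
    · have := D.eq_nil_of_Z (sub2 b hb) (by omega)
      subst this
      left
      rwa [shuf_nil_right.1 hs]
  have e1 : Lt.P true :: [D.m1, D.e].map Lt.N ∈ L1 := by
    obtain ⟨a, b, ha, hb, hs⟩ := split true false [D.m1, D.e] (Or.inr (Or.inl rfl))
    have hbY : b ∈ D.Y := join false false [] b b nil3 hb (shuf_nil_left.2 rfl)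
    rcases shuf_pair hs with ⟨rfl, rfl⟩ | ⟨rfl, rfl⟩ | ⟨rfl, rfl⟩ | ⟨rfl, rfl⟩
    · exact ha
    · exact absurd rfl hbY.2
    · have := hbY.1; simp [cnt, D.hm1] at this
    · have := hbY.1; simp [cnt, D.hm1] at this
  have e2 : Lt.Q true :: [D.m2, D.e].map Lt.N ∈ L2 := by
    obtain ⟨a, b, ha, hb, hs⟩ := split false true [D.m2, D.e] (Or.inr (Or.inl rfl))
    have hbY : a ∈ D.Y := join false false a [] a ha nil4 (shuf_nil_right.2 rfl)
    rcases shuf_pair hs with ⟨rfl, rfl⟩ | ⟨rfl, rfl⟩ | ⟨rfl, rfl⟩ | ⟨rfl, rfl⟩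
    · have := hbY.1; simp [cnt, D.hm2] at this
    · have := hbY.1; simp [cnt, D.hm2] at this
    · exact absurd rfl hbY.2
    · exact hb
  have e3 : Lt.Q true :: [D.m1, D.e].map Lt.N ∉ L2 := by
    intro hmem
    have := join false true [] [D.m1, D.e] [D.m1, D.e] nil3 hmem (shuf_nil_left.2 rfl)
    rcases this with h' | h' | h'
    · apply h'; simp [nm, D.hm1, D.he]
    · simp at h'; exact D.hne h'
    · have := h'.2; simp [cnt, D.hm1, D.he] at this
  refine ⟨{z | Lt.Q true :: z.map Lt.N ∈ L2}, ?_, e3, e2⟩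
  intro u hu v hv b hb hs
  have nz := D.bad_not_Z hu hv hb hs
  constructor
  · intro hu2
    rcases cover v hv with hv1 | hv2
    · exact absurd (join true true v u b hv1 hu2 hs.symm) nz
    · exact hv2
  · intro hv2
    rcases cover u hu with hu1 | hu2
    · exact absurd (join true true u v b hu1 hv2 hs) nz
    · exact hu2

theorem forward {L1 L2 : Set (List (Lt β))} (h : D.Dec L1 L2) (h1 : L1 ≠ {[]}) (h2 : L2 ≠ {[]}) :
    ∃ C, D.Sep C := by
  obtain ⟨u, hu, v, hv, hs⟩ := (h _).1 D.PQ_mem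
  rcases shuf_pair hs with ⟨rfl, rfl⟩ | ⟨rfl, rfl⟩ | ⟨rfl, rfl⟩ | ⟨rfl, rfl⟩
  · exact absurd (D.triv h hu hv) h2
  · exact D.main_case h hu hv
  · exact D.main_case (h.symm D) hv hu
  · exact absurd (D.triv (h.symm D) hv hu) h1

/-- The factor languages used for the converse. -/
def A (C : Set (List β)) : Bool → Set (List β)
  | true => {z | z = [] ∨ (z ∈ D.V ∧ (z ∉ C ∨ ∃ m, z = [m])) ∨ (D.cnt z = 2 ∧ z ∉ D.Bad) ∨
      3 ≤ D.cnt z}
  | false => D.Y

theorem A_sub_Z (C : Set (List β)) {z : List β} (h : z ∈ D.A C true) : z ∈ D.Z := by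
  rcases h with h | h | h | h
  · exact Or.inl h
  · exact Or.inr (Or.inl h.1)
  · exact Or.inr (Or.inr (Or.inl h))
  · exact Or.inr (Or.inr (Or.inr h))

theorem shuf_Y {u v w : List β} (hu : u ∈ D.Y) (hv : v ∈ D.Y) (h : Shuf u v w) : w ∈ D.Y := by
  refine ⟨by rw [D.cnt_shuf h, hu.1, hv.1], ?_⟩
  rintro rfl
  cases h with
  | left _ h => obtain ⟨rfl, rfl⟩ := shuf_nil_iff.1 h; exact hu.2 rfl
  | right _ h => obtain ⟨rfl, rfl⟩ := shuf_nil_iff.1 h; exact hv.2 rfl

theorem markers_mem_A (C : Set (List β)) (z : List β) (h : D.nm z = []) : z ∈ D.A C true := by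
  have hz : z.filter D.mark = z := by
    rw [List.filter_eq_self]
    intro a ha
    by_contra hne
    have : a ∈ D.nm z := by
      simp only [nm, List.mem_filter]
      exact ⟨ha, by simpa using hne⟩
    rw [h] at this
    simp at this
  have hc : D.cnt z = z.length := by rw [cnt, hz]
  rcases z with _ | ⟨a, _ | ⟨b, _ | ⟨c, z⟩⟩⟩
  · exact Or.inl rfl
  · refine Or.inr (Or.inl ⟨D.hVm a ?_, Or.inr ⟨a, rfl⟩⟩)
    by_contra hne
    simp at hne
    simp [nm, hne] at h
  · refine Or.inr (Or.inr (Or.inl ⟨by simpa using hc, ?_⟩))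
    intro hb
    exact D.hBad0 _ hb h
  · refine Or.inr (Or.inr (Or.inr ?_))
    rw [hc]; simp

theorem nm_filter_mark (z : List β) : D.nm (z.filter D.mark) = [] := by
  simp [nm, List.filter_filter]

theorem cnt_nm (z : List β) : D.cnt (D.nm z) = 0 := by
  simp [nm, cnt, List.filter_filter]

/-- mixed products: a separated language times the marker-free words. -/
theorem mixed (C : Set (List β)) (m m' : β) (hm : [m, D.e] ∈ D.V) (hmC : [m, D.e] ∉ C)
    (hm' : [m', D.e] ∈ C)
    (hVe : ∀ v ∈ D.V, D.nm v = [D.e] → v = [m, D.e] ∨ v = [m', D.e]) (hme : D.mark m = true)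
    (z : List β) :
    (D.nm z ≠ [D.e] ∨ z = [m, D.e] ∨ (D.nm z = [D.e] ∧ 2 ≤ D.cnt z)) ↔
      ∃ u ∈ D.A C true, ∃ v ∈ D.Y, Shuf u v z := by
  constructor
  · intro h
    by_cases hz : D.nm z = [D.e]
    · have : z = [m, D.e] ∨ 2 ≤ D.cnt z := by
        rcases h with h | h | h
        · exact absurd hz h
        · exact Or.inl h
        · exact Or.inr h.2
      refine ⟨z, ?_, [], D.nil_mem_Y, shuf_nil_right.2 rfl⟩
      rcases this with rfl | h2
      · exact Or.inr (Or.inl ⟨hm, Or.inl hmC⟩)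
      · rcases Nat.lt_or_ge 2 (D.cnt z) with h3 | h3
        · exact Or.inr (Or.inr (Or.inr h3))
        · refine Or.inr (Or.inr (Or.inl ⟨by omega, ?_⟩))
          intro hb
          exact D.hBade _ hb hz
    · refine ⟨z.filter D.mark, D.markers_mem_A C _ (D.nm_filter_mark z), D.nm z,
        ⟨D.cnt_nm z, hz⟩, shuf_filter _ _⟩
  · rintro ⟨u, hu, v, hv, hs⟩
    by_cases hz : D.nm z = [D.e]
    · have h1 := D.nm_shuf hs
      have hv' : D.nm v = v := by
        simp only [nm, List.filter_eq_self]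
        intro a ha
        by_contra hne
        have : a ∈ v.filter D.mark := by
          simp only [List.mem_filter]; exact ⟨ha, by simpa using hne⟩
        have h0 := hv.1
        simp only [cnt, List.length_eq_zero_iff] at h0
        rw [h0] at this
        simp at this
      rw [hz, hv'] at h1
      have hv0 : v = [] := by
        generalize D.nm u = u' at h1
        cases h1 with
        | left _ h => exact (shuf_nil_iff.1 h).2
        | right _ h =>
          obtain ⟨h3, rfl⟩ := shuf_nil_iff.1 h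
          exact absurd rfl hv.2
      subst hv0
      rw [shuf_nil_right] at hs
      subst hs
      rcases hu with h | h | h | h
      · subst h; simp [nm] at hz
      · rcases hVe _ h.1 hz with h' | h'
        · exact Or.inr (Or.inl h')
        · rcases h.2 with h'' | ⟨a, h''⟩
          · rw [h'] at h''; exact absurd hm' h''
          · rw [h''] at h'; simp at h'
      · exact Or.inr (Or.inr ⟨hz, by omega⟩)
      · exact Or.inr (Or.inr ⟨hz, by omega⟩)
    · exact Or.inl hz

theorem Z_iff {C : Set (List β)} (hC : D.Sep C) (z : List β) :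
    z ∈ D.Z ↔ ∃ u ∈ D.A C true, ∃ v ∈ D.A Cᶜ true, Shuf u v z := by
  constructor
  · rintro (h | h | h | h)
    · subst h
      exact ⟨[], Or.inl rfl, [], Or.inl rfl, .nil⟩
    · by_cases hz : z ∈ C
      · exact ⟨[], Or.inl rfl, z, Or.inr (Or.inl ⟨h, Or.inl (by simpa using hz)⟩),
          shuf_nil_left.2 rfl⟩
      · exact ⟨z, Or.inr (Or.inl ⟨h, Or.inl hz⟩), [], Or.inl rfl, shuf_nil_right.2 rfl⟩
    · exact ⟨z, Or.inr (Or.inr (Or.inl h)), [], Or.inl rfl, shuf_nil_right.2 rfl⟩
    · exact ⟨z, Or.inr (Or.inr (Or.inr h)), [], Or.inl rfl, shuf_nil_right.2 rfl⟩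
  · rintro ⟨u, hu, v, hv, hs⟩
    have huZ := D.A_sub_Z _ hu
    have hvZ := D.A_sub_Z _ hv
    have hc := D.cnt_shuf hs
    by_cases hu0 : D.cnt u = 0
    · have := D.eq_nil_of_Z huZ hu0
      subst this
      rw [shuf_nil_left.1 hs]; exact hvZ
    by_cases hv0 : D.cnt v = 0
    · have := D.eq_nil_of_Z hvZ hv0
      subst this
      rw [shuf_nil_right.1 hs]; exact huZ
    by_cases h3 : 3 ≤ D.cnt z
    · exact Or.inr (Or.inr (Or.inr h3))
    have hu1 : D.cnt u = 1 := by omega
    have hv1 : D.cnt v = 1 := by omega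
    refine Or.inr (Or.inr (Or.inl ⟨by omega, ?_⟩))
    intro hb
    have hu' : u ∈ D.V ∧ (u ∉ C ∨ ∃ m, u = [m]) := by
      rcases hu with h | h | h | h
      · subst h; exact absurd rfl hu0
      · exact h
      · omega
      · omega
    have hv' : v ∈ D.V ∧ (v ∈ C ∨ ∃ m, v = [m]) := by
      rcases hv with h | h | h | h
      · subst h; exact absurd rfl hv0
      · exact ⟨h.1, h.2.imp (fun h => by simpa using h) id⟩
      · omega
      · omega
    have hmk : ∀ m : β, [m] ∈ D.V → D.mark m = true := by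
      intro m hm
      have := D.cnt_V hm
      by_contra hne
      simp at hne
      simp [cnt, hne] at this
    rcases hu'.2 with hu2 | ⟨m, rfl⟩
    · rcases hv'.2 with hv2 | ⟨m, rfl⟩
      · exact hu2 ((hC.1 u hu'.1 v hv'.1 z hb hs).2 hv2)
      · exact D.hBadm m (hmk m hv'.1) u hu'.1 z hb hs.symm
    · exact D.hBadm m (hmk m hu'.1) v hv'.1 z hb hs

theorem Zf_iff {C : Set (List β)} (hC : D.Sep C) (b c : Bool) (z : List β) :
    z ∈ D.Zf b c ↔ ∃ u ∈ D.A C b, ∃ v ∈ D.A Cᶜ c, Shuf u v z := by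
  cases b <;> cases c
  · constructor
    · intro h
      exact ⟨z, h, [], D.nil_mem_Y, shuf_nil_right.2 rfl⟩
    · rintro ⟨u, hu, v, hv, hs⟩
      exact D.shuf_Y hu hv hs
  · have := D.mixed Cᶜ D.m2 D.m1 D.hV2e (by simpa using hC.2.2) (by simpa using hC.2.1)
      (fun v hv hn => (D.hVe v hv hn).symm) D.hm2 z
    constructor
    · intro h
      obtain ⟨u, hu, v, hv, hs⟩ := this.1 h
      exact ⟨v, hv, u, hu, hs.symm⟩
    · rintro ⟨u, hu, v, hv, hs⟩
      exact this.2 ⟨v, hv, u, hu, hs.symm⟩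
  · exact D.mixed C D.m1 D.m2 D.hV1e hC.2.1 hC.2.2 (fun v hv hn => D.hVe v hv hn) D.hm1 z
  · exact D.Z_iff hC z

theorem backward {C : Set (List β)} (hC : D.Sep C) :
    ∃ L1 L2 : Set (List (Lt β)), L1 ≠ {[]} ∧ L2 ≠ {[]} ∧ D.Dec L1 L2 := by
  refine ⟨{u | u.filterMap Lt.ql = [] ∧ ∃ b, u.filterMap Lt.pl = [b] ∧ u.filterMap Lt.nl ∈ D.A C b},
    {v | v.filterMap Lt.pl = [] ∧ ∃ c, v.filterMap Lt.ql = [c] ∧ v.filterMap Lt.nl ∈ D.A Cᶜ c},
    ?_, ?_, ?_⟩
  · intro h
    have : [Lt.P true] ∈ ({[]} : Set (List (Lt β))) := by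
      rw [← h]
      exact ⟨rfl, true, rfl, Or.inl rfl⟩
    simp at this
  · intro h
    have : [Lt.Q true] ∈ ({[]} : Set (List (Lt β))) := by
      rw [← h]
      exact ⟨rfl, true, rfl, Or.inl rfl⟩
    simp at this
  · intro w
    constructor
    · rintro ⟨b, c, hb, hc, hz⟩
      obtain ⟨u', hu', v', hv', hs'⟩ := (D.Zf_iff hC b c _).1 hz
      obtain ⟨u, v, hs, k1, k2, k3, k4, k5, k6⟩ := Lt.lift hs'
      exact ⟨u, ⟨k4, b, by rw [k3, hb], by rwa [k1]⟩, v, ⟨k5, c, by rw [k6, hc], by rwa [k2]⟩, hs⟩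
    · rintro ⟨u, ⟨hu1, b, hu2, hu3⟩, v, ⟨hv1, c, hv2, hv3⟩, hs⟩
      refine ⟨b, c, ?_, ?_, ?_⟩
      · have := hs.filterMap Lt.pl
        rw [hu2, hv1, shuf_nil_right] at this
        exact this
      · have := hs.filterMap Lt.ql
        rw [hu1, hv2, shuf_nil_left] at this
        exact this
      · exact (D.Zf_iff hC b c _).2 ⟨_, hu3, _, hv3, hs.filterMap Lt.nl⟩

/-- The combinatorial core: the language `R` has a non-trivial shuffle decomposition exactly when
some set of vertex words, closed under edges, separates the hubs. -/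
theorem dec_iff : (∃ L1 L2 : Set (List (Lt β)), L1 ≠ {[]} ∧ L2 ≠ {[]} ∧ D.Dec L1 L2) ↔
    ∃ C, D.Sep C :=
  ⟨fun ⟨_, _, h1, h2, h⟩ => D.forward h h1 h2, fun ⟨_, hC⟩ => D.backward hC⟩

end Core

end Pool.Agent.Helper27
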