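import Mathlib
import Pool.Agent.Helper27.Shuffle
import Pool.Agent.Helper27.Regular

set_option autoImplicit false

/-! The core construction for a relation machine. -/

namespace Pool.Agent.Helper27

open Computability

/-- The base letters: two hub markers, the letter `e`, control markers, start letters and
stack letters, the last three in two copies. -/
inductive Bs (C X : Type)
  | hub (b : Bool)
  | e
  | mk (s : Bool) (c : C)
  | st (s : Bool)
  | x (s : Bool) (a : X)

/-- A shape of a step: `W1 ++ d ++ W2` is rewritten to `W1 ++ i ++ W2`, where the letters of `W1`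
are in `A1` and those of `W2` in `A2`. -/
structure Shape (X : Type) where
  A1 : Set X
  d : Option X
  i : Option X
  A2 : Set X

/-- The relation on words given by a shape. -/
def Shape.Rel {X : Type} (s : Shape X) (W W' : List X) : Prop :=
  ∃ W1 W2, (∀ a ∈ W1, a ∈ s.A1) ∧ (∀ a ∈ W2, a ∈ s.A2) ∧ W = W1 ++ s.d.toList ++ W2 ∧
    W' = W1 ++ s.i.toList ++ W2

namespace Bs
variable {C X : Type}

/-- Markers. -/
def mark : Bs C X → Bool
  | hub _ => true
  | e => false
  | mk _ _ => true
  | st _ => false
  | x _ _ => false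

/-- The side of a letter. -/
def side : Bs C X → Bool
  | hub _ => false
  | e => false
  | mk s _ => s
  | st s => s
  | x s _ => s

/-- The word of a configuration. -/
def cw (s : Bool) (c : C) (W : List X) : List (Bs C X) :=
  mk s c :: st s :: W.map (x s)

/-- Interleaving of the two copies of a word. -/
def pairs (W : List X) : List (Bs C X) := W.flatMap (fun a => [x false a, x true a])

/-- The forbidden word of a step. -/
def bw (c c' : C) (s : Shape X) (W1 W2 : List X) : List (Bs C X) :=
  mk false c :: mk true c' :: st false :: st true ::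
    (pairs W1 ++ s.d.toList.map (x false) ++ s.i.toList.map (x true) ++ pairs W2)

theorem pairs_filter_false (W : List X) :
    (pairs W : List (Bs C X)).filter (fun a => !side a) = W.map (x false) := by
  induction W with
  | nil => rfl
  | cons a W ih =>
    have : (pairs (a :: W) : List (Bs C X)) = x false a :: x true a :: pairs W := rfl
    rw [this, List.filter_cons, List.filter_cons, ih]
    simp [side]

theorem pairs_filter_true (W : List X) :
    (pairs W : List (Bs C X)).filter side = W.map (x true) := by
  induction W with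
  | nil => rfl
  | cons a W ih =>
    have : (pairs (a :: W) : List (Bs C X)) = x false a :: x true a :: pairs W := rfl
    rw [this, List.filter_cons, List.filter_cons, ih]
    simp [side]

theorem pairs_filter_mark (W : List X) :
    (pairs W : List (Bs C X)).filter mark = [] := by
  induction W with
  | nil => rfl
  | cons a W ih =>
    have : (pairs (a :: W) : List (Bs C X)) = x false a :: x true a :: pairs W := rfl
    rw [this, List.filter_cons, List.filter_cons, ih]
    simp [mark]

theorem map_filter_same (s : Bool) (W : List X) (p : Bs C X → Bool) (hp : ∀ a, p (x s a) = true) :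
    (W.map (x s)).filter p = W.map (x s) := by
  rw [List.filter_eq_self]
  intro a ha
  obtain ⟨b, -, rfl⟩ := List.mem_map.1 ha
  exact hp b

theorem map_filter_other (s : Bool) (W : List X) (p : Bs C X → Bool)
    (hp : ∀ a, p (x s a) = false) : (W.map (x s)).filter p = [] := by
  rw [List.filter_eq_nil_iff]
  intro a ha
  obtain ⟨b, -, rfl⟩ := List.mem_map.1 ha
  simp [hp b]

theorem bw_filter_false (c c' : C) (s : Shape X) (W1 W2 : List X) :
    (bw c c' s W1 W2).filter (fun a => !side a) = cw false c (W1 ++ s.d.toList ++ W2) := by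
  unfold bw cw
  rw [List.filter_cons_of_pos (by rfl), List.filter_cons_of_neg (by simp [side]),
    List.filter_cons_of_pos (by rfl), List.filter_cons_of_neg (by simp [side]),
    List.filter_append, List.filter_append, List.filter_append, pairs_filter_false,
    pairs_filter_false, map_filter_same _ _ _ (fun a => rfl),
    map_filter_other _ _ _ (fun a => rfl)]
  simp

theorem bw_filter_true (c c' : C) (s : Shape X) (W1 W2 : List X) :
    (bw c c' s W1 W2).filter side = cw true c' (W1 ++ s.i.toList ++ W2) := by
  unfold bw cw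
  rw [List.filter_cons_of_neg (by simp [side]), List.filter_cons_of_pos (by rfl),
    List.filter_cons_of_neg (by simp [side]), List.filter_cons_of_pos (by rfl),
    List.filter_append, List.filter_append, List.filter_append, pairs_filter_true,
    pairs_filter_true, map_filter_same true _ _ (fun a => rfl),
    map_filter_other false _ _ (fun a => rfl)]
  simp

theorem cw_filter_same (s : Bool) (c : C) (W : List X) (p : Bs C X → Bool)
    (h1 : p (mk s c) = true) (h2 : p (st s) = true) (h3 : ∀ a, p (x s a) = true) :
    (cw s c W).filter p = cw s c W := by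
  unfold cw
  rw [List.filter_cons_of_pos h1, List.filter_cons_of_pos h2, map_filter_same _ _ _ h3]

theorem cw_filter_other (s : Bool) (c : C) (W : List X) (p : Bs C X → Bool)
    (h1 : p (mk s c) = false) (h2 : p (st s) = false) (h3 : ∀ a, p (x s a) = false) :
    (cw s c W).filter p = [] := by
  unfold cw
  rw [List.filter_cons_of_neg (by simp [h1]), List.filter_cons_of_neg (by simp [h2]),
    map_filter_other _ _ _ h3]

theorem cw_side (s : Bool) (c : C) (W : List X) : ∀ a ∈ (cw s c W : List (Bs C X)), side a = s := by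
  intro a ha
  unfold cw at ha
  rcases List.mem_cons.1 ha with rfl | ha
  · rfl
  rcases List.mem_cons.1 ha with rfl | ha
  · rfl
  obtain ⟨b, -, rfl⟩ := List.mem_map.1 ha
  rfl

theorem map_x_injective (s : Bool) : Function.Injective (List.map (x s : X → Bs C X)) :=
  List.map_injective_iff.2 (fun a b h => by injection h)

theorem cw_inj {s s' : Bool} {c c' : C} {W W' : List X}
    (h : (cw s c W : List (Bs C X)) = cw s' c' W') : s = s' ∧ c = c' ∧ W = W' := by
  unfold cw at h
  injection h with h1 h2
  injection h1 with h3 h4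
  injection h2 with h5 h6
  subst h3
  exact ⟨rfl, h4, map_x_injective s h6⟩

end Bs

open Bs

/-- A relation machine: controls `C`, letters `X`, a relation on controls for each shape, the
halting controls, and an initial configuration. -/
structure RM (C X : Type) where
  Mv : C → C → Shape X → Prop
  H : C → Prop

namespace RM
variable {C X : Type} (M : RM C X)

/-- One step on configurations. -/
def Step (p p' : C × List X) : Prop := ∃ s, M.Mv p.1 p'.1 s ∧ s.Rel p.2 p'.2

/-- The configuration leads to a halting one. -/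
def Hlt (p : C × List X) : Prop := ∃ p', M.H p'.1 ∧ Relation.ReflTransGen M.Step p p'

/-- The machine is deterministic and halting configurations are final. -/
structure Det : Prop where
  det : ∀ p q r, M.Step p q → M.Step p r → q = r
  fin : ∀ p q, M.H p.1 → ¬ M.Step p q

theorem hlt_step (hM : M.Det) {p q : C × List X} (h : M.Step p q) : M.Hlt p ↔ M.Hlt q := by
  constructor
  · rintro ⟨r, hr, hpr⟩
    rcases Relation.ReflTransGen.cases_head hpr with rfl | ⟨q', hq', h'⟩
    · exact absurd h (hM.fin _ _ hr)
    · rw [hM.det _ _ _ h hq']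
      exact ⟨r, hr, h'⟩
  · rintro ⟨r, hr, hqr⟩
    exact ⟨r, hr, Relation.ReflTransGen.head h hqr⟩

/-- The identity shape. -/
def idShape (X : Type) : Shape X := ⟨∅, none, none, Set.univ⟩

/-- The forbidden words that do not depend on the initial configuration. -/
def BadFix : Set (List (Bs C X)) :=
  {b | (∃ c W, M.H c ∧ b = hub true :: e :: cw true c W) ∨
    (∃ c c' s W1 W2, (M.Mv c c' s ∨ (c = c' ∧ s = idShape X)) ∧ (∀ a ∈ W1, a ∈ s.A1) ∧
      (∀ a ∈ W2, a ∈ s.A2) ∧ b = bw c c' s W1 W2)}

/-- The forbidden word of the initial configuration. -/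
def b0 (p : C × List X) : List (Bs C X) := hub false :: e :: cw true p.1 p.2

/-- Vertex words. -/
def Vx (C X : Type) : Set (List (Bs C X)) :=
  {v | (∃ m, mark m = true ∧ v = [m]) ∨ (∃ b, v = [hub b, e]) ∨ (∃ s c W, v = cw s c W)}

theorem Vx_side {v : List (Bs C X)} (h : v ∈ Vx C X) : ∃ s, ∀ a ∈ v, side a = s := by
  rcases h with ⟨m, -, rfl⟩ | ⟨b, rfl⟩ | ⟨s, c, W, rfl⟩
  · exact ⟨side m, by simp⟩
  · exact ⟨false, by simp [side]⟩
  · exact ⟨s, cw_side s c W⟩

theorem filter_side {u v b : List (Bs C X)} (hs : Shuf u v b) {s : Bool} (hu : ∀ a ∈ u, side a = s)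
    (hv : ∀ a ∈ v, side a = !s) : b.filter (fun a => side a == s) = u := by
  have h := hs.filter (fun a => side a == s)
  rw [List.filter_eq_self.2 (fun a ha => by simp [hu a ha]),
    List.filter_eq_nil_iff.2 (fun a ha => by simp [hv a ha]), shuf_nil_right] at h
  exact h

theorem filter_eq_side (b : List (Bs C X)) : b.filter (fun a => side a == true) = b.filter side := by
  congr 1; funext a; simp

theorem filter_eq_side' (b : List (Bs C X)) :
    b.filter (fun a => side a == false) = b.filter (fun a => !side a) := by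
  congr 1; funext a; simp

/-- Splitting a word with letters on both sides into two vertex words. -/
theorem split_sides {u v b : List (Bs C X)} (hu : u ∈ Vx C X) (hv : v ∈ Vx C X)
    (hs : Shuf u v b) (h1 : b.filter side ≠ []) (h2 : b.filter (fun a => !side a) ≠ []) :
    (u = b.filter (fun a => !side a) ∧ v = b.filter side) ∨
      (u = b.filter side ∧ v = b.filter (fun a => !side a)) := by
  obtain ⟨s, hs1⟩ := Vx_side hu
  obtain ⟨t, ht1⟩ := Vx_side hv
  have hst : t = !s := by
    by_contra hne
    have hts : t = s := by cases s <;> cases t <;> simp_all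
    subst hts
    have hall : ∀ a ∈ b, side a = t := by
      intro a ha
      rcases (hs.mem a).1 ha with h | h
      · exact hs1 a h
      · exact ht1 a h
    cases t
    · exact h1 (List.filter_eq_nil_iff.2 (fun a ha => by simp [hall a ha]))
    · exact h2 (List.filter_eq_nil_iff.2 (fun a ha => by simp [hall a ha]))
  subst hst
  have e1 := filter_side hs hs1 ht1
  have e2 := filter_side hs.symm ht1 (by simpa using hs1)
  cases s
  · left
    rw [← filter_eq_side', ← filter_eq_side]
    exact ⟨e1.symm, e2.symm⟩
  · right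
    rw [← filter_eq_side', ← filter_eq_side]
    exact ⟨e1.symm, e2.symm⟩

/-- Sides of the forbidden words. -/
theorem bad_sides {p : C × List X} {b : List (Bs C X)} (hb : b ∈ insert (b0 p) M.BadFix) :
    (b.filter (fun a => !side a) = [hub false, e] ∧ b.filter side = cw true p.1 p.2) ∨
    (∃ c W, M.H c ∧ b.filter (fun a => !side a) = [hub true, e] ∧ b.filter side = cw true c W) ∨
    (∃ c W c' W', (M.Step (c, W) (c', W') ∨ (c, W) = (c', W')) ∧
      b.filter (fun a => !side a) = cw false c W ∧ b.filter side = cw true c' W') := by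
  rcases hb with rfl | ⟨c, W, hc, rfl⟩ | ⟨c, c', s, W1, W2, h, h1, h2, rfl⟩
  · left
    unfold b0
    constructor
    · rw [List.filter_cons_of_pos (by rfl), List.filter_cons_of_pos (by rfl),
        cw_filter_other _ _ _ _ (by rfl) (by rfl) (fun a => by rfl)]
    · rw [List.filter_cons_of_neg (by simp [side]), List.filter_cons_of_neg (by simp [side]),
        cw_filter_same _ _ _ _ (by rfl) (by rfl) (fun a => by rfl)]
  · right; left
    refine ⟨c, W, hc, ?_, ?_⟩
    · rw [List.filter_cons_of_pos (by rfl), List.filter_cons_of_pos (by rfl),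
        cw_filter_other _ _ _ _ (by rfl) (by rfl) (fun a => by rfl)]
    · rw [List.filter_cons_of_neg (by simp [side]), List.filter_cons_of_neg (by simp [side]),
        cw_filter_same _ _ _ _ (by rfl) (by rfl) (fun a => by rfl)]
  · right; right
    refine ⟨c, W1 ++ s.d.toList ++ W2, c', W1 ++ s.i.toList ++ W2, ?_, bw_filter_false _ _ _ _ _,
      bw_filter_true _ _ _ _ _⟩
    rcases h with h | ⟨rfl, rfl⟩
    · left
      exact ⟨s, h, W1, W2, h1, h2, rfl, rfl⟩
    · right
      rfl

theorem bad_ne {p : C × List X} {b : List (Bs C X)} (hb : b ∈ insert (b0 p) M.BadFix) :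
    b.filter side ≠ [] ∧ b.filter (fun a => !side a) ≠ [] := by
  rcases M.bad_sides hb with ⟨h1, h2⟩ | ⟨c, W, -, h1, h2⟩ | ⟨c, W, c', W', -, h1, h2⟩
  · rw [h1, h2]; simp [cw]
  · rw [h1, h2]; simp [cw]
  · rw [h1, h2]; simp [cw]

theorem bad_st {p : C × List X} {b : List (Bs C X)} (hb : b ∈ insert (b0 p) M.BadFix) :
    st true ∈ b := by
  have : st true ∈ b.filter side := by
    rcases M.bad_sides hb with ⟨h1, h2⟩ | ⟨c, W, -, h1, h2⟩ | ⟨c, W, c', W', -, h1, h2⟩ <;>
    · rw [h2]; simp [cw]
  exact (List.mem_filter.1 this).1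

theorem bad_mem_V {p : C × List X} {b : List (Bs C X)} (hb : b ∈ insert (b0 p) M.BadFix) :
    b.filter side ∈ Vx C X ∧ b.filter (fun a => !side a) ∈ Vx C X := by
  rcases M.bad_sides hb with ⟨h1, h2⟩ | ⟨c, W, -, h1, h2⟩ | ⟨c, W, c', W', -, h1, h2⟩
  · rw [h1, h2]
    exact ⟨Or.inr (Or.inr ⟨_, _, _, rfl⟩), Or.inr (Or.inl ⟨_, rfl⟩)⟩
  · rw [h1, h2]
    exact ⟨Or.inr (Or.inr ⟨_, _, _, rfl⟩), Or.inr (Or.inl ⟨_, rfl⟩)⟩
  · rw [h1, h2]
    exact ⟨Or.inr (Or.inr ⟨_, _, _, rfl⟩), Or.inr (Or.inr ⟨_, _, _, rfl⟩)⟩

/-- The core data attached to a machine and an initial configuration. -/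
def core (p : C × List X) : Core (Bs C X) where
  mark := mark
  e := e
  m1 := hub false
  m2 := hub true
  V := Vx C X
  Bad := insert (b0 p) M.BadFix
  he := rfl
  hm1 := rfl
  hm2 := rfl
  hne := by intro h; injection h with h; cases h
  hV1 := by
    rintro v (⟨m, hm, rfl⟩ | ⟨b, rfl⟩ | ⟨s, c, W, rfl⟩)
    · simp [hm]
    · rfl
    · unfold cw
      rw [List.filter_cons_of_pos (by rfl), List.filter_cons_of_neg (by simp [mark]),
        map_filter_other _ _ _ (fun a => by rfl)]
      rfl
  hVm := fun m hm => Or.inl ⟨m, hm, rfl⟩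
  hV1e := Or.inr (Or.inl ⟨_, rfl⟩)
  hV2e := Or.inr (Or.inl ⟨_, rfl⟩)
  hVe := by
    rintro v (⟨m, hm, rfl⟩ | ⟨b, rfl⟩ | ⟨s, c, W, rfl⟩) hv
    · simp [hm] at hv
    · cases b
      · left; rfl
      · right; rfl
    · exfalso
      unfold cw at hv
      rw [List.filter_cons_of_neg (by simp [mark]), List.filter_cons_of_pos (by rfl)] at hv
      injection hv with h1 h2
      cases h1
  hBad0 := by
    intro b hb h0
    have := M.bad_st hb
    have h1 : st true ∈ b.filter (fun a => !mark a) := List.mem_filter.2 ⟨this, rfl⟩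
    rw [h0] at h1
    simp at h1
  hBade := by
    intro b hb h0
    have := M.bad_st hb
    have h1 : st true ∈ b.filter (fun a => !mark a) := List.mem_filter.2 ⟨this, rfl⟩
    rw [h0] at h1
    simp at h1
  hBadm := by
    intro m hm v hv b hb hs
    have hne := M.bad_ne hb
    rcases split_sides (Or.inl ⟨m, hm, rfl⟩) hv hs hne.1 hne.2 with ⟨h1, -⟩ | ⟨h1, -⟩
    · rcases M.bad_sides hb with ⟨h3, h4⟩ | ⟨c, W, -, h3, h4⟩ | ⟨c, W, c', W', -, h3, h4⟩
      · rw [h3] at h1; simp at h1
      · rw [h3] at h1; simp at h1
      · rw [h3] at h1; simp [cw] at h1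
    · rcases M.bad_sides hb with ⟨h3, h4⟩ | ⟨c, W, -, h3, h4⟩ | ⟨c, W, c', W', -, h3, h4⟩
      · rw [h4] at h1; simp [cw] at h1
      · rw [h4] at h1; simp [cw] at h1
      · rw [h4] at h1; simp [cw] at h1

theorem shuf_sides (b : List (Bs C X)) :
    Shuf (b.filter (fun a => !side a)) (b.filter side) b := by
  have := shuf_filter side b
  exact this.symm

/-- The main equivalence for a machine. -/
theorem sep_iff (hM : M.Det) (p : C × List X) : (∃ S, (M.core p).Sep S) ↔ ¬ M.Hlt p := by
  constructor
  · rintro ⟨S, hS1, hS2, hS3⟩ ⟨q, hq, hpq⟩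
    have edge : ∀ b ∈ insert (b0 p) M.BadFix,
        (b.filter (fun a => !side a) ∈ S ↔ b.filter side ∈ S) := by
      intro b hb
      have hV := M.bad_mem_V hb
      exact hS1 _ hV.2 _ hV.1 b hb (shuf_sides b)
    have e0 : cw true p.1 p.2 ∉ S := by
      have h := edge (b0 p) (Or.inl rfl)
      intro hmem
      have hf : (b0 p).filter side = cw true p.1 p.2 := by
        unfold b0
        rw [List.filter_cons_of_neg (by simp [side]), List.filter_cons_of_neg (by simp [side]),
          cw_filter_same _ _ _ _ (by rfl) (by rfl) (fun a => by rfl)]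
      have hf' : (b0 p).filter (fun a => !side a) = [hub false, e] := by
        unfold b0
        rw [List.filter_cons_of_pos (by rfl), List.filter_cons_of_pos (by rfl),
          cw_filter_other _ _ _ _ (by rfl) (by rfl) (fun a => by rfl)]
      rw [hf, hf'] at h
      exact hS2 (h.2 hmem)
    have eid : ∀ (c : C) (W : List X), cw false c W ∈ S ↔ cw true c W ∈ S := by
      intro c W
      have h := edge (bw c c (idShape X) [] W)
        (Or.inr (Or.inr ⟨c, c, idShape X, [], W, Or.inr ⟨rfl, rfl⟩, by simp,
          by simp [idShape], rfl⟩))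
      rw [bw_filter_false, bw_filter_true] at h
      simpa [idShape] using h
    have estep : ∀ q r : C × List X, M.Step q r → (cw false q.1 q.2 ∈ S ↔ cw true r.1 r.2 ∈ S) := by
      rintro ⟨c, W⟩ ⟨c', W'⟩ ⟨s, hs, W1, W2, h1, h2, h3, h4⟩
      have h := edge (bw c c' s W1 W2) (Or.inr (Or.inr ⟨c, c', s, W1, W2, Or.inl hs, h1, h2, rfl⟩))
      rw [bw_filter_false, bw_filter_true] at h
      simp only at h3 h4
      rw [h3, h4]
      exact h
    have all : ∀ r, Relation.ReflTransGen M.Step p r → cw true r.1 r.2 ∉ S := by
      intro r hr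
      induction hr with
      | refl => exact e0
      | tail _ hst ih =>
        rw [← eid, estep _ _ hst] at ih
        exact ih
    have hqS := all q hpq
    apply hqS
    have h := edge (hub true :: e :: cw true q.1 q.2) (Or.inr (Or.inl ⟨q.1, q.2, hq, rfl⟩))
    rw [List.filter_cons_of_pos (by rfl), List.filter_cons_of_pos (by rfl),
        cw_filter_other _ _ _ _ (by rfl) (by rfl) (fun a => by rfl),
        List.filter_cons_of_neg (by simp [side]), List.filter_cons_of_neg (by simp [side]),
          cw_filter_same _ _ _ _ (by rfl) (by rfl) (fun a => by rfl)] at h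
    exact h.1 hS3
  · intro hH
    let S : Set (List (Bs C X)) :=
      {v | v = [hub true, e] ∨ ∃ s c W, v = cw s c W ∧ M.Hlt (c, W)}
    have hcw : ∀ s c W, (cw s c W : List (Bs C X)) ∈ S ↔ M.Hlt (c, W) := by
      intro s c W
      constructor
      · rintro (h | ⟨s', c', W', h, hh⟩)
        · simp [cw] at h
        · obtain ⟨-, rfl, rfl⟩ := cw_inj h
          exact hh
      · intro h
        exact Or.inr ⟨s, c, W, rfl, h⟩
    have hh0 : [hub false, e] ∉ S := by
      rintro (h | ⟨s', c', W', h, hh⟩)
      · injection h with h1 h2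
        injection h1 with h3
        cases h3
      · simp [cw] at h
    have hh1 : [hub true, e] ∈ S := Or.inl rfl
    refine ⟨S, ?_, hh0, hh1⟩
    intro u hu v hv b hb hs
    have hne := M.bad_ne hb
    have key : b.filter (fun a => !side a) ∈ S ↔ b.filter side ∈ S := by
      rcases M.bad_sides hb with ⟨h3, h4⟩ | ⟨c, W, hc, h3, h4⟩ | ⟨c, W, c', W', hst, h3, h4⟩
      · rw [h3, h4, hcw]
        exact ⟨fun h => absurd h hh0, fun h => absurd h hH⟩
      · rw [h3, h4, hcw]
        exact ⟨fun _ => ⟨(c, W), hc, .refl⟩, fun _ => hh1⟩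
      · rw [h3, h4, hcw, hcw]
        rcases hst with hst | hst
        · exact M.hlt_step hM hst
        · rw [hst]
    rcases split_sides hu hv hs hne.1 hne.2 with ⟨rfl, rfl⟩ | ⟨rfl, rfl⟩
    · exact key
    · exact key.symm

end RM

end Pool.Agent.Helper27
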