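import Mathlib
import Pool.Agent.Helper27.Graph

set_option autoImplicit false

/-! The stack machine evaluating partial recursive functions, as a relation machine. -/

namespace Pool.Agent.Helper27

open Turing Turing.PartrecToTM2 StateTransition

/-- Stack letters: the stack and the symbol. -/
abbrev XX := K' × Γ'

/-- Statements of the machine. -/
abbrev SS := TM2.Stmt (fun _ : K' => Γ') Λ' (Option Γ')

/-- The content of stack `k` in a word. -/
def projK (W : List XX) (k : K') : List Γ' := W.filterMap (fun a => if a.1 = k then some a.2 else none)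

theorem projK_cons_self (k : K') (g : Γ') (W : List XX) :
    projK ((k, g) :: W) k = g :: projK W k := by
  unfold projK
  rw [List.filterMap_cons_some (b := g) (by simp)]

theorem projK_cons_ne {k k' : K'} (h : k' ≠ k) (g : Γ') (W : List XX) :
    projK ((k', g) :: W) k = projK W k := by
  unfold projK
  rw [List.filterMap_cons_none (by simp [h])]

theorem projK_push (k : K') (g : Γ') (W : List XX) :
    projK ((k, g) :: W) = Function.update (projK W) k (g :: projK W k) := by
  funext k'
  by_cases h : k' = k
  · subst h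
    rw [Function.update_self, projK_cons_self]
  · rw [Function.update_of_ne h, projK_cons_ne (Ne.symm h)]

theorem projK_append (k : K') (W1 W2 : List XX) :
    projK (W1 ++ W2) k = projK W1 k ++ projK W2 k := by
  unfold projK
  rw [List.filterMap_append]

theorem projK_none {k : K'} {W : List XX} (h : ∀ a ∈ W, a.1 ≠ k) : projK W k = [] := by
  unfold projK
  rw [List.filterMap_eq_nil_iff]
  intro a ha
  simp [h a ha]

theorem find_split (k : K') (W : List XX) :
    (∀ a ∈ W, a.1 ≠ k) ∨ ∃ W1 g W2, W = W1 ++ (k, g) :: W2 ∧ ∀ a ∈ W1, a.1 ≠ k := by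
  induction W with
  | nil => left; simp
  | cons a W ih =>
    by_cases h : a.1 = k
    · right
      refine ⟨[], a.2, W, ?_, by simp⟩
      subst h; rfl
    · rcases ih with h' | ⟨W1, g, W2, rfl, h'⟩
      · left
        intro b hb
        rcases List.mem_cons.1 hb with rfl | hb
        · exact h
        · exact h' b hb
      · right
        refine ⟨a :: W1, g, W2, rfl, ?_⟩
        intro b hb
        rcases List.mem_cons.1 hb with rfl | hb
        · exact h
        · exact h' b hb

/-- Remove the first letter of stack `k`. -/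
def erK (k : K') (W : List XX) : List XX := W.eraseP (fun a => decide (a.1 = k))

theorem erK_none {k : K'} {W : List XX} (h : ∀ a ∈ W, a.1 ≠ k) : erK k W = W := by
  unfold erK
  apply List.eraseP_of_forall_not
  intro a ha
  simp [h a ha]

theorem erK_some {k : K'} {W1 W2 : List XX} {g : Γ'} (h : ∀ a ∈ W1, a.1 ≠ k) :
    erK k (W1 ++ (k, g) :: W2) = W1 ++ W2 := by
  unfold erK
  rw [List.eraseP_append_right _ (by intro a ha; simp [h a ha])]
  simp

theorem head_some {k : K'} {W1 W2 : List XX} {g : Γ'} (h : ∀ a ∈ W1, a.1 ≠ k) :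
    (projK (W1 ++ (k, g) :: W2) k).head? = some g := by
  rw [projK_append, projK_none h, List.nil_append, projK_cons_self]
  rfl

theorem head_none {k : K'} {W : List XX} (h : ∀ a ∈ W, a.1 ≠ k) :
    (projK W k).head? = none := by
  rw [projK_none h]; rfl

theorem projK_er (k : K') (W : List XX) :
    projK (erK k W) = Function.update (projK W) k (projK W k).tail := by
  funext k'
  rcases find_split k W with h | ⟨W1, g, W2, rfl, h⟩
  · rw [erK_none h]
    by_cases hk : k' = k
    · subst hk
      rw [Function.update_self, projK_none h]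
      rfl
    · rw [Function.update_of_ne hk]
  · rw [erK_some h]
    by_cases hk : k' = k
    · subst hk
      rw [Function.update_self, projK_append, projK_append, projK_none h, projK_cons_self]
      rfl
    · rw [Function.update_of_ne hk, projK_append, projK_append, projK_cons_ne (Ne.symm hk)]

/-- One micro step of the machine on words. -/
def mstep : Option SS × Option Γ' × List XX → Option (Option SS × Option Γ' × List XX)
  | (none, _, _) => none
  | (some (.push k f q), v, W) => some (some q, v, (k, f v) :: W)
  | (some (.peek k f q), v, W) => some (some q, f v (projK W k).head?, W)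
  | (some (.pop k f q), v, W) => some (some q, f v (projK W k).head?, erK k W)
  | (some (.load a q), v, W) => some (some q, a v, W)
  | (some (.branch f q₁ q₂), v, W) => some (some (cond (f v) q₁ q₂), v, W)
  | (some (.goto f), v, W) => some (some (tr (f v)), v, W)
  | (some .halt, v, W) => some (none, v, W)

theorem mstep_reaches (q : SS) (v : Option Γ') (W : List XX) :
    ∃ W', projK W' = (TM2.stepAux q v (projK W)).stk ∧
      Reaches₁ mstep (some q, v, W)
        ((TM2.stepAux q v (projK W)).l.map tr, (TM2.stepAux q v (projK W)).var, W') := by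
  induction q generalizing v W with
  | push k f q ih =>
    obtain ⟨W', h1, h2⟩ := ih v ((k, f v) :: W)
    rw [projK_push] at h1 h2
    exact ⟨W', h1, Relation.TransGen.head rfl h2⟩
  | peek k f q ih =>
    obtain ⟨W', h1, h2⟩ := ih (f v (projK W k).head?) W
    exact ⟨W', h1, Relation.TransGen.head rfl h2⟩
  | pop k f q ih =>
    obtain ⟨W', h1, h2⟩ := ih (f v (projK W k).head?) (erK k W)
    rw [projK_er] at h1 h2
    exact ⟨W', h1, Relation.TransGen.head rfl h2⟩
  | load a q ih =>
    obtain ⟨W', h1, h2⟩ := ih (a v) W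
    exact ⟨W', h1, Relation.TransGen.head rfl h2⟩
  | branch f q1 q2 ih1 ih2 =>
    cases hf : f v
    · obtain ⟨W', h1, h2⟩ := ih2 v W
      refine ⟨W', by simpa [TM2.stepAux, hf] using h1, ?_⟩
      simp only [TM2.stepAux, hf, cond_false]
      exact Relation.TransGen.head (by simp [mstep, hf]) h2
    · obtain ⟨W', h1, h2⟩ := ih1 v W
      refine ⟨W', by simpa [TM2.stepAux, hf] using h1, ?_⟩
      simp only [TM2.stepAux, hf, cond_true]
      exact Relation.TransGen.head (by simp [mstep, hf]) h2
  | goto f => exact ⟨W, rfl, Relation.TransGen.single rfl⟩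
  | halt => exact ⟨W, rfl, Relation.TransGen.single rfl⟩

/-- The simulation relation. -/
def trRel (c : Cfg') (p : Option SS × Option Γ' × List XX) : Prop :=
  ∃ W, projK W = c.stk ∧ p = (c.l.map tr, c.var, W)

theorem mrespects : Respects (TM2.step tr) mstep trRel := by
  rintro ⟨l, v, S⟩ p ⟨W, hW, rfl⟩
  simp only at hW
  subst hW
  cases l with
  | none => rfl
  | some l =>
    obtain ⟨W', h1, h2⟩ := mstep_reaches (tr l) v W
    exact ⟨_, ⟨W', h1, rfl⟩, h2⟩

/-- The relation of the micro steps, by shapes. -/
inductive MvR : Option SS → Option Γ' → Option SS → Option Γ' → Shape XX → Prop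
  | push (k f q v) : MvR (some (.push k f q)) v (some q) v ⟨∅, none, some (k, f v), Set.univ⟩
  | peekS (k f q v g) : MvR (some (.peek k f q)) v (some q) (f v (some g))
      ⟨{a | a.1 ≠ k}, some (k, g), some (k, g), Set.univ⟩
  | peekN (k f q v) : MvR (some (.peek k f q)) v (some q) (f v none)
      ⟨∅, none, none, {a | a.1 ≠ k}⟩
  | popS (k f q v g) : MvR (some (.pop k f q)) v (some q) (f v (some g))
      ⟨{a | a.1 ≠ k}, some (k, g), none, Set.univ⟩
  | popN (k f q v) : MvR (some (.pop k f q)) v (some q) (f v none)
      ⟨∅, none, none, {a | a.1 ≠ k}⟩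
  | load (a q v) : MvR (some (.load a q)) v (some q) (a v) ⟨∅, none, none, Set.univ⟩
  | branch (f q₁ q₂ v) : MvR (some (.branch f q₁ q₂)) v (some (cond (f v) q₁ q₂)) v
      ⟨∅, none, none, Set.univ⟩
  | goto (f v) : MvR (some (.goto f)) v (some (tr (f v))) v ⟨∅, none, none, Set.univ⟩
  | halt (v) : MvR (some .halt) v none v ⟨∅, none, none, Set.univ⟩

theorem rel_id {W W' : List XX} : (Shape.mk ∅ none none Set.univ : Shape XX).Rel W W' ↔ W' = W := by
  constructor
  · rintro ⟨W1, W2, h1, h2, h3, h4⟩
    rw [h3, h4]
  · rintro rfl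
    exact ⟨[], W', by simp, by simp, by simp, by simp⟩

theorem rel_push {W W' : List XX} {a : XX} :
    (Shape.mk ∅ none (some a) Set.univ : Shape XX).Rel W W' ↔ W' = a :: W := by
  constructor
  · rintro ⟨W1, W2, h1, h2, h3, h4⟩
    have : W1 = [] := by
      cases W1 with
      | nil => rfl
      | cons b W1 => exact absurd (h1 b List.mem_cons_self) (by simp)
    subst this
    simp at h3 h4
    rw [h3, h4]
  · rintro rfl
    exact ⟨[], W, by simp, by simp, by simp, by simp⟩

theorem rel_none {W W' : List XX} {k : K'} :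
    (Shape.mk ∅ none none {a | a.1 ≠ k} : Shape XX).Rel W W' ↔
      W' = W ∧ ∀ a ∈ W, a.1 ≠ k := by
  constructor
  · rintro ⟨W1, W2, h1, h2, h3, h4⟩
    have : W1 = [] := by
      cases W1 with
      | nil => rfl
      | cons b W1 => exact absurd (h1 b List.mem_cons_self) (by simp)
    subst this
    simp at h3 h4
    rw [h3, h4]
    exact ⟨rfl, h2⟩
  · rintro ⟨rfl, h⟩
    exact ⟨[], W', by simp, h, by simp, by simp⟩

theorem rel_some {W W' : List XX} {k : K'} {g : Γ'} {i : Option XX} :
    (Shape.mk {a | a.1 ≠ k} (some (k, g)) i Set.univ : Shape XX).Rel W W' ↔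
      ∃ W1 W2, (∀ a ∈ W1, a.1 ≠ k) ∧ W = W1 ++ (k, g) :: W2 ∧ W' = W1 ++ i.toList ++ W2 := by
  constructor
  · rintro ⟨W1, W2, h1, h2, h3, h4⟩
    exact ⟨W1, W2, h1, by simpa using h3, h4⟩
  · rintro ⟨W1, W2, h1, h3, h4⟩
    exact ⟨W1, W2, h1, by simp, by simpa using h3, h4⟩

theorem mv_iff (o : Option SS) (v : Option Γ') (W : List XX) (o' : Option SS) (v' : Option Γ')
    (W' : List XX) :
    (∃ s, MvR o v o' v' s ∧ s.Rel W W') ↔ mstep (o, v, W) = some (o', v', W') := by
  constructor
  · rintro ⟨s, hm, hr⟩
    cases hm with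
    | push k f q =>
      rw [rel_push] at hr; subst hr; rfl
    | peekS k f q v g =>
      obtain ⟨W1, W2, h1, rfl, rfl⟩ := rel_some.1 hr
      simp only [mstep, head_some h1]
      simp
    | peekN k f q v =>
      obtain ⟨rfl, h⟩ := rel_none.1 hr
      simp only [mstep, head_none h]
    | popS k f q v g =>
      obtain ⟨W1, W2, h1, rfl, rfl⟩ := rel_some.1 hr
      simp only [mstep, head_some h1, erK_some h1]
      simp
    | popN k f q v =>
      obtain ⟨rfl, h⟩ := rel_none.1 hr
      simp only [mstep, head_none h, erK_none h]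
    | load a q => rw [rel_id] at hr; subst hr; rfl
    | branch f q1 q2 => rw [rel_id] at hr; subst hr; rfl
    | goto f => rw [rel_id] at hr; subst hr; rfl
    | halt => rw [rel_id] at hr; subst hr; rfl
  · intro h
    cases o with
    | none => simp [mstep] at h
    | some q =>
      cases q with
      | push k f q =>
        simp only [mstep, Option.some.injEq, Prod.mk.injEq] at h
        obtain ⟨rfl, rfl, rfl⟩ := h
        exact ⟨_, .push k f q v, rel_push.2 rfl⟩
      | peek k f q =>
        simp only [mstep, Option.some.injEq, Prod.mk.injEq] at h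
        obtain ⟨rfl, rfl, rfl⟩ := h
        rcases find_split k W with h | ⟨W1, g, W2, rfl, h⟩
        · rw [head_none h]
          exact ⟨_, .peekN k f q v, rel_none.2 ⟨rfl, h⟩⟩
        · rw [head_some h]
          exact ⟨_, .peekS k f q v g, rel_some.2 ⟨W1, W2, h, rfl, by simp⟩⟩
      | pop k f q =>
        simp only [mstep, Option.some.injEq, Prod.mk.injEq] at h
        obtain ⟨rfl, rfl, rfl⟩ := h
        rcases find_split k W with h | ⟨W1, g, W2, rfl, h⟩
        · rw [head_none h, erK_none h]
          exact ⟨_, .popN k f q v, rel_none.2 ⟨rfl, h⟩⟩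
        · rw [head_some h, erK_some h]
          exact ⟨_, .popS k f q v g, rel_some.2 ⟨W1, W2, h, rfl, by simp⟩⟩
      | load a q =>
        simp only [mstep, Option.some.injEq, Prod.mk.injEq] at h
        obtain ⟨rfl, rfl, rfl⟩ := h
        exact ⟨_, .load a q v, rel_id.2 rfl⟩
      | branch f q1 q2 =>
        simp only [mstep, Option.some.injEq, Prod.mk.injEq] at h
        obtain ⟨rfl, rfl, rfl⟩ := h
        exact ⟨_, .branch f q1 q2 v, rel_id.2 rfl⟩
      | goto f =>
        simp only [mstep, Option.some.injEq, Prod.mk.injEq] at h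
        obtain ⟨rfl, rfl, rfl⟩ := h
        exact ⟨_, .goto f v, rel_id.2 rfl⟩
      | halt =>
        simp only [mstep, Option.some.injEq, Prod.mk.injEq] at h
        obtain ⟨rfl, rfl, rfl⟩ := h
        exact ⟨_, .halt v, rel_id.2 rfl⟩

/-- The finite set of statements used in the evaluation of a code. -/
noncomputable def stm (c : ToPartrec.Code) : Finset (Option SS) :=
  TM2.stmts tr (codeSupp c Cont'.halt)

theorem mem_stm {c : ToPartrec.Code} {l : Λ'} (h : l ∈ codeSupp c Cont'.halt) :
    (some (tr l) : Option SS) ∈ stm c := by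
  classical
  simp only [stm, TM2.stmts, Finset.mem_insertNone, Finset.mem_biUnion, Option.mem_def]
  intro a ha
  cases ha
  exact ⟨l, h, TM2.stmts₁_self⟩

theorem none_mem_stm (c : ToPartrec.Code) : (none : Option SS) ∈ stm c := by
  classical
  simp only [stm, TM2.stmts, Finset.mem_insertNone]
  intro a ha
  cases ha

theorem stm_closed (c : ToPartrec.Code) {o o' : Option SS} {v v' : Option Γ'} {W W' : List XX}
    (ho : o ∈ stm c) (h : mstep (o, v, W) = some (o', v', W')) : o' ∈ stm c := by
  cases o with
  | none => simp [mstep] at h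
  | some q =>
    cases q with
    | push k f q =>
      simp only [mstep, Option.some.injEq, Prod.mk.injEq] at h
      obtain ⟨rfl, rfl, rfl⟩ := h
      exact TM2.stmts_trans (by simp [TM2.stmts₁, TM2.stmts₁_self]) ho
    | peek k f q =>
      simp only [mstep, Option.some.injEq, Prod.mk.injEq] at h
      obtain ⟨rfl, rfl, rfl⟩ := h
      exact TM2.stmts_trans (by simp [TM2.stmts₁, TM2.stmts₁_self]) ho
    | pop k f q =>
      simp only [mstep, Option.some.injEq, Prod.mk.injEq] at h
      obtain ⟨rfl, rfl, rfl⟩ := h
      exact TM2.stmts_trans (by simp [TM2.stmts₁, TM2.stmts₁_self]) ho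
    | load a q =>
      simp only [mstep, Option.some.injEq, Prod.mk.injEq] at h
      obtain ⟨rfl, rfl, rfl⟩ := h
      exact TM2.stmts_trans (by simp [TM2.stmts₁, TM2.stmts₁_self]) ho
    | branch f q1 q2 =>
      simp only [mstep, Option.some.injEq, Prod.mk.injEq] at h
      obtain ⟨rfl, rfl, rfl⟩ := h
      refine TM2.stmts_trans ?_ ho
      cases f v
      · simp [TM2.stmts₁, TM2.stmts₁_self]
      · simp [TM2.stmts₁, TM2.stmts₁_self]
    | goto f =>
      simp only [mstep, Option.some.injEq, Prod.mk.injEq] at h
      obtain ⟨rfl, rfl, rfl⟩ := h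
      have ss := tr_supports c Cont'.halt
      have := @TM2.stmts_supportsStmt _ _ _ _ ⟨trNormal c Cont'.halt⟩ _ _ _ ss ho
      exact mem_stm (this v)
    | halt =>
      simp only [mstep, Option.some.injEq, Prod.mk.injEq] at h
      obtain ⟨rfl, rfl, rfl⟩ := h
      exact none_mem_stm c

theorem start_mem (c : ToPartrec.Code) : some (tr (trNormal c Cont'.halt)) ∈ stm c := by
  exact mem_stm (tr_supports c Cont'.halt).1

/-- Controls. -/
abbrev CC (c : ToPartrec.Code) := {o : Option SS // o ∈ stm c} × Option Γ'

/-- The machine of a code. -/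
def mach (c : ToPartrec.Code) : RM (CC c) XX where
  Mv := fun p q s => MvR p.1.val p.2 q.1.val q.2 s
  H := fun p => p.1.val = none

/-- The embedding of configurations. -/
def emb {c : ToPartrec.Code} (p : CC c × List XX) : Option SS × Option Γ' × List XX :=
  (p.1.1.val, p.1.2, p.2)

theorem emb_inj {c : ToPartrec.Code} {p q : CC c × List XX} (h : emb p = emb q) : p = q := by
  obtain ⟨⟨⟨o, ho⟩, v⟩, W⟩ := p
  obtain ⟨⟨⟨o', ho'⟩, v'⟩, W'⟩ := q
  simp only [emb, Prod.mk.injEq] at h
  obtain ⟨rfl, rfl, rfl⟩ := h
  rfl

theorem step_iff {c : ToPartrec.Code} (p q : CC c × List XX) :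
    (mach c).Step p q ↔ mstep (emb p) = some (emb q) :=
  mv_iff _ _ _ _ _ _

theorem mach_det (c : ToPartrec.Code) : (mach c).Det where
  det := by
    intro p q r hpq hpr
    rw [step_iff] at hpq hpr
    rw [hpq] at hpr
    exact emb_inj (Option.some.inj hpr)
  fin := by
    intro p q hH h
    rw [step_iff] at h
    have : emb p = (none, p.1.2, p.2) := by
      unfold emb
      rw [show p.1.1.val = none from hH]
    rw [this] at h
    simp [mstep] at h

theorem hlt_iff {c : ToPartrec.Code} (p : CC c × List XX) :
    (mach c).Hlt p ↔ (eval mstep (emb p)).Dom := by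
  constructor
  · rintro ⟨q, hq, hpq⟩
    have h1 : Reaches mstep (emb p) (emb q) := by
      clear hq
      induction hpq with
      | refl => exact .refl
      | tail _ hst ih => exact ih.tail ((step_iff _ _).1 hst)
    have h2 : mstep (emb q) = none := by
      have : emb q = (none, q.1.2, q.2) := by
        unfold emb
        rw [show q.1.1.val = none from hq]
      rw [this]; rfl
    have := mem_eval.2 ⟨h1, h2⟩
    exact Part.dom_iff_mem.2 ⟨_, this⟩
  · intro h
    obtain ⟨b, hb⟩ := Part.dom_iff_mem.1 h
    obtain ⟨h1, h2⟩ := mem_eval.1 hb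
    have : ∃ q : CC c × List XX, b = emb q ∧ Relation.ReflTransGen (mach c).Step p q := by
      clear h2 hb h
      induction h1 with
      | refl => exact ⟨p, rfl, .refl⟩
      | @tail b' b'' _ hst ih =>
        obtain ⟨q, rfl, hq⟩ := ih
        obtain ⟨o', v', W'⟩ := b''
        have hmem : o' ∈ stm c := stm_closed c q.1.1.2 hst
        refine ⟨((⟨o', hmem⟩, v'), W'), rfl, hq.tail ?_⟩
        rw [step_iff]
        exact hst
    obtain ⟨q, rfl, hq⟩ := this
    refine ⟨q, ?_, hq⟩
    change q.1.1.val = none
    cases ho : q.1.1.val with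
    | none => rfl
    | some s =>
      exfalso
      have : emb q = (some s, q.1.2, q.2) := by unfold emb; rw [ho]
      rw [this] at h2
      cases s <;> simp [mstep] at h2

/-- The initial control. -/
def cstart (c : ToPartrec.Code) : CC c := (⟨some (tr (trNormal c Cont'.halt)), start_mem c⟩, none)

theorem projK_main (L : List Γ') : projK (L.map (fun g => (K'.main, g))) = K'.elim L [] [] [] := by
  funext k
  induction L with
  | nil => cases k <;> rfl
  | cons g L ih =>
    rw [List.map_cons]
    by_cases h : K'.main = k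
    · subst h
      rw [projK_cons_self, ih]
      rfl
    · rw [projK_cons_ne h, ih]
      cases k
      · exact absurd rfl h
      · rfl
      · rfl
      · rfl

theorem trNum_bit1 (k : Num) : trNum k.bit1 = Γ'.bit1 :: trNum k := by
  cases k <;> rfl

theorem trNat_ones (n : ℕ) : trNat (2 ^ n - 1) = List.replicate n Γ'.bit1 := by
  induction n with
  | zero => simp
  | succ n ih =>
    have h1 : 2 ^ (n + 1) - 1 = (2 ^ n - 1) + (2 ^ n - 1) + 1 := by
      have := Nat.one_le_two_pow (n := n)
      rw [pow_succ]; omega
    rw [List.replicate_succ, ← ih, h1]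
    unfold trNat
    rw [← trNum_bit1]
    congr 1
    push_cast
    rw [Num.bit1_of_bit1]

/-- Halting of the machine of a code on a unary input. -/
theorem hlt_start (c : ToPartrec.Code) (n : ℕ) :
    (mach c).Hlt (cstart c, List.replicate n (K'.main, Γ'.bit1) ++ [(K'.main, Γ'.cons)]) ↔
      (c.eval [2 ^ n - 1]).Dom := by
  rw [hlt_iff]
  have hW : (List.replicate n (K'.main, Γ'.bit1) ++ [(K'.main, Γ'.cons)] : List XX) =
      (trList [2 ^ n - 1]).map (fun g => (K'.main, g)) := by
    simp [trNat_ones]
  have h1 : trRel (init c [2 ^ n - 1]) (emb (c := c) (cstart c,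
      List.replicate n (K'.main, Γ'.bit1) ++ [(K'.main, Γ'.cons)])) := by
    refine ⟨_, ?_, rfl⟩
    rw [hW, projK_main]
    rfl
  rw [tr_eval_dom mrespects h1, PartrecToTM2.tr_eval]
  rfl

end Pool.Agent.Helper27
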