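import Mathlib
import Pool.Agent.Helper55.AMachine2

/-!
# Closed classes of relations on tuples of naturals contain an undecidable set

A class of relations on finite tuples of naturals closed under `and`, finite `or`, renaming,
existential quantification and reflexive transitive closure, and containing the affine relations
`v i = m * v j + c`, contains an undecidable set of naturals.
-/

set_option autoImplicit false
set_option linter.unusedSectionVars false

namespace Pool.Agent.Helper27

open Sum in
structure Closed (D : ∀ {α : Type}, ((α → ℕ) → Prop) → Prop) : Prop where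
  and : ∀ {α : Type} {P Q : (α → ℕ) → Prop}, D P → D Q → D (fun v => P v ∧ Q v)
  or : ∀ {α : Type} [Finite α] {P Q : (α → ℕ) → Prop}, D P → D Q → D (fun v => P v ∨ Q v)
  rename : ∀ {α γ : Type} [Finite γ] {P : (α → ℕ) → Prop} (f : α → γ), D P →
    D (fun v : γ → ℕ => P (fun a => v (f a)))
  ex : ∀ {α γ : Type} [Finite γ] {P : (α ⊕ γ → ℕ) → Prop}, D P →
    D (fun v : α → ℕ => ∃ u : γ → ℕ, P (Sum.elim v u))
  aff : ∀ {α : Type} [Finite α] (i j : α) (m c : ℕ), D (fun v : α → ℕ => v i = m * v j + c)
  star : ∀ {α : Type} [Finite α] {R : (α → ℕ) → (α → ℕ) → Prop},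
    D (fun v : α ⊕ α → ℕ => R (fun a => v (inl a)) (fun a => v (inr a))) →
    D (fun v : α ⊕ α → ℕ =>
      Relation.ReflTransGen R (fun a => v (inl a)) (fun a => v (inr a)))

namespace Closed

variable {D : ∀ {α : Type}, ((α → ℕ) → Prop) → Prop} (h : Closed @D)

include h

theorem congr {α : Type} {P Q : (α → ℕ) → Prop} (hP : D P) (e : ∀ v, P v ↔ Q v) : D Q := by
  have : P = Q := funext fun v => propext (e v)
  exact this ▸ hP

theorem const {α : Type} [Finite α] (i : α) (c : ℕ) : D (fun v : α → ℕ => v i = c) :=
  h.congr (h.aff i i 0 c) fun v => by simp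

theorem eq {α : Type} [Finite α] (i j : α) : D (fun v : α → ℕ => v i = v j) :=
  h.congr (h.aff i j 1 0) fun v => by simp

theorem true {α : Type} [Finite α] (i : α) : D (fun _ : α → ℕ => True) :=
  h.congr (h.eq i i) fun v => by simp

theorem false {α : Type} [Finite α] (i : α) : D (fun _ : α → ℕ => False) :=
  h.congr (h.and (h.const i 0) (h.const i 1)) fun v => by
    constructor
    · rintro ⟨h1, h2⟩; omega
    · exact False.elim

theorem finsetAll {α β : Type} [Finite α] (i : α) (S : Finset β) (P : β → (α → ℕ) → Prop)
    (hP : ∀ b ∈ S, D (P b)) : D (fun v => ∀ b ∈ S, P b v) := by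
  classical
  induction S using Finset.induction_on with
  | empty => exact h.congr (h.true i) fun v => by simp
  | insert a S ha ih =>
    have h1 := hP a (Finset.mem_insert_self _ _)
    have h2 := ih fun b hb => hP b (Finset.mem_insert_of_mem hb)
    exact h.congr (h.and h1 h2) fun v => by simp

theorem finsetEx {α β : Type} [Finite α] (i : α) (S : Finset β) (P : β → (α → ℕ) → Prop)
    (hP : ∀ b ∈ S, D (P b)) : D (fun v => ∃ b ∈ S, P b v) := by
  classical
  induction S using Finset.induction_on with
  | empty => exact h.congr (h.false i) fun v => by simp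
  | insert a S ha ih =>
    have h1 := hP a (Finset.mem_insert_self _ _)
    have h2 := ih fun b hb => hP b (Finset.mem_insert_of_mem hb)
    exact h.congr (h.or h1 h2) fun v => by simp

theorem ex1 {α : Type} {P : (Option α → ℕ) → Prop} [Finite α] (hP : D P) :
    D (fun v : α → ℕ => ∃ t : ℕ, P (fun o => o.elim t v)) := by
  have h1 := h.rename (γ := α ⊕ Unit) (fun o : Option α => o.elim (Sum.inr ()) Sum.inl) hP
  have h2 := h.ex h1
  refine h.congr h2 fun v => ?_
  have key : ∀ u : Unit → ℕ, (fun a : Option α =>
      (Sum.elim v u (a.elim (Sum.inr ()) Sum.inl : α ⊕ Unit) : ℕ)) =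
      fun o => o.elim (u ()) v := by
    intro u; funext o; cases o <;> rfl
  constructor
  · rintro ⟨u, hu⟩
    refine ⟨u (), ?_⟩
    rw [key u] at hu; exact hu
  · rintro ⟨t, ht⟩
    refine ⟨fun _ => t, ?_⟩
    rw [key]; exact ht

end Closed

/-! ### The machine -/

open Helper55 Helper55.SimTM2 StateTransition Turing.PartrecToTM2

instance instFintypeK' : Fintype K' where
  elems := {K'.main, K'.rev, K'.aux, K'.stack}
  complete := by intro k; cases k <;> simp

/-- Step relation on naturals, for the states in `T` with code `cd`. -/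
def RR (T : Finset QS) (code : Option QS → ℕ) (a b : Option K' → ℕ) : Prop :=
  ∃ q ∈ T, ∃ d ∈ Finset.range 5, ∃ t : ℕ,
    a none = code (some q) ∧ a (some (mach.rd q)) = 5 * t + d ∧
    b (some (mach.rd q)) = mach.mul q d * t + mach.add q d ∧
    b none = code (mach.nx q d) ∧
    ∀ k ∈ (Finset.univ : Finset K').erase (mach.rd q), b (some k) = a (some k)

theorem Closed.RR {D : ∀ {α : Type}, ((α → ℕ) → Prop) → Prop} (h : Closed @D)
    (T : Finset QS) (code : Option QS → ℕ) :
    D (fun v : Option K' ⊕ Option K' → ℕ =>
      RR T code (fun a => v (Sum.inl a)) (fun a => v (Sum.inr a))) := by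
  unfold Helper27.RR
  refine h.finsetEx (Sum.inl none) T _ fun q _ => ?_
  refine h.finsetEx (Sum.inl none) (Finset.range 5) _ fun d _ => ?_
  have h1 : D (fun w : Option (Option K' ⊕ Option K') → ℕ =>
      w (some (Sum.inl none)) = code (some q) ∧
      w (some (Sum.inl (some (mach.rd q)))) = 5 * w none + d ∧
      w (some (Sum.inr (some (mach.rd q)))) = mach.mul q d * w none + mach.add q d ∧
      w (some (Sum.inr none)) = code (mach.nx q d) ∧
      ∀ k ∈ (Finset.univ : Finset K').erase (mach.rd q),
        w (some (Sum.inr (some k))) = w (some (Sum.inl (some k)))) :=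
    h.and (h.const _ _) (h.and (h.aff _ _ _ _) (h.and (h.aff _ _ _ _) (h.and (h.const _ _)
      (h.finsetAll none _ _ fun k _ => h.eq _ _))))
  exact h.ex1 h1

/-- A code for the states. -/
noncomputable def codeT (T : Finset QS) : Option QS → ℕ
  | none => 0
  | some q => open scoped Classical in if hq : q ∈ T then (T.equivFin ⟨q, hq⟩ : ℕ) + 1 else 0

theorem codeT_pos {T : Finset QS} {q : QS} (hq : q ∈ T) : codeT T (some q) ≠ 0 := by
  simp [codeT, hq]

theorem codeT_inj {T : Finset QS} {q q' : QS} (hq : q ∈ T) (hq' : q' ∈ T)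
    (e : codeT T (some q) = codeT T (some q')) : q = q' := by
  simp only [codeT, hq, hq', dif_pos] at e
  have e1 : T.equivFin ⟨q, hq⟩ = T.equivFin ⟨q', hq'⟩ := by
    apply Fin.ext; omega
  have e2 := T.equivFin.injective e1
  exact congrArg Subtype.val e2

/-- Encoding of configurations. -/
noncomputable def encN (T : Finset QS) (c : Option QS) (s : K' → ℕ) : Option K' → ℕ
  | none => codeT T c
  | some k => s k

/-- The cast of natural registers. -/
def castR (s : K' → ℕ) : K' → ℤ := fun k => (s k : ℤ)

/-- Natural update. -/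
def updN (q : QS) (s : K' → ℕ) : K' → ℕ :=
  Function.update s (mach.rd q)
    (mach.mul q (s (mach.rd q) % 5) * (s (mach.rd q) / 5) + mach.add q (s (mach.rd q) % 5))

theorem digit_cast (q : QS) (s : K' → ℕ) : mach.digit q (castR s) = s (mach.rd q) % 5 := by
  unfold AM.digit castR
  have : (mach.m : ℤ) = 5 := rfl
  rw [this]
  omega

theorem upd_cast (q : QS) (s : K' → ℕ) : mach.upd q (castR s) = castR (updN q s) := by
  unfold AM.upd
  rw [digit_cast]
  funext k
  by_cases hk : k = mach.rd q
  · subst hk
    simp only [Function.update_self, castR, updN]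
    have : (mach.m : ℤ) = 5 := rfl
    rw [this]
    push_cast
    rfl
  · simp only [castR, updN, Function.update_of_ne hk]

theorem RR_iff {T : Finset QS} {q : QS} (hq : q ∈ T) (s : K' → ℕ) (b : Option K' → ℕ) :
    RR T (codeT T) (encN T (some q) s) b ↔
      b = encN T (mach.nx q (s (mach.rd q) % 5)) (updN q s) := by
  constructor
  · rintro ⟨q', hq', d, hd, t, h1, h2, h3, h4, h5⟩
    have e : q = q' := codeT_inj hq hq' h1
    subst e
    rw [Finset.mem_range] at hd
    have h2' : s (mach.rd q) = 5 * t + d := h2
    have hd' : s (mach.rd q) % 5 = d := by omega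
    have ht : s (mach.rd q) / 5 = t := by omega
    funext o
    cases o with
    | none => rw [h4, hd']; rfl
    | some k =>
      by_cases hk : k = mach.rd q
      · subst hk
        rw [h3]
        show _ = updN q s (mach.rd q)
        rw [updN, Function.update_self, hd', ht]
      · rw [h5 k (by simp [hk])]
        show s k = updN q s k
        rw [updN, Function.update_of_ne hk]
  · rintro rfl
    refine ⟨q, hq, s (mach.rd q) % 5, by rw [Finset.mem_range]; omega, s (mach.rd q) / 5,
      rfl, ?_, ?_, rfl, ?_⟩
    · show s (mach.rd q) = _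
      omega
    · show updN q s (mach.rd q) = _
      rw [updN, Function.update_self]
    · intro k hk
      have hk' : k ≠ mach.rd q := by simpa using hk
      show updN q s k = s k
      rw [updN, Function.update_of_ne hk']

theorem not_RR_none {T : Finset QS} (s : K' → ℕ) (b : Option K' → ℕ) :
    ¬ RR T (codeT T) (encN T none s) b := by
  rintro ⟨q', hq', d, hd, t, h1, -⟩
  exact codeT_pos hq' h1.symm

/-- Good control states. -/
def Good (T : Finset QS) (c : Option QS) : Prop := ∀ q, c = some q → q ∈ T

theorem reaches_of_RR {T : Finset QS}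
    (hT : ∀ q ∈ T, ∀ d q', mach.nx q d = some q' → q' ∈ T)
    {c : Option QS} {s : K' → ℕ} (hc : Good T c) {b : Option K' → ℕ}
    (hb : Relation.ReflTransGen (RR T (codeT T)) (encN T c s) b) :
    ∃ c' s', Good T c' ∧ b = encN T c' s' ∧ Reaches mach.step (c, castR s) (c', castR s') := by
  induction hb with
  | refl => exact ⟨c, s, hc, rfl, Relation.ReflTransGen.refl⟩
  | tail _ h2 ih =>
    obtain ⟨c', s', hc', rfl, hr⟩ := ih
    cases c' with
    | none => exact absurd h2 (not_RR_none _ _)
    | some q =>
      have hq := hc' q rfl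
      rw [RR_iff hq] at h2
      refine ⟨_, _, ?_, h2, hr.tail ?_⟩
      · intro q' h'; exact hT q hq _ q' h'
      · show _ ∈ mach.step (some q, castR s')
        rw [AM.step_some, upd_cast, digit_cast]
        rfl

theorem RR_of_reaches {T : Finset QS}
    (hT : ∀ q ∈ T, ∀ d q', mach.nx q d = some q' → q' ∈ T)
    {c : Option QS} {s : K' → ℕ} (hc : Good T c) {x : Option QS × (K' → ℤ)}
    (hx : Reaches mach.step (c, castR s) x) :
    ∃ c' s', Good T c' ∧ x = (c', castR s') ∧
      Relation.ReflTransGen (RR T (codeT T)) (encN T c s) (encN T c' s') := by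
  induction hx with
  | refl => exact ⟨c, s, hc, rfl, Relation.ReflTransGen.refl⟩
  | tail _ h2 ih =>
    obtain ⟨c', s', hc', rfl, hr⟩ := ih
    cases c' with
    | none => simp at h2
    | some q =>
      have hq := hc' q rfl
      rw [AM.step_some, upd_cast, digit_cast] at h2
      have h3 := (Option.some.inj h2).symm
      refine ⟨_, _, ?_, h3, hr.tail ((RR_iff hq _ _).2 rfl)⟩
      intro q' h'; exact hT q hq _ q' h'

theorem halts_iff_RR {T : Finset QS}
    (hT : ∀ q ∈ T, ∀ d q', mach.nx q d = some q' → q' ∈ T)
    {c : Option QS} {s : K' → ℕ} (hc : Good T c) :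
    mach.Halts (c, castR s) ↔
      ∃ b, Relation.ReflTransGen (RR T (codeT T)) (encN T c s) b ∧ b none = 0 := by
  constructor
  · intro hh
    obtain ⟨x, hx⟩ := Part.dom_iff_mem.1 hh
    rw [mem_eval] at hx
    obtain ⟨c', s', hc', rfl, hr⟩ := RR_of_reaches hT hc hx.1
    refine ⟨_, hr, ?_⟩
    cases c' with
    | none => rfl
    | some q => simp at hx
  · rintro ⟨b, hb, h0⟩
    obtain ⟨c', s', hc', rfl, hr⟩ := reaches_of_RR hT hc hb
    cases c' with
    | some q => exact absurd h0 (codeT_pos (hc' q rfl))
    | none =>
      apply Part.dom_iff_mem.2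
      exact ⟨_, mem_eval.2 ⟨hr, rfl⟩⟩

theorem Closed.exists_undecidable {D : ∀ {α : Type}, ((α → ℕ) → Prop) → Prop}
    (h : Closed @D) :
    ∃ H : (Unit → ℕ) → Prop, D H ∧ ¬ ComputablePred (fun n : ℕ => H (fun _ => n)) := by
  obtain ⟨T, q₀, hq₀, hT, hund⟩ := exists_machine
  -- the set
  let P : (Unit ⊕ (Option K' ⊕ Option K') → ℕ) → Prop := fun w =>
    Relation.ReflTransGen (Helper27.RR T (codeT T)) (fun a => w (Sum.inr (Sum.inl a)))
      (fun a => w (Sum.inr (Sum.inr a))) ∧
    w (Sum.inr (Sum.inl none)) = codeT T (some q₀) ∧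
    w (Sum.inr (Sum.inr none)) = 0 ∧
    w (Sum.inr (Sum.inl (some K'.main))) = w (Sum.inl ()) ∧
    ∀ k ∈ (Finset.univ : Finset K').erase K'.main, w (Sum.inr (Sum.inl (some k))) = 0
  have hP : D P := by
    have h1 := h.rename (γ := Unit ⊕ (Option K' ⊕ Option K')) Sum.inr (h.star (h.RR T (codeT T)))
    exact h.and h1 (h.and (h.const _ _) (h.and (h.const _ _) (h.and (h.eq _ _)
      (h.finsetAll (Sum.inl ()) _ _ fun k _ => h.const _ _))))
  refine ⟨_, h.ex hP, ?_⟩
  intro hcomp
  apply hund
  have key : ∀ n : ℕ, (∃ u : (Option K' ⊕ Option K') → ℕ, P (Sum.elim (fun _ => inp n) u)) ↔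
      mach.Halts (some q₀, Function.update (fun _ => 0) K'.main (inp n : ℤ)) := by
    intro n
    have hcast : castR (Function.update (fun _ => 0) K'.main (inp n)) =
        Function.update (fun _ => 0) K'.main (inp n : ℤ) := by
      funext k
      by_cases hk : k = K'.main
      · subst hk; simp [castR]
      · simp [castR, Function.update_of_ne hk]
    rw [← hcast, halts_iff_RR hT (fun q hq => by rw [← Option.some.inj hq]; exact hq₀)]
    constructor
    · rintro ⟨u, h1, h2, h3, h4, h5⟩
      refine ⟨fun a => u (Sum.inr a), ?_, h3⟩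
      have e : encN T (some q₀) (Function.update (fun _ => 0) K'.main (inp n)) =
          fun a => u (Sum.inl a) := by
        funext o
        cases o with
        | none => exact h2.symm
        | some k =>
          by_cases hk : k = K'.main
          · subst hk
            show Function.update (fun _ => 0) K'.main (inp n) K'.main = _
            rw [Function.update_self]
            exact h4.symm
          · show Function.update (fun _ => 0) K'.main (inp n) k = _
            rw [Function.update_of_ne hk]
            exact (h5 k (by simp [hk])).symm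
      rw [e]
      exact h1
    · rintro ⟨b, hb, h0⟩
      refine ⟨Sum.elim (encN T (some q₀) (Function.update (fun _ => 0) K'.main (inp n))) b,
        hb, rfl, h0, ?_, ?_⟩
      · show Function.update (fun _ => 0) K'.main (inp n) K'.main = inp n
        rw [Function.update_self]
      · intro k hk
        have hk' : k ≠ K'.main := by simpa using hk
        show Function.update (fun _ => 0) K'.main (inp n) k = 0
        rw [Function.update_of_ne hk']
  have hred : ComputablePred (fun n : ℕ =>
      ∃ u : (Option K' ⊕ Option K') → ℕ, P (Sum.elim (fun _ => inp n) u)) := by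
    obtain ⟨f, hf1, hf2⟩ := ComputablePred.computable_iff.1 hcomp
    rw [ComputablePred.computable_iff]
    refine ⟨fun n => f (inp n), hf1.comp primrec_inp.to_comp, ?_⟩
    funext n
    exact congrFun hf2 (inp n)
  exact ComputablePred.of_eq hred key

end Pool.Agent.Helper27
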