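import Pool.Agent.Helper30.SatB.Defs
import Pool.Agent.Helper30.SatB.Rel
import Pool.Agent.Helper30.SatB.Comp

/-!
# High sets compute dominating functions (easy direction of Martin's theorem)

If the jump of `X` computes the double jump of the empty set then `X` computes a function which
eventually dominates every total computable function.
-/

set_option autoImplicit false

namespace Pool.Agent.Helper27.High

open Pool.Agent.Helper30.SatB Nat.Partrec.Code
open Nat.Partrec (Code)
open Denumerable (ofNat)

/-! ### The total codes are coenumerable in the jump of the empty set -/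

theorem exists_dom_code : ∃ e : ℕ, ∀ i c n : ℕ,
    (eval (ofNat Code e) (Nat.pair i (Nat.pair c n))).Dom ↔ (eval (ofNat Code c) n).Dom := by
  have h1 : Partrec fun z : ℕ => eval (ofNat Code z.unpair.2.unpair.1) z.unpair.2.unpair.2 := by
    have h2 : Computable fun z : ℕ => z.unpair.2.unpair :=
      Computable.unpair.comp (Computable.snd.comp Computable.unpair)
    exact eval_part.comp ((Computable.ofNat Code).comp (Computable.fst.comp h2))
      (Computable.snd.comp h2)
  obtain ⟨cd, hcd⟩ := exists_code.1 (Partrec.nat_iff.1 h1)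
  refine ⟨Encodable.encode cd, fun i c n => ?_⟩
  rw [Denumerable.ofNat_encode, hcd]
  simp

theorem exists_search_code (e₀ : ℕ) : ∃ e : ℕ, ∀ (σ : List ℕ) (c : ℕ),
    (eval (ofNat Code e) (Nat.pair (Encodable.encode σ) c)).Dom ↔
      ∃ n < σ.length, σ[Nat.pair e₀ (Nat.pair c n)]? = some 0 := by
  have hdec : Computable fun z : ℕ => (Encodable.decode (α := List ℕ) z.unpair.1).getD [] :=
    Computable.option_getD (Computable.decode.comp (Computable.fst.comp Computable.unpair))
      (Computable.const _)
  have hP : Computable fun z : ℕ =>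
      (List.range ((Encodable.decode (α := List ℕ) z.unpair.1).getD []).length).any fun n =>
        decide (((Encodable.decode (α := List ℕ) z.unpair.1).getD [])[Nat.pair e₀
          (Nat.pair z.unpair.2 n)]? = some 0) := by
    refine comp_any (comp_range.comp (Computable.list_length.comp hdec)) ?_
    have h1 : Computable fun q : ℕ × ℕ =>
        ((Encodable.decode (α := List ℕ) q.1.unpair.1).getD [])[Nat.pair e₀
          (Nat.pair q.1.unpair.2 q.2)]? := by
      refine Computable.list_getElem?.comp (hdec.comp Computable.fst) ?_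
      have h2 : Primrec fun q : ℕ × ℕ => Nat.pair e₀ (Nat.pair q.1.unpair.2 q.2) :=
        Primrec₂.natPair.comp (Primrec.const _) (Primrec₂.natPair.comp
          (Primrec.snd.comp (Primrec.unpair.comp Primrec.fst)) Primrec.snd)
      exact h2.to_comp
    have h3 : Primrec fun o : Option ℕ => decide (o = some 0) :=
      (Primrec.eq.comp Primrec.id (Primrec.const (some 0))).decide
    exact (h3.to_comp.comp h1).to₂
  have h1 : Partrec fun z : ℕ => ((bif
      ((List.range ((Encodable.decode (α := List ℕ) z.unpair.1).getD []).length).any fun n =>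
        decide (((Encodable.decode (α := List ℕ) z.unpair.1).getD [])[Nat.pair e₀
          (Nat.pair z.unpair.2 n)]? = some 0)) then some 0 else none : Option ℕ) : Part ℕ) :=
    Computable.ofOption (Computable.cond hP (Computable.const _) (Computable.const _))
  obtain ⟨cd, hcd⟩ := exists_code.1 (Partrec.nat_iff.1 h1)
  refine ⟨Encodable.encode cd, fun σ c => ?_⟩
  rw [Denumerable.ofNat_encode, hcd]
  simp only [Nat.unpair_pair, Encodable.encodek, Option.getD_some]
  rw [Part.ofOption_dom]
  cases hb : (List.range σ.length).any fun n =>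
      decide (σ[Nat.pair e₀ (Nat.pair c n)]? = some 0) with
  | true =>
    simp only [cond_true, Option.isSome_some, true_iff]
    rw [List.any_eq_true] at hb
    obtain ⟨n, hn, h⟩ := hb
    exact ⟨n, List.mem_range.1 hn, by simpa using h⟩
  | false =>
    simp only [cond_false, Option.isSome_none, Bool.false_eq_true, false_iff]
    rintro ⟨n, hn, h⟩
    rw [List.any_eq_false] at hb
    exact hb n (List.mem_range.2 hn) (by simpa using h)

theorem charFun_eq_zero {A : Set ℕ} {n : ℕ} : charFun A n = 0 ↔ n ∉ A := by
  unfold charFun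
  split_ifs with h <;> simp [h]

theorem charFun_eq_one {A : Set ℕ} {n : ℕ} : charFun A n = 1 ↔ n ∈ A := by
  unfold charFun
  split_ifs with h <;> simp [h]

theorem initSeg_eq (f : ℕ → ℕ) (k : ℕ) : initSeg f k = Encodable.encode (initList f k) := rfl

/-- Totality of codes is many-one reducible to the complement of the double jump. -/
theorem exists_total_index : ∃ e : ℕ, ∀ c : ℕ,
    Nat.pair e c ∈ jump (jump ∅) ↔ ¬ ∀ n, (eval (ofNat Code c) n).Dom := by
  obtain ⟨e₀, he₀⟩ := exists_dom_code
  obtain ⟨e₁, he₁⟩ := exists_search_code e₀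
  refine ⟨e₁, fun c => ?_⟩
  have h1 : ∀ n, Nat.pair e₀ (Nat.pair c n) ∈ jump ∅ ↔ (eval (ofNat Code c) n).Dom := by
    intro n
    simp only [jump, Set.mem_ofPred_eq, Nat.unpair_pair]
    constructor
    · rintro ⟨k, hk⟩
      exact (he₀ _ _ _).1 hk
    · intro h
      exact ⟨0, (he₀ _ _ _).2 h⟩
  have h2 : Nat.pair e₁ c ∈ jump (jump ∅) ↔ ∃ k, ∃ n < k,
      (initList (charFun (jump ∅)) k)[Nat.pair e₀ (Nat.pair c n)]? = some 0 := by
    simp only [jump, Set.mem_ofPred_eq, Nat.unpair_pair]
    refine exists_congr fun k => ?_
    rw [initSeg_eq, he₁, initList_length]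
  rw [h2, not_forall]
  constructor
  · rintro ⟨k, n, hn, h⟩
    refine ⟨n, fun hdom => ?_⟩
    obtain ⟨hlt, hval⟩ := List.getElem?_eq_some_iff.1 h
    rw [initList_length] at hlt
    rw [initList_getElem? _ _ _ hlt, Option.some.injEq, charFun_eq_zero, h1] at h
    exact h hdom
  · rintro ⟨n, hn⟩
    refine ⟨max n (Nat.pair e₀ (Nat.pair c n)) + 1, n, by omega, ?_⟩
    rw [initList_getElem? _ _ _ (by omega), Option.some.injEq, charFun_eq_zero, h1]
    exact hn

/-! ### Stage approximations -/

/-- Stage approximation of the jump from an initial segment of the oracle. -/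
def stageJ (σ : List ℕ) (m : ℕ) : ℕ :=
  bif (List.range (σ.length + 1)).any (fun k =>
    (evaln σ.length (ofNat Code m.unpair.1)
      (Nat.pair (Encodable.encode (σ.take k)) m.unpair.2)).isSome) then 1 else 0

theorem stageJ_comp : Computable₂ stageJ := by
  have hl : Computable fun p : List ℕ × ℕ => List.range (p.1.length + 1) :=
    comp_range.comp (Computable.succ.comp (Computable.list_length.comp Computable.fst))
  have h1 : Primrec fun q : (List ℕ × ℕ) × ℕ =>
      (evaln q.1.1.length (ofNat Code q.1.2.unpair.1)
        (Nat.pair (Encodable.encode (q.1.1.take q.2)) q.1.2.unpair.2)).isSome := by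
    refine Primrec.option_isSome.comp (primrec_evaln.comp (Primrec.pair (Primrec.pair ?_ ?_) ?_))
    · exact Primrec.list_length.comp (Primrec.fst.comp Primrec.fst)
    · exact (Primrec.ofNat Code).comp (Primrec.fst.comp (Primrec.unpair.comp
        (Primrec.snd.comp Primrec.fst)))
    · exact Primrec₂.natPair.comp (Primrec.encode.comp (Primrec.list_take.comp Primrec.snd
        (Primrec.fst.comp Primrec.fst))) (Primrec.snd.comp (Primrec.unpair.comp
        (Primrec.snd.comp Primrec.fst)))
  exact Computable.cond (comp_any hl h1.to_comp.to₂) (Computable.const _) (Computable.const _)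

theorem initList_take (X : ℕ → ℕ) {k s : ℕ} (h : k ≤ s) :
    (initList X s).take k = initList X k := by
  simp only [initList, ← List.map_take, List.take_range, min_eq_left h]

theorem stageJ_le (σ : List ℕ) (m : ℕ) : stageJ σ m = 0 ∨ stageJ σ m = 1 := by
  unfold stageJ
  cases (List.range (σ.length + 1)).any _ <;> simp

theorem stageJ_eq_one (X : Set ℕ) (s m : ℕ) :
    stageJ (initList (charFun X) s) m = 1 ↔ ∃ k ≤ s,
      (evaln s (ofNat Code m.unpair.1)
        (Nat.pair (initSeg (charFun X) k) m.unpair.2)).isSome := by
  unfold stageJ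
  rw [initList_length]
  constructor
  · intro h
    cases hb : (List.range (s + 1)).any (fun k =>
      (evaln s (ofNat Code m.unpair.1)
      (Nat.pair (Encodable.encode ((initList (charFun X) s).take k)) m.unpair.2)).isSome) with
    | true =>
      rw [List.any_eq_true] at hb
      obtain ⟨k, hk, h⟩ := hb
      have hk' : k ≤ s := by
        have := List.mem_range.1 hk
        omega
      rw [initList_take _ hk'] at h
      exact ⟨k, hk', h⟩
    | false =>
      rw [hb] at h
      exact absurd h (by simp)
  · rintro ⟨k, hk, h⟩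
    have hb : (List.range (s + 1)).any (fun k =>
      (evaln s (ofNat Code m.unpair.1)
      (Nat.pair (Encodable.encode ((initList (charFun X) s).take k)) m.unpair.2)).isSome)
        = true := by
      rw [List.any_eq_true]
      refine ⟨k, List.mem_range.2 (by omega), ?_⟩
      rw [initList_take _ hk]
      exact h
    rw [hb]
    rfl

/-- The stage approximations converge to the jump. -/
theorem stageJ_limit (X : Set ℕ) (m : ℕ) :
    ∃ s₀, ∀ s ≥ s₀, stageJ (initList (charFun X) s) m = charFun (jump X) m := by
  by_cases hm : m ∈ jump X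
  · obtain ⟨k, hk⟩ := hm
    obtain ⟨x, hx⟩ := Part.dom_iff_mem.1 hk
    obtain ⟨j, hj⟩ := evaln_complete.1 hx
    refine ⟨max k j, fun s hs => ?_⟩
    rw [charFun_eq_one.2 (show m ∈ jump X from ⟨k, hk⟩), stageJ_eq_one]
    refine ⟨k, by omega, ?_⟩
    have h2 := evaln_mono (show j ≤ s by omega) hj
    rw [Option.mem_def] at h2
    rw [h2]
    rfl
  · refine ⟨0, fun s _ => ?_⟩
    rw [charFun_eq_zero.2 hm]
    rcases stageJ_le (initList (charFun X) s) m with h | h
    · exact h
    · exfalso
      rw [stageJ_eq_one] at h
      obtain ⟨k, _, h⟩ := h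
      obtain ⟨x, hx⟩ := Option.isSome_iff_exists.1 h
      exact hm ⟨k, Part.dom_iff_mem.2 ⟨x, evaln_sound hx⟩⟩

/-- Uniform convergence on initial segments. -/
theorem stageJ_limit_initList (X : Set ℕ) (k : ℕ) :
    ∃ s₀, ∀ s ≥ s₀, ∀ j ≤ k, (List.range j).map (stageJ (initList (charFun X) s)) =
      initList (charFun (jump X)) j := by
  have h1 : ∀ k, ∃ s₀, ∀ s ≥ s₀, ∀ m < k,
      stageJ (initList (charFun X) s) m = charFun (jump X) m := by
    intro k
    induction k with
    | zero => exact ⟨0, fun s _ m hm => absurd hm (by omega)⟩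
    | succ k ih =>
      obtain ⟨s₀, hs₀⟩ := ih
      obtain ⟨s₁, hs₁⟩ := stageJ_limit X k
      refine ⟨max s₀ s₁, fun s hs m hm => ?_⟩
      rcases Nat.lt_succ_iff_lt_or_eq.1 hm with h | h
      · exact hs₀ s (by omega) m h
      · rw [h]
        exact hs₁ s (by omega)
  obtain ⟨s₀, hs₀⟩ := h1 k
  refine ⟨s₀, fun s hs j hj => ?_⟩
  unfold initList
  refine List.map_congr_left fun m hm => ?_
  exact hs₀ s hs m (by have := List.mem_range.1 hm; omega)

/-- The first value given by the functional `G` on the stage approximation. -/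
def stageA (G : List ℕ → ℕ → Option ℕ) (σ : List ℕ) (c : ℕ) : Option ℕ :=
  ((List.range (σ.length + 1)).filterMap fun k => G ((List.range k).map (stageJ σ)) c).head?

theorem stageA_comp {G : List ℕ → ℕ → Option ℕ} (hG : Computable₂ G) :
    Computable₂ (stageA G) := by
  have hl : Computable fun p : List ℕ × ℕ => List.range (p.1.length + 1) :=
    comp_range.comp (Computable.succ.comp (Computable.list_length.comp Computable.fst))
  have h1 : Computable fun q : (List ℕ × ℕ) × ℕ =>
      G ((List.range q.2).map (stageJ q.1.1)) q.1.2 := by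
    refine hG.comp ?_ (Computable.snd.comp Computable.fst)
    refine comp_map (comp_range.comp Computable.snd) ?_
    exact (stageJ_comp.comp (Computable.fst.comp (Computable.fst.comp Computable.fst))
      Computable.snd).to₂
  exact Primrec.list_head?.to_comp.comp (comp_filterMap hl h1.to₂)

theorem head_filterMap_range {β : Type} (g : ℕ → Option β) (n : ℕ) (b : β)
    (k : ℕ) (hk : k < n) (hkb : g k = some b) (hlt : ∀ j < k, g j = none) :
    ((List.range n).filterMap g).head? = some b := by
  induction n with
  | zero => exact absurd hk (by omega)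
  | succ n ih =>
    rw [List.range_succ, List.filterMap_append]
    rcases Nat.lt_succ_iff_lt_or_eq.1 hk with h | h
    · rw [List.head?_append, ih h]
      rfl
    · subst h
      have h2 : (List.range k).filterMap g = [] := by
        rw [List.filterMap_eq_nil_iff]
        intro j hj
        exact hlt j (List.mem_range.1 hj)
      rw [h2]
      simp [hkb]

/-- Limit lemma: the approximations converge to the value of the functional. -/
theorem stageA_limit {X : Set ℕ} {G : List ℕ → ℕ → Option ℕ} {c y : ℕ}
    (hG : ∀ z, z = y ↔ ∃ k, G (initList (charFun (jump X)) k) c = some z) :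
    ∃ s₀, ∀ s ≥ s₀, stageA G (initList (charFun X) s) c = some y := by
  classical
  have hex := (hG y).1 rfl
  obtain ⟨s₀, hs₀⟩ := stageJ_limit_initList X (Nat.find hex)
  refine ⟨max s₀ (Nat.find hex), fun s hs => ?_⟩
  unfold stageA
  rw [initList_length]
  refine head_filterMap_range _ _ y (Nat.find hex) (by omega) ?_ ?_
  · rw [hs₀ s (by omega) _ le_rfl]
    exact Nat.find_spec hex
  · intro j hj
    rw [hs₀ s (by omega) j hj.le]
    have h1 := Nat.find_min hex hj
    rcases h2 : G (initList (charFun (jump X)) j) c with _ | z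
    · rfl
    · exfalso
      have h3 := (hG z).2 ⟨j, h2⟩
      rw [h3] at h2
      exact h1 h2

/-! ### The dominating function -/

/-- The stopping test. -/
def test (G : List ℕ → ℕ → Option ℕ) (e : ℕ) (σ : List ℕ) (p : ℕ) : ℕ :=
  bif (evaln σ.length (ofNat Code p.unpair.1) p.unpair.2).isSome ||
    decide (stageA G σ (Nat.pair e p.unpair.1) = some 1) then 0 else 1

theorem test_comp {G : List ℕ → ℕ → Option ℕ} (hG : Computable₂ G) (e : ℕ) :
    Computable₂ (test G e) := by
  refine Computable.cond (comp_or ?_ ?_) (Computable.const _) (Computable.const _)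
  · have h1 : Primrec fun q : List ℕ × ℕ =>
        (evaln q.1.length (ofNat Code q.2.unpair.1) q.2.unpair.2).isSome := by
      refine Primrec.option_isSome.comp (primrec_evaln.comp (Primrec.pair (Primrec.pair ?_ ?_) ?_))
      · exact Primrec.list_length.comp Primrec.fst
      · exact (Primrec.ofNat Code).comp (Primrec.fst.comp (Primrec.unpair.comp Primrec.snd))
      · exact Primrec.snd.comp (Primrec.unpair.comp Primrec.snd)
    exact h1.to_comp
  · have h3 : Primrec fun o : Option ℕ => decide (o = some 1) :=
      (Primrec.eq.comp Primrec.id (Primrec.const (some 1))).decide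
    refine h3.to_comp.comp ((stageA_comp hG).comp Computable.fst ?_)
    have h4 : Primrec fun q : List ℕ × ℕ => Nat.pair e q.2.unpair.1 :=
      Primrec₂.natPair.comp (Primrec.const _) (Primrec.fst.comp (Primrec.unpair.comp Primrec.snd))
    exact h4.to_comp

/-- A computable function of an initial segment of the oracle of computable length. -/
theorem ri_initList {X : ℕ → ℕ} {H : List ℕ → ℕ → ℕ} (hH : Computable₂ H) {l g : ℕ → ℕ}
    (hl : RI X l) (hg : RI X g) : RI X fun p => H (initList X (l p)) (g p) := by
  have hT : Computable₂ fun (i n : ℕ) => H ((Encodable.decode (α := List ℕ) i).getD []) n :=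
    hH.comp (Computable.option_getD (Computable.decode.comp Computable.fst)
      (Computable.const _)) Computable.snd
  refine (RI.comp₂ hT (RI.initList.comp hl) hg).of_eq fun p => ?_
  simp

/-- Finite sums of functions computable from the oracle. -/
theorem ri_sum {X h : ℕ → ℕ} (hh : RI X h) :
    RI X fun n => ∑ c ∈ Finset.range (n + 1), h (Nat.pair c n) := by
  have h1 : RI X fun p : ℕ => h (Nat.pair p.unpair.2.unpair.1 p.unpair.1) +
      p.unpair.2.unpair.2 := by
    have hadd : Computable₂ fun a b : ℕ => a + b := Primrec.nat_add.to_comp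
    refine RI.comp₂ hadd (hh.comp (RI.of_primrec ?_)) (RI.of_primrec ?_)
    · exact Primrec₂.natPair.comp (Primrec.fst.comp (Primrec.unpair.comp
        (Primrec.snd.comp Primrec.unpair))) (Primrec.fst.comp Primrec.unpair)
    · exact Primrec.snd.comp (Primrec.unpair.comp (Primrec.snd.comp Primrec.unpair))
  have h2 := RI.prec (X := X) (RI.of_primrec (Primrec.const 0)) h1
  have h3 := h2.comp (RI.of_primrec (f := fun n : ℕ => Nat.pair n (n + 1))
    (Primrec₂.natPair.comp Primrec.id Primrec.succ))
  refine h3.of_eq fun n => ?_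
  simp only [Nat.unpair_pair]
  have h4 : ∀ m, (Nat.rec 0 (fun y IH => h (Nat.pair y n) + IH) m : ℕ) =
      ∑ c ∈ Finset.range m, h (Nat.pair c n) := by
    intro m
    induction m with
    | zero => simp
    | succ m ih =>
      simp only [ih]
      rw [Finset.sum_range_succ, add_comm]
  exact h4 (n + 1)

/-- **Martin's theorem, easy direction.** A high set computes a function dominating all
computable functions. -/
theorem high_dominates (X : Set ℕ) (h : High X) :
    ∃ f : ℕ → ℕ, TuringReducible (fun n => Part.some (f n)) (fun n => Part.some (charFun X n)) ∧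
      ∀ g : ℕ → ℕ, Computable g → ∃ N, ∀ n ≥ N, g n ≤ f n := by
  classical
  have h' : Nat.RecursiveIn {fun n => Part.some (charFun (jump X) n)}
      (fun n => Part.some (charFun (jump (jump ∅)) n)) :=
    RecursiveIn.iff_nat.1 h
  obtain ⟨G, hG, hGspec⟩ := use_principle (charFun (jump X)) h'
  obtain ⟨e, he⟩ := exists_total_index
  -- limit approximations
  have hlim : ∀ c, ∃ s₀, ∀ s ≥ s₀, stageA G (initList (charFun X) s) (Nat.pair e c) =
      some (charFun (jump (jump ∅)) (Nat.pair e c)) := by
    intro c
    refine stageA_limit fun z => ?_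
    rw [← hGspec, Part.mem_some_iff]
  -- the search terminates
  have hex : ∀ p : ℕ, ∃ s, test G e (initList (charFun X) (p.unpair.2 + s)) p = 0 := by
    intro p
    by_cases hc : ∀ n, (eval (ofNat Code p.unpair.1) n).Dom
    · obtain ⟨x, hx⟩ := Part.dom_iff_mem.1 (hc p.unpair.2)
      obtain ⟨j, hj⟩ := evaln_complete.1 hx
      refine ⟨j, ?_⟩
      unfold test
      have h2 := evaln_mono (show j ≤ p.unpair.2 + j by omega) hj
      rw [Option.mem_def] at h2
      rw [initList_length, h2]
      simp
    · obtain ⟨s₀, hs₀⟩ := hlim p.unpair.1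
      refine ⟨s₀, ?_⟩
      unfold test
      rw [hs₀ _ (by omega), charFun_eq_one.2 ((he _).2 hc)]
      simp
  have hex' : ∀ p : ℕ, ∃ s, (fun q : ℕ => test G e (initList (charFun X)
      (q.unpair.1.unpair.2 + q.unpair.2)) q.unpair.1) (Nat.pair p s) = 0 := by
    intro p
    obtain ⟨s, hs⟩ := hex p
    exact ⟨s, by simpa using hs⟩
  have hadd : Computable₂ fun a b : ℕ => a + b := Primrec.nat_add.to_comp
  have hT : RI (charFun X) fun q : ℕ => test G e (initList (charFun X)
      (q.unpair.1.unpair.2 + q.unpair.2)) q.unpair.1 := by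
    refine ri_initList (test_comp hG.comp e) ?_ (RI.of_primrec (Primrec.fst.comp Primrec.unpair))
    exact RI.comp₂ hadd (RI.of_primrec (Primrec.snd.comp (Primrec.unpair.comp
      (Primrec.fst.comp Primrec.unpair)))) (RI.of_primrec (Primrec.snd.comp Primrec.unpair))
  have hs := hT.find hex'
  have hstage : RI (charFun X) fun p : ℕ => p.unpair.2 + Nat.find (hex' p) :=
    RI.comp₂ hadd (RI.of_primrec (Primrec.snd.comp Primrec.unpair)) hs
  let V : List ℕ → ℕ → ℕ := fun σ p =>
    (evaln σ.length (ofNat Code p.unpair.1) p.unpair.2).getD 0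
  have hV : Computable₂ V := by
    have h1 : Primrec fun q : List ℕ × ℕ =>
        (evaln q.1.length (ofNat Code q.2.unpair.1) q.2.unpair.2).getD 0 := by
      refine Primrec.option_getD.comp (primrec_evaln.comp
        (Primrec.pair (Primrec.pair ?_ ?_) ?_)) (Primrec.const 0)
      · exact Primrec.list_length.comp Primrec.fst
      · exact (Primrec.ofNat Code).comp (Primrec.fst.comp (Primrec.unpair.comp Primrec.snd))
      · exact Primrec.snd.comp (Primrec.unpair.comp Primrec.snd)
    exact h1.to_comp
  have hval : RI (charFun X) fun p : ℕ =>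
      V (initList (charFun X) (p.unpair.2 + Nat.find (hex' p))) p :=
    ri_initList hV hstage (RI.of_primrec Primrec.id)
  refine ⟨_, RecursiveIn.iff_nat.2 (ri_sum hval), fun g hg => ?_⟩
  -- domination
  obtain ⟨cd, hcd⟩ := exists_code.1 (Partrec.nat_iff.1 hg.partrec)
  obtain ⟨s₀, hs₀⟩ := hlim (Encodable.encode cd)
  have htot : ∀ n, eval (ofNat Code (Encodable.encode cd)) n = Part.some (g n) := by
    intro n
    rw [Denumerable.ofNat_encode, hcd]
    rfl
  have hzero : charFun (jump (jump ∅)) (Nat.pair e (Encodable.encode cd)) = 0 := by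
    rw [charFun_eq_zero, he, not_not]
    intro n
    rw [htot]
    trivial
  refine ⟨max s₀ (Encodable.encode cd), fun n hn => ?_⟩
  refine le_trans ?_ (Finset.single_le_sum (f := fun c =>
    V (initList (charFun X) ((Nat.pair c n).unpair.2 + Nat.find (hex' (Nat.pair c n))))
      (Nat.pair c n)) (fun _ _ => Nat.zero_le _)
    (Finset.mem_range.2 (show Encodable.encode cd < n + 1 by omega)))
  have h1 := Nat.find_spec (hex' (Nat.pair (Encodable.encode cd) n))
  generalize Nat.find (hex' (Nat.pair (Encodable.encode cd) n)) = s at h1 ⊢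
  simp only [Nat.unpair_pair] at h1 ⊢
  simp only [V, initList_length, Nat.unpair_pair]
  unfold test at h1
  rw [initList_length] at h1
  simp only [Nat.unpair_pair] at h1
  rw [hs₀ (n + s) (by omega), hzero] at h1
  rcases h2 : evaln (n + s) (ofNat Code (Encodable.encode cd)) n with _ | x
  · rw [h2] at h1
    exact absurd h1 (by simp)
  · have h3 := evaln_sound (Option.mem_def.2 h2)
    rw [htot, Part.mem_some_iff] at h3
    simp [h3]

end Pool.Agent.Helper27.High
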