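import Mathlib
import Pool.Agent.Helper27.Graph

set_option autoImplicit false

/-! Regularity of the constructed languages. -/

namespace Pool.Agent.Helper27

open Computability

section preds
variable {α : Type*}

/-- A predicate on words is regular. -/
def RegP (P : List α → Prop) : Prop := Language.IsRegular (T := α) {w | P w}

theorem RegP.and {P Q : List α → Prop} (hP : RegP P) (hQ : RegP Q) : RegP (fun w => P w ∧ Q w) :=
  Language.IsRegular.inf hP hQ

theorem RegP.or {P Q : List α → Prop} (hP : RegP P) (hQ : RegP Q) : RegP (fun w => P w ∨ Q w) :=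
  Language.IsRegular.add hP hQ

theorem RegP.not {P : List α → Prop} (hP : RegP P) : RegP (fun w => ¬ P w) :=
  Language.IsRegular.compl hP

theorem RegP.ex {ι : Type*} [Finite ι] {P : ι → List α → Prop} (h : ∀ i, RegP (P i)) :
    RegP (fun w => ∃ i, P i w) :=
  reg_iUnion h

theorem RegP.congr {P Q : List α → Prop} (hP : RegP P) (h : ∀ w, P w ↔ Q w) : RegP Q := by
  have : P = Q := funext (fun w => propext (h w))
  rwa [← this]

theorem RegP.eqW (w0 : List α) : RegP (fun w => w = w0) := reg_word w0

theorem RegP.false : RegP (fun _ : List α => False) := by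
  refine (((RegP.eqW ([] : List α)).and (RegP.eqW ([] : List α)).not)).congr ?_
  intro w
  tauto

theorem RegP.const (p : Prop) : RegP (fun _ : List α => p) := by
  by_cases hp : p
  · exact (RegP.false.not).congr (fun w => by simp [hp])
  · exact RegP.false.congr (fun w => by simp [hp])

theorem RegP.all (p : α → Prop) : RegP (fun w => ∀ a ∈ w, p a) := reg_all p

theorem RegP.comap {β : Type*} (f : α → Option β) {P : List β → Prop} (h : RegP P) :
    RegP (fun w => P (w.filterMap f)) := reg_comap f h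

theorem RegP.mul {P Q : List α → Prop} (hP : RegP P) (hQ : RegP Q) :
    RegP (fun w => ∃ u v, P u ∧ Q v ∧ w = u ++ v) := by
  refine reg_congr (reg_mul hP hQ) ?_
  intro w
  constructor
  · intro h
    obtain ⟨u, hu, v, hv, rfl⟩ := Language.mem_mul.1 h
    exact ⟨u, v, hu, hv, rfl⟩
  · rintro ⟨u, v, hu, hv, rfl⟩
    exact Language.mem_mul.2 ⟨u, hu, v, hv, rfl⟩

theorem RegP.star {P : List α → Prop} (hP : RegP P) :
    RegP (fun w => ∃ S : List (List α), w = S.flatten ∧ ∀ y ∈ S, P y) :=
  reg_kstar hP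

/-- filters as preimages -/
theorem RegP.filter (p : α → Bool) {P : List α → Prop} (h : RegP P) :
    RegP (fun w => P (w.filter p)) := by
  refine (RegP.comap (fun a => if p a then some a else none) h).congr ?_
  intro w
  have : w.filterMap (fun a => if p a then some a else none) = w.filter p := by
    induction w with
    | nil => rfl
    | cons a w ih =>
      by_cases ha : p a = true
      · rw [List.filter_cons_of_pos ha, List.filterMap_cons_some (by simp [ha]; rfl), ih]
      · rw [List.filter_cons_of_neg ha, List.filterMap_cons_none (by simp [ha]), ih]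
  rw [this]

theorem RegP.len (k : ℕ) : RegP (fun w : List α => w.length = k) := by
  refine (RegP.comap (fun _ => some ()) (RegP.eqW (List.replicate k ()))).congr ?_
  intro w
  have : w.filterMap (fun _ => some ()) = List.replicate w.length () := by
    induction w with
    | nil => rfl
    | cons a w ih =>
      rw [List.filterMap_cons_some (f := fun _ => some ()) (b := ()) rfl, ih]
      rfl
  rw [this]
  constructor
  · intro h
    have := congrArg List.length h
    simpa using this
  · intro h; rw [h]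

end preds

namespace Bs
variable {C X : Type}

theorem finite_bs [Finite C] [Finite X] : Finite (Bs C X) := by
  let f : Bs C X → (Bool ⊕ Unit) ⊕ ((Bool × C) ⊕ (Bool ⊕ (Bool × X))) := fun a =>
    match a with
    | hub b => Sum.inl (Sum.inl b)
    | e => Sum.inl (Sum.inr ())
    | mk s c => Sum.inr (Sum.inl (s, c))
    | st s => Sum.inr (Sum.inr (Sum.inl s))
    | x s a => Sum.inr (Sum.inr (Sum.inr (s, a)))
  apply Finite.of_injective f
  intro a b h
  cases a <;> cases b <;> simp [f] at h <;> simp [h]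

end Bs

theorem finite_lt {β : Type} [Finite β] : Finite (Lt β) := by
  let f : Lt β → (Bool ⊕ Bool) ⊕ β := fun a =>
    match a with
    | Lt.P b => Sum.inl (Sum.inl b)
    | Lt.Q b => Sum.inl (Sum.inr b)
    | Lt.N x => Sum.inr x
  apply Finite.of_injective f
  intro a b h
  cases a <;> cases b <;> simp [f] at h <;> simp [h]

theorem finite_shape {X : Type} [Finite X] : Finite (Shape X) := by
  let f : Shape X → Set X × Option X × Option X × Set X := fun s => (s.A1, s.d, s.i, s.A2)
  apply Finite.of_injective f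
  rintro ⟨a1, a2, a3, a4⟩ ⟨b1, b2, b3, b4⟩ h
  simp [f] at h
  simp [h]

open Bs

variable {C X : Type}

theorem reg_Vx [Finite C] [Finite X] : RegP (fun v => v ∈ RM.Vx C X) := by
  have := finite_bs (C := C) (X := X)
  have h1 : RegP (fun v : List (Bs C X) => ∃ m, mark m = true ∧ v = [m]) :=
    RegP.ex (fun m => (RegP.const _).and (RegP.eqW _))
  have h2 : RegP (fun v : List (Bs C X) => ∃ b, v = [hub b, e]) :=
    RegP.ex (fun b => RegP.eqW _)
  have h3 : RegP (fun v : List (Bs C X) => ∃ s c W, v = cw s c W) := by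
    refine RegP.ex (fun s => RegP.ex (fun c => ?_))
    refine ((RegP.eqW [mk s c, st s]).mul (RegP.all (fun a => ∃ y, a = x s y))).congr ?_
    intro w
    constructor
    · rintro ⟨u, v, rfl, hv, rfl⟩
      have : ∃ W : List X, v = W.map (x s) := by
        clear * - hv
        induction v with
        | nil => exact ⟨[], rfl⟩
        | cons a v ih =>
          obtain ⟨W, rfl⟩ := ih (fun b hb => hv b (List.mem_cons_of_mem _ hb))
          obtain ⟨y, rfl⟩ := hv a List.mem_cons_self
          exact ⟨y :: W, rfl⟩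
      obtain ⟨W, rfl⟩ := this
      exact ⟨W, rfl⟩
    · rintro ⟨W, rfl⟩
      refine ⟨[mk s c, st s], W.map (x s), rfl, ?_, rfl⟩
      intro a ha
      obtain ⟨y, -, rfl⟩ := List.mem_map.1 ha
      exact ⟨y, rfl⟩
  exact h1.or (h2.or h3)

theorem reg_pairs [Finite X] (A : Set X) :
    RegP (fun w : List (Bs C X) => ∃ W, (∀ a ∈ W, a ∈ A) ∧ w = pairs W) := by
  have h1 : RegP (fun v : List (Bs C X) => ∃ a, a ∈ A ∧ v = [x false a, x true a]) :=
    RegP.ex (fun m => (RegP.const _).and (RegP.eqW _))
  refine h1.star.congr ?_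
  intro w
  constructor
  · rintro ⟨S, rfl, hS⟩
    induction S with
    | nil => exact ⟨[], by simp, rfl⟩
    | cons y S ih =>
      obtain ⟨W, hW, h2⟩ := ih (fun z hz => hS z (List.mem_cons_of_mem _ hz))
      obtain ⟨a, ha, rfl⟩ := hS y List.mem_cons_self
      refine ⟨a :: W, ?_, ?_⟩
      · intro b hb
        rcases List.mem_cons.1 hb with rfl | hb
        · exact ha
        · exact hW b hb
      · rw [List.flatten_cons, h2]; rfl
  · rintro ⟨W, hW, rfl⟩
    refine ⟨W.map (fun a => [x false a, x true a]), ?_, ?_⟩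
    · rw [pairs, List.flatMap_def]
    · intro y hy
      obtain ⟨a, ha, rfl⟩ := List.mem_map.1 hy
      exact ⟨a, hW a ha, rfl⟩

theorem reg_BadFix [Finite C] [Finite X] (M : RM C X) : RegP (fun b => b ∈ M.BadFix) := by
  have := finite_shape (X := X)
  have h1 : RegP (fun b : List (Bs C X) => ∃ c W, M.H c ∧ b = hub true :: e :: cw true c W) := by
    refine RegP.ex (fun c => ?_)
    refine (((RegP.const (M.H c)).and ((RegP.eqW [hub true, e, mk true c, st true]).mul
      (RegP.all (fun a => ∃ y, a = x true y)))).congr ?_)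
    intro w
    constructor
    · rintro ⟨hH, u, v, rfl, hv, rfl⟩
      have : ∃ W : List X, v = W.map (x true) := by
        clear * - hv
        induction v with
        | nil => exact ⟨[], rfl⟩
        | cons a v ih =>
          obtain ⟨W, rfl⟩ := ih (fun b hb => hv b (List.mem_cons_of_mem _ hb))
          obtain ⟨y, rfl⟩ := hv a List.mem_cons_self
          exact ⟨y :: W, rfl⟩
      obtain ⟨W, rfl⟩ := this
      exact ⟨W, hH, rfl⟩
    · rintro ⟨W, hH, rfl⟩
      refine ⟨hH, [hub true, e, mk true c, st true], W.map (x true), rfl, ?_, rfl⟩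
      intro a ha
      obtain ⟨y, -, rfl⟩ := List.mem_map.1 ha
      exact ⟨y, rfl⟩
  have h2 : RegP (fun b : List (Bs C X) => ∃ c c' s W1 W2,
      (M.Mv c c' s ∨ (c = c' ∧ s = RM.idShape X)) ∧ (∀ a ∈ W1, a ∈ s.A1) ∧
      (∀ a ∈ W2, a ∈ s.A2) ∧ b = bw c c' s W1 W2) := by
    refine RegP.ex (fun c => RegP.ex (fun c' => RegP.ex (fun s => ?_)))
    refine (((RegP.const (M.Mv c c' s ∨ (c = c' ∧ s = RM.idShape X))).and
      ((RegP.eqW [mk false c, mk true c', st false, st true]).mul
        (((reg_pairs s.A1).mul (RegP.eqW (s.d.toList.map (x false) ++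
          s.i.toList.map (x true)))).mul (reg_pairs s.A2)))).congr ?_)
    intro w
    constructor
    · rintro ⟨hH, u, v, rfl, ⟨u1, v1, ⟨u2, v2, ⟨W1, hW1, rfl⟩, rfl, rfl⟩, ⟨W2, hW2, rfl⟩, rfl⟩, rfl⟩
      exact ⟨W1, W2, hH, hW1, hW2, by simp [bw]⟩
    · rintro ⟨W1, W2, hH, hW1, hW2, rfl⟩
      exact ⟨hH, _, _, rfl, ⟨_, _, ⟨_, _, ⟨W1, hW1, rfl⟩, rfl, rfl⟩, ⟨W2, hW2, rfl⟩, rfl⟩,
        by simp [bw]⟩
  exact h1.or h2

/-- The components that do not depend on the initial configuration. -/
def ZA (M : RM C X) : Bool → Bool → Set (List (Bs C X))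
  | true, true => {z | z = [] ∨ z ∈ RM.Vx C X ∨ ((z.filter mark).length = 2 ∧ z ∉ M.BadFix) ∨
      3 ≤ (z.filter mark).length}
  | true, false => {z | z.filter (fun a => !mark a) ≠ [e] ∨ z = [hub false, e] ∨
      (z.filter (fun a => !mark a) = [e] ∧ 2 ≤ (z.filter mark).length)}
  | false, true => {z | z.filter (fun a => !mark a) ≠ [e] ∨ z = [hub true, e] ∨
      (z.filter (fun a => !mark a) = [e] ∧ 2 ≤ (z.filter mark).length)}
  | false, false => {z | (z.filter mark).length = 0 ∧ z ≠ [e]}

theorem reg_cnt_eq (k : ℕ) : RegP (fun z : List (Bs C X) => (z.filter mark).length = k) :=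
  RegP.filter mark (RegP.len k)

theorem reg_cnt_ge2 : RegP (fun z : List (Bs C X) => 2 ≤ (z.filter mark).length) :=
  (((reg_cnt_eq 0).or (reg_cnt_eq 1)).not).congr (fun w => by omega)

theorem reg_cnt_ge3 : RegP (fun z : List (Bs C X) => 3 ≤ (z.filter mark).length) :=
  (((reg_cnt_eq 0).or ((reg_cnt_eq 1).or (reg_cnt_eq 2))).not).congr (fun w => by omega)

theorem reg_ZA [Finite C] [Finite X] (M : RM C X) (b c : Bool) : RegP (fun z => z ∈ ZA M b c) := by
  have hnm : RegP (fun z : List (Bs C X) => z.filter (fun a => !mark a) = [e]) :=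
    RegP.filter (fun a => !mark a) (RegP.eqW [e])
  cases b <;> cases c
  · exact (reg_cnt_eq 0).and (RegP.eqW [e]).not
  · exact hnm.not.or ((RegP.eqW _).or (hnm.and reg_cnt_ge2))
  · exact hnm.not.or ((RegP.eqW _).or (hnm.and reg_cnt_ge2))
  · exact (RegP.eqW _).or (reg_Vx.or (((reg_cnt_eq 2).and (reg_BadFix M).not).or reg_cnt_ge3))

/-- The fixed language. -/
def RA (M : RM C X) (w : List (Lt (Bs C X))) : Prop :=
  ∃ b c, w.filterMap Lt.pl = [b] ∧ w.filterMap Lt.ql = [c] ∧ w.filterMap Lt.nl ∈ ZA M b c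

theorem reg_RA [Finite C] [Finite X] (M : RM C X) : RegP (RA M) := by
  refine RegP.ex (fun b => RegP.ex (fun c => ?_))
  exact (RegP.comap Lt.pl (RegP.eqW [b])).and ((RegP.comap Lt.ql (RegP.eqW [c])).and
    (RegP.comap Lt.nl (reg_ZA M b c)))

/-- The second fixed language. -/
def RB (c0 : C) (y0 y1 : X) (w : List (Lt (Bs C X))) : Prop :=
  w.filterMap Lt.pl = [true] ∧ w.filterMap Lt.ql = [true] ∧
    ∃ n, w.filterMap Lt.nl = RM.b0 (c0, List.replicate n y0 ++ [y1])

theorem reg_RB (c0 : C) (y0 y1 : X) : RegP (RB c0 y0 y1) := by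
  refine (RegP.comap Lt.pl (RegP.eqW [true])).and ((RegP.comap Lt.ql (RegP.eqW [true])).and ?_)
  refine RegP.comap Lt.nl (P := fun z => ∃ n, z = RM.b0 (c0, List.replicate n y0 ++ [y1])) ?_
  refine (((RegP.eqW [hub false, e, mk true c0, st true]).mul
    ((RegP.all (fun a => a = x true y0)).mul (RegP.eqW [x true y1]))).congr ?_)
  intro w
  constructor
  · rintro ⟨u, v, rfl, ⟨u1, v1, hu1, rfl, rfl⟩, rfl⟩
    refine ⟨u1.length, ?_⟩
    have : u1 = List.replicate u1.length (x true y0) := List.eq_replicate_iff.2 ⟨rfl, hu1⟩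
    rw [RM.b0, cw, List.map_append, List.map_replicate, ← this]
    rfl
  · rintro ⟨n, rfl⟩
    refine ⟨_, _, rfl, ⟨List.replicate n (x true y0), [x true y1], ?_, rfl, rfl⟩, ?_⟩
    · intro a ha
      exact List.eq_of_mem_replicate ha
    · rw [RM.b0, cw, List.map_append, List.map_replicate]
      rfl

theorem mem_core_R (M : RM C X) (p : C × List X) (w : List (Lt (Bs C X))) :
    w ∈ (M.core p).R ↔ (RA M w ∧ ¬ (w.filterMap Lt.pl = [true] ∧ w.filterMap Lt.ql = [true] ∧
      w.filterMap Lt.nl = RM.b0 p)) := by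
  have hb0 : ((RM.b0 p : List (Bs C X)).filter mark).length = 2 := by
    unfold RM.b0 cw
    rw [List.filter_cons_of_pos (by rfl), List.filter_cons_of_neg (by simp [mark]),
      List.filter_cons_of_pos (by rfl), List.filter_cons_of_neg (by simp [mark]),
      map_filter_other _ _ _ (fun a => by rfl)]
    rfl
  have hV : (RM.b0 p : List (Bs C X)) ∉ RM.Vx C X := by
    intro h
    have := (M.core p).cnt_V h
    rw [show (M.core p).cnt (RM.b0 p) = 2 from hb0] at this
    omega
  have hZ : ∀ z, z ∈ (M.core p).Z ↔ (z ∈ ZA M true true ∧ z ≠ RM.b0 p) := by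
    intro z
    constructor
    · rintro (rfl | h | ⟨h, h'⟩ | h)
      · exact ⟨Or.inl rfl, by simp [RM.b0]⟩
      · refine ⟨Or.inr (Or.inl h), ?_⟩
        rintro rfl
        exact hV h
      · exact ⟨Or.inr (Or.inr (Or.inl ⟨h, fun hh => h' (Or.inr hh)⟩)), fun hh => h' (Or.inl hh)⟩
      · refine ⟨Or.inr (Or.inr (Or.inr h)), ?_⟩
        rintro rfl
        rw [show (M.core p).cnt (RM.b0 p) = 2 from hb0] at h
        omega
    · rintro ⟨h | h | ⟨h, h'⟩ | h, hne⟩
      · exact Or.inl h
      · exact Or.inr (Or.inl h)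
      · refine Or.inr (Or.inr (Or.inl ⟨h, ?_⟩))
        rintro (hh | hh)
        · exact hne hh
        · exact h' hh
      · exact Or.inr (Or.inr (Or.inr h))
  constructor
  · rintro ⟨b, c, hb, hc, hz⟩
    cases b <;> cases c
    · exact ⟨⟨false, false, hb, hc, hz⟩, by rw [hb]; simp⟩
    · exact ⟨⟨false, true, hb, hc, hz⟩, by rw [hb]; simp⟩
    · exact ⟨⟨true, false, hb, hc, hz⟩, by rw [hc]; simp⟩
    · have := (hZ _).1 hz
      exact ⟨⟨true, true, hb, hc, this.1⟩, fun h => this.2 h.2.2⟩
  · rintro ⟨⟨b, c, hb, hc, hz⟩, hn⟩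
    cases b <;> cases c
    · exact ⟨false, false, hb, hc, hz⟩
    · exact ⟨false, true, hb, hc, hz⟩
    · exact ⟨true, false, hb, hc, hz⟩
    · exact ⟨true, true, hb, hc, (hZ _).2 ⟨hz, fun h => hn ⟨hb, hc, h⟩⟩⟩

theorem count_nl {β : Type} [DecidableEq β] [DecidableEq (Lt β)] (w : List (Lt β)) (y : β) :
    w.count (Lt.N y) = (w.filterMap Lt.nl).count y := by
  induction w with
  | nil => rfl
  | cons a w ih =>
    cases a with
    | P b => rw [Lt.cnP, List.count_cons, ih]; simp
    | Q b => rw [Lt.cnQ, List.count_cons, ih]; simp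
    | N z =>
      rw [Lt.cnN, List.count_cons, List.count_cons, ih]
      by_cases h : z = y
      · subst h; simp
      · have : Lt.N z ≠ Lt.N y := fun h' => h (by injection h')
        simp [h, this]

/-- The language of the machine with unary input `n`, in terms of the two fixed languages. -/
theorem mem_core_R' (M : RM C X) (c0 : C) (y0 y1 : X) (hy : y1 ≠ y0) (n : ℕ)
    [DecidableEq (Lt (Bs C X))] (w : List (Lt (Bs C X))) :
    w ∈ (M.core (c0, List.replicate n y0 ++ [y1])).R ↔
      (RA M w ∧ ¬ (RB c0 y0 y1 w ∧ w.count (Lt.N (x true y0)) = n)) := by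
  classical
  rw [mem_core_R]
  have key : (w.filterMap Lt.pl = [true] ∧ w.filterMap Lt.ql = [true] ∧
      w.filterMap Lt.nl = RM.b0 (c0, List.replicate n y0 ++ [y1])) ↔
      (RB c0 y0 y1 w ∧ w.count (Lt.N (x true y0)) = n) := by
    have hc : ∀ m, (RM.b0 (c0, List.replicate m y0 ++ [y1]) : List (Bs C X)).count (x true y0)
        = m := by
      intro m
      unfold RM.b0 cw
      simp only
      rw [List.map_append, List.map_replicate]
      rw [List.count_cons_of_ne (by intro h; cases h), List.count_cons_of_ne (by intro h; cases h),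
        List.count_cons_of_ne (by intro h; cases h), List.count_cons_of_ne (by intro h; cases h),
        List.count_append, List.count_replicate_self]
      have : (x true y1 : Bs C X) ≠ x true y0 := by
        intro h; injection h with h1 h2; exact hy h2
      simp [this]
    rw [count_nl]
    constructor
    · rintro ⟨h1, h2, h3⟩
      exact ⟨⟨h1, h2, n, h3⟩, by rw [h3, hc]⟩
    · rintro ⟨⟨h1, h2, m, h3⟩, h4⟩
      rw [h3, hc] at h4
      subst h4
      exact ⟨h1, h2, h3⟩
  rw [key]

end Pool.Agent.Helper27
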