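import Mathlib

set_option autoImplicit false

/-! A computable family of automaton tables. -/

namespace Pool.Agent.Helper27

/-- Acceptance of a word by an automaton given by a table and a list of accepting states. -/
def tabAcc (k : ℕ) (g : List ℕ × List ℕ) (w : List (Fin k)) : Prop :=
  w.foldl (fun q a => g.1.getD (q * k + a.val) 0) 0 ∈ g.2

/-- transition function of the family -/
def trN (k s y : ℕ) (st : List ℕ) (n q a : ℕ) : ℕ :=
  (if a = y then min (q / s + 1) (n + 1) else q / s) * s + st.getD ((q % s) * k + a) 0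

/-- the table of the family -/
def tableN (k s y : ℕ) (st : List ℕ) (n : ℕ) : List ℕ :=
  (List.range ((n + 2) * s * k)).map (fun t => trN k s y st n (t / k) (t % k))

/-- the accepting states of the family -/
def accN (s : ℕ) (cA cB : List Bool) (n : ℕ) : List ℕ :=
  (List.range ((n + 2) * s)).filterMap (fun q =>
    if cA.getD (q % s) false = true ∧ ¬ (cB.getD (q % s) false = true ∧ q / s = n) then some q
    else none)

theorem primrec_tableN (k s y : ℕ) (st : List ℕ) : Primrec (tableN k s y st) := by
  have h1 : Primrec fun n : ℕ => List.range ((n + 2) * s * k) := by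
    refine Primrec.list_range.comp ?_
    exact Primrec.nat_mul.comp (Primrec.nat_mul.comp
      (Primrec.nat_add.comp Primrec.id (Primrec.const 2)) (Primrec.const s)) (Primrec.const k)
  refine Primrec.list_map h1 ?_
  have hq : Primrec fun p : ℕ × ℕ => p.2 / k := Primrec.nat_div.comp Primrec.snd (Primrec.const k)
  have ha : Primrec fun p : ℕ × ℕ => p.2 % k := Primrec.nat_mod.comp Primrec.snd (Primrec.const k)
  have hqs : Primrec fun p : ℕ × ℕ => p.2 / k / s := Primrec.nat_div.comp hq (Primrec.const s)
  have hqm : Primrec fun p : ℕ × ℕ => p.2 / k % s := Primrec.nat_mod.comp hq (Primrec.const s)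
  have hst : Primrec fun i : ℕ => st.getD i 0 :=
    (Primrec.list_getD 0).comp (Primrec.const st) Primrec.id
  have hc : PrimrecPred fun p : ℕ × ℕ => p.2 % k = y :=
    Primrec.eq.comp ha (Primrec.const y)
  have h2 : Primrec fun p : ℕ × ℕ =>
      (if p.2 % k = y then min (p.2 / k / s + 1) (p.1 + 1) else p.2 / k / s) * s +
        st.getD ((p.2 / k % s) * k + p.2 % k) 0 := by
    refine Primrec.nat_add.comp (Primrec.nat_mul.comp (Primrec.ite hc ?_ hqs) (Primrec.const s))
      (hst.comp (Primrec.nat_add.comp (Primrec.nat_mul.comp hqm (Primrec.const k)) ha))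
    exact Primrec.nat_min.comp (Primrec.succ.comp hqs) (Primrec.succ.comp Primrec.fst)
  exact h2

theorem primrec_accN (s : ℕ) (cA cB : List Bool) : Primrec (accN s cA cB) := by
  have h1 : Primrec fun n : ℕ => List.range ((n + 2) * s) := by
    refine Primrec.list_range.comp ?_
    exact (Primrec.nat_mul.comp
      (Primrec.nat_add.comp Primrec.id (Primrec.const 2)) (Primrec.const s))
  refine Primrec.listFilterMap h1 ?_
  have hA : Primrec fun i : ℕ => cA.getD i false :=
    (Primrec.list_getD false).comp (Primrec.const cA) Primrec.id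
  have hB : Primrec fun i : ℕ => cB.getD i false :=
    (Primrec.list_getD false).comp (Primrec.const cB) Primrec.id
  have hqm : Primrec fun p : ℕ × ℕ => p.2 % s := Primrec.nat_mod.comp Primrec.snd (Primrec.const s)
  have hqs : Primrec fun p : ℕ × ℕ => p.2 / s := Primrec.nat_div.comp Primrec.snd (Primrec.const s)
  have c1 : PrimrecPred fun p : ℕ × ℕ => cA.getD (p.2 % s) false = true :=
    Primrec.eq.comp (hA.comp hqm) (Primrec.const true)
  have c2 : PrimrecPred fun p : ℕ × ℕ => cB.getD (p.2 % s) false = true :=
    Primrec.eq.comp (hB.comp hqm) (Primrec.const true)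
  have c3 : PrimrecPred fun p : ℕ × ℕ => p.2 / s = p.1 :=
    Primrec.eq.comp hqs Primrec.fst
  have c4 : PrimrecPred fun p : ℕ × ℕ =>
      cA.getD (p.2 % s) false = true ∧ ¬ (cB.getD (p.2 % s) false = true ∧ p.2 / s = p.1) :=
    c1.and (c2.and c3).not
  exact Primrec.ite c4 (Primrec.option_some.comp Primrec.snd) (Primrec.const none)

theorem mem_accN {s : ℕ} {cA cB : List Bool} {n q : ℕ} : q ∈ accN s cA cB n ↔
    q < (n + 2) * s ∧ cA.getD (q % s) false = true ∧
      ¬ (cB.getD (q % s) false = true ∧ q / s = n) := by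
  unfold accN
  rw [List.mem_filterMap]
  constructor
  · rintro ⟨a, ha, hb⟩
    split_ifs at hb with h
    · cases hb
      exact ⟨List.mem_range.1 ha, h⟩
  · rintro ⟨h1, h2⟩
    exact ⟨q, List.mem_range.2 h1, by rw [if_pos h2]⟩

theorem getD_tableN {k s y : ℕ} {st : List ℕ} {n q a : ℕ} (hq : q < (n + 2) * s) (ha : a < k) :
    (tableN k s y st n).getD (q * k + a) 0 = trN k s y st n q a := by
  have h1 : q * k + a < (n + 2) * s * k := by
    calc q * k + a < q * k + k := by omega
      _ = (q + 1) * k := by ring
      _ ≤ (n + 2) * s * k := Nat.mul_le_mul_right k hq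
  unfold tableN
  rw [List.getD_eq_getElem?_getD, List.getElem?_map, List.getElem?_range h1]
  have hk : 0 < k := by omega
  have e1 : (q * k + a) / k = q := by
    rw [Nat.add_comm, Nat.add_mul_div_right _ _ hk, Nat.div_eq_of_lt ha, Nat.zero_add]
  have e2 : (q * k + a) % k = a := by
    rw [Nat.add_comm, Nat.add_mul_mod_self_right, Nat.mod_eq_of_lt ha]
  simp [e1, e2]

/-- Main statement: for fixed regular languages `LA`, `LB` and a letter `y` there is a computable
family of automaton tables accepting `LA` minus the words of `LB` with exactly `n` letters `y`. -/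
theorem exists_family (k : ℕ) (LA LB : Language (Fin k)) (hA : LA.IsRegular) (hB : LB.IsRegular)
    (y : Fin k) : ∃ g : ℕ → List ℕ × List ℕ, Primrec g ∧
      ∀ n w, tabAcc k (g n) w ↔ (w ∈ LA ∧ ¬ (w ∈ LB ∧ w.count y = n)) := by
  classical
  obtain ⟨σ1, _, M1, hM1⟩ := hA
  obtain ⟨σ2, _, M2, hM2⟩ := hB
  -- product automaton
  let s := Fintype.card (σ1 × σ2)
  have : Nonempty (σ1 × σ2) := ⟨(M1.start, M2.start)⟩
  have hs : 0 < s := Fintype.card_pos
  let E0 : σ1 × σ2 ≃ Fin s := Fintype.equivFin _
  let E : σ1 × σ2 ≃ Fin s := E0.trans (Equiv.swap (E0 (M1.start, M2.start)) ⟨0, hs⟩)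
  have hE : E (M1.start, M2.start) = ⟨0, hs⟩ := by simp [E]
  let step : σ1 × σ2 → Fin k → σ1 × σ2 := fun p a => (M1.step p.1 a, M2.step p.2 a)
  let st : List ℕ := List.ofFn (fun t : Fin (s * k) => (E (step (E.symm t.divNat) t.modNat)).val)
  have hst : ∀ (q : Fin s) (a : Fin k), st.getD (q.val * k + a.val) 0 =
      (E (step (E.symm q) a)).val := by
    intro q a
    have h1 : q.val * k + a.val < s * k := by
      calc q.val * k + a.val < q.val * k + k := by omega
        _ = (q.val + 1) * k := by ring
        _ ≤ s * k := Nat.mul_le_mul_right k q.2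
    have hk : 0 < k := by have := a.2; omega
    rw [List.getD_eq_getElem?_getD, List.getElem?_ofFn, dif_pos h1]
    have e1 : (⟨q.val * k + a.val, h1⟩ : Fin (s * k)).divNat = q := by
      apply Fin.ext
      rw [Fin.coe_divNat]
      change (q.val * k + a.val) / k = q.val
      rw [Nat.add_comm, Nat.add_mul_div_right _ _ hk, Nat.div_eq_of_lt a.2, Nat.zero_add]
    have e2 : (⟨q.val * k + a.val, h1⟩ : Fin (s * k)).modNat = a := by
      apply Fin.ext
      rw [Fin.coe_modNat]
      change (q.val * k + a.val) % k = a.val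
      rw [Nat.add_comm, Nat.add_mul_mod_self_right, Nat.mod_eq_of_lt a.2]
    rw [e1, e2]
    rfl
  let cA : List Bool := List.ofFn (fun t : Fin s => decide ((E.symm t).1 ∈ M1.accept))
  let cB : List Bool := List.ofFn (fun t : Fin s => decide ((E.symm t).2 ∈ M2.accept))
  have hcA : ∀ q : Fin s, cA.getD q.val false = decide ((E.symm q).1 ∈ M1.accept) := by
    intro q
    rw [List.getD_eq_getElem?_getD, List.getElem?_ofFn, dif_pos q.2]
    rfl
  have hcB : ∀ q : Fin s, cB.getD q.val false = decide ((E.symm q).2 ∈ M2.accept) := by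
    intro q
    rw [List.getD_eq_getElem?_getD, List.getElem?_ofFn, dif_pos q.2]
    rfl
  refine ⟨fun n => (tableN k s y.val st n, accN s cA cB n),
    (primrec_tableN k s y.val st).pair (primrec_accN s cA cB), ?_⟩
  intro n w
  have key : ∀ w : List (Fin k),
      w.foldl (fun q a => (tableN k s y.val st n).getD (q * k + a.val) 0) 0 =
        min (w.count y) (n + 1) * s + (E (M1.eval w, M2.eval w)).val := by
    intro w
    induction w using List.reverseRecOn with
    | nil => simp [hE]
    | append_singleton w a ih =>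
      rw [List.foldl_append, List.foldl_cons, List.foldl_nil, ih,
        DFA.eval_append_singleton, DFA.eval_append_singleton]
      have hlt : (E (M1.eval w, M2.eval w)).val < s := (E (M1.eval w, M2.eval w)).2
      have hq : min (w.count y) (n + 1) * s + (E (M1.eval w, M2.eval w)).val < (n + 2) * s := by
        calc min (w.count y) (n + 1) * s + (E (M1.eval w, M2.eval w)).val
            < min (w.count y) (n + 1) * s + s := by omega
          _ = (min (w.count y) (n + 1) + 1) * s := by ring
          _ ≤ (n + 2) * s := Nat.mul_le_mul_right s (by omega)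
      rw [getD_tableN hq a.2]
      unfold trN
      have e1 : (min (w.count y) (n + 1) * s + (E (M1.eval w, M2.eval w)).val) / s =
          min (w.count y) (n + 1) := by
        rw [Nat.add_comm, Nat.add_mul_div_right _ _ hs, Nat.div_eq_of_lt hlt, Nat.zero_add]
      have e2 : (min (w.count y) (n + 1) * s + (E (M1.eval w, M2.eval w)).val) % s =
          (E (M1.eval w, M2.eval w)).val := by
        rw [Nat.add_comm, Nat.add_mul_mod_self_right, Nat.mod_eq_of_lt hlt]
      rw [e1, e2, hst]
      have e3 : step (E.symm (E (M1.eval w, M2.eval w))) a =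
          (M1.step (M1.eval w) a, M2.step (M2.eval w) a) := by
        rw [Equiv.symm_apply_apply]
      rw [e3]
      congr 2
      rw [List.count_append]
      by_cases hay : a = y
      · subst hay
        simp
      · have : a.val ≠ y.val := fun h => hay (Fin.ext h)
        rw [if_neg this]
        simp [hay]
  unfold tabAcc
  rw [key, mem_accN]
  have hlt : (E (M1.eval w, M2.eval w)).val < s := (E (M1.eval w, M2.eval w)).2
  have e1 : (min (w.count y) (n + 1) * s + (E (M1.eval w, M2.eval w)).val) / s =
      min (w.count y) (n + 1) := by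
    rw [Nat.add_comm, Nat.add_mul_div_right _ _ hs, Nat.div_eq_of_lt hlt, Nat.zero_add]
  have e2 : (min (w.count y) (n + 1) * s + (E (M1.eval w, M2.eval w)).val) % s =
      (E (M1.eval w, M2.eval w)).val := by
    rw [Nat.add_comm, Nat.add_mul_mod_self_right, Nat.mod_eq_of_lt hlt]
  rw [e1, e2, hcA, hcB, Equiv.symm_apply_apply]
  have hq : min (w.count y) (n + 1) * s + (E (M1.eval w, M2.eval w)).val < (n + 2) * s := by
    calc min (w.count y) (n + 1) * s + (E (M1.eval w, M2.eval w)).val
        < min (w.count y) (n + 1) * s + s := by omega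
      _ = (min (w.count y) (n + 1) + 1) * s := by ring
      _ ≤ (n + 2) * s := Nat.mul_le_mul_right s (by omega)
  have e3 : (min (w.count y) (n + 1) = n) ↔ w.count y = n := by omega
  rw [e3, ← hM1, ← hM2, DFA.mem_accepts, DFA.mem_accepts]
  simp only [decide_eq_true_eq]
  exact ⟨fun h => h.2, fun h => ⟨hq, h⟩⟩

end Pool.Agent.Helper27
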